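import Pool.Agent.TH305.DR.Scl
import Pool.Agent.TH305.LW.Asm5

/-!
Derivative bounds (helper305): single derivatives, the second exceptional set, weak forms.
-/

set_option autoImplicit false

open MeasureTheory Set Metric Filter Topology
open scoped ContDiff ENNReal

namespace Pool.Agent.TH305.DR

open H459R3.NS W221.NS Pool.Agent.W349.MF

/-- The iterated partial derivative of `g` in the directions listed in `l`. -/
noncomputable def dl (l : List (Fin 3)) (g : V → ℝ) : V → ℝ := l.foldl (fun g i => pd i g) g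

/-- The entry `∂ᵢ vⱼ - ∂ⱼ vᵢ` of the vorticity matrix of the field `v`. -/
noncomputable def vo (v : V → V) (i j : Fin 3) (x : V) : ℝ :=
  pd i (fun y => v y j) x - pd j (fun y => v y i) x

/-- The points where some derivative of order `n ≥ 0` of some vorticity entry of `v` exceeds
`K n ν / r ^ (n + 2)` in absolute value. -/
def badW (K : ℕ → ℝ) (ν r : ℝ) (v : V → V) : Set V :=
  {x | ∃ (l : List (Fin 3)) (i j : Fin 3), K l.length * ν / r ^ (l.length + 2) < |dl l (vo v i j) x|}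

/-- The points where some derivative of order `n ≥ 1` of some component of `v` exceeds
`K n ν / r ^ (n + 1)` in absolute value. -/
def badV (K : ℕ → ℝ) (ν r : ℝ) (v : V → V) : Set V :=
  {x | ∃ l : List (Fin 3), l ≠ [] ∧ ∃ i : Fin 3,
    K l.length * ν / r ^ (l.length + 1) < |dl l (fun y => v y i) x|}

lemma badW_mono {K : ℕ → ℝ} (hK : ∀ n, 0 < K n) {ν r R : ℝ} (hν : 0 < ν) (hr : 0 < r) (hrR : r ≤ R)
    (v : V → V) : badW K ν r v ⊆ badW K ν R v := by
  rintro x ⟨l, i, j, h⟩
  refine ⟨l, i, j, lt_of_le_of_lt ?_ h⟩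
  have := hK l.length
  gcongr

lemma badV_mono {K : ℕ → ℝ} (hK : ∀ n, 0 < K n) {ν r R : ℝ} (hν : 0 < ν) (hr : 0 < r) (hrR : r ≤ R)
    (v : V → V) : badV K ν r v ⊆ badV K ν R v := by
  rintro x ⟨l, hl, i, h⟩
  refine ⟨l, hl, i, lt_of_le_of_lt ?_ h⟩
  have := hK l.length
  gcongr

/-- The constants for single derivatives. -/
noncomputable def Kc (K : ℕ → ℝ) (n : ℕ) : ℝ := 1 + 2 * K n + 2 * K (n - 1)

lemma sq_to_abs {a b c : ℝ} {m : ℕ} {r ν : ℝ} (hr : 0 < r) (hν : 0 < ν) (hb : 0 ≤ b)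
    (hc : 1 + b ≤ c) (h : (r ^ m) ^ 2 * a ^ 2 ≤ b * ν ^ 2) : |a| ≤ c * ν / r ^ m := by
  rw [le_div_iff₀ (by positivity)]
  apply abs_le_of_sq_le_sq' _ _ |>.2
  · rw [mul_pow, sq_abs, mul_comm]
    refine h.trans ?_
    rw [mul_pow]
    apply mul_le_mul_of_nonneg_right _ (by positivity)
    nlinarith
  · have : 0 ≤ c := by linarith
    positivity

lemma pow_aux (r : ℝ) (n : ℕ) : r ^ (2 * n + 4) = (r ^ (n + 2)) ^ 2 := by
  rw [← pow_mul]
  congr 1
  ring

/-- Single derivatives of the vorticity. -/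
lemma est_vo {K : ℕ → ℝ} (hK : ∀ n, 0 < K n) {ν r : ℝ} (hν : 0 < ν) (hr : 0 < r) {v : V → V}
    {x x' : V} (h : Bds K ν r v x) (hx' : x' ∈ ball x (r / 16)) (l : List (Fin 3)) (i j : Fin 3) :
    |dl l (vo v i j) x'| ≤ Kc K l.length * ν / r ^ (l.length + 2) := by
  have h1 := (h x' hx' l.length).1
  have k1 := hK l.length
  have k2 := hK (l.length - 1)
  refine sq_to_abs hr hν k1.le (by unfold Kc; linarith) ?_
  rw [← pow_aux]
  refine le_trans ?_ h1
  apply mul_le_mul_of_nonneg_left _ (by positivity)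
  refine (SS_foldl l (vo v i j) x').trans ?_
  exact Finset.single_le_sum (f := fun q : Fin 3 × Fin 3 => SS l.length (Om q.1 q.2 v) x')
    (fun q _ => SS_nonneg _ _ _) (Finset.mem_univ (i, j))

/-- Single derivatives of the velocity. -/
lemma est_ve {K : ℕ → ℝ} (hK : ∀ n, 0 < K n) {ν r : ℝ} (hν : 0 < ν) (hr : 0 < r) {v : V → V}
    {x x' : V} (h : Bds K ν r v x) (hx' : x' ∈ ball x (r / 16)) (hA : A2 x (5 * r) v ≤ ν ^ 2 * r)
    (l : List (Fin 3)) (hl : l ≠ []) (i : Fin 3) :
    |dl l (fun y => v y i) x'| ≤ Kc K l.length * ν / r ^ (l.length + 1) := by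
  obtain ⟨n, hn⟩ : ∃ n, l.length = n + 1 :=
    ⟨l.length - 1, by have := List.length_pos_iff.2 hl; omega⟩
  have h1 := (h x' hx' n).2
  have k1 := hK n
  have k2 := hK (n + 1)
  rw [hn]
  refine sq_to_abs (b := 2 * K n) hr hν (by positivity) (by unfold Kc; simp; linarith) ?_
  rw [show n + 1 + 1 = n + 2 by ring, ← pow_aux]
  have h2 : dl l (fun y => v y i) x' ^ 2 ≤ SV (n + 1) v x' := by
    refine (SS_foldl l (fun y => v y i) x').trans ?_
    rw [hn]
    exact Finset.single_le_sum (f := fun i => SS (n + 1) (fun y => v y i) x')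
      (fun q _ => SS_nonneg _ _ _) (Finset.mem_univ i)
  have h3 : r⁻¹ * A2 x (5 * r) v ≤ ν ^ 2 := by
    calc r⁻¹ * A2 x (5 * r) v ≤ r⁻¹ * (ν ^ 2 * r) := by gcongr
      _ = ν ^ 2 := by field_simp
  calc r ^ (2 * n + 4) * dl l (fun y => v y i) x' ^ 2
      ≤ r ^ (2 * n + 4) * SV (n + 1) v x' := by gcongr
    _ ≤ K n * (ν ^ 2 + r⁻¹ * A2 x (5 * r) v) := h1
    _ ≤ K n * (ν ^ 2 + ν ^ 2) := by gcongr
    _ = 2 * K n * ν ^ 2 := by ring

theorem meas_ind {f : V → ℝ} {S : Set V} (hS : MeasurableSet S)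
    (hf : ContinuousOn f S) : Measurable (S.indicator fun z => ENNReal.ofReal (f z)) := by
  refine measurable_of_restrict_of_restrict_compl hS ?_ ?_
  · have h1 : S.domRestrict (S.indicator fun z => ENNReal.ofReal (f z))
        = fun z : S => ENNReal.ofReal (S.domRestrict f z) := by
      funext z
      simp [Set.domRestrict_apply]
    rw [h1]
    exact ENNReal.measurable_ofReal.comp (continuousOn_iff_continuous_domRestrict.1 hf).measurable
  · have h1 : Sᶜ.domRestrict (S.indicator fun z => ENNReal.ofReal (f z)) = fun _ => 0 := by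
      funext z
      have hz : (z : V) ∉ S := z.2
      simp [Set.domRestrict_apply, hz]
    rw [h1]
    exact measurable_const

/-- The second exceptional set. -/
lemma second {Ω : Set V} (hΩ : IsOpen Ω) {v : V → V} (hv : ContinuousOn v Ω)
    (hvi : IntegrableOn (nsq v) Ω) {M ν r : ℝ} (hM : ∫ x in Ω, nsq v x ≤ M) (hν : 0 < ν)
    (hr : 0 < r) : ∃ B' : Set V, MeasurableSet B' ∧
      volume B' ≤ ENNReal.ofReal (1000 * M * (r / ν) ^ 2) ∧
      ∀ x, x ∉ B' → ball x (5 * r) ⊆ Ω → A2 x (5 * r) v ≤ ν ^ 2 * r := by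
  have hns : ContinuousOn (nsq v) Ω := by
    unfold nsq
    exact continuousOn_finsetSum _ fun i _ => ((continuous_apply i).comp_continuousOn hv).pow 2
  obtain ⟨g, hg⟩ : ∃ g : V → ℝ≥0∞, g = Ω.indicator fun x => ENNReal.ofReal (nsq v x) := ⟨_, rfl⟩
  have hgm : Measurable g := by
    rw [hg]
    exact meas_ind hΩ.measurableSet hns
  have hgI : ∫⁻ x, g x ≤ ENNReal.ofReal M := by
    rw [hg, lintegral_indicator hΩ.measurableSet, ← ofReal_integral_eq_lintegral_ofReal hvi
      (Eventually.of_forall fun x => nsq_nonneg' v x)]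
    exact ENNReal.ofReal_le_ofReal hM
  obtain ⟨m1, m2⟩ := loc_mass hgm (show 0 < 5 * r by positivity)
  have hνr : 0 < ν ^ 2 * r := by positivity
  refine ⟨{x | ENNReal.ofReal (ν ^ 2 * r) ≤ ∫⁻ y in ball x (5 * r), g y},
    measurableSet_le measurable_const m1, ?_, ?_⟩
  · have h1 := meas_ge_le_lintegral_div m1.aemeasurable (ε := ENNReal.ofReal (ν ^ 2 * r))
      (μ := (volume : Measure V)) (by simpa using hνr) ENNReal.ofReal_ne_top
    refine h1.trans ?_
    rw [ENNReal.div_le_iff (by simpa using hνr) ENNReal.ofReal_ne_top, m2]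
    refine (mul_le_mul_right hgI _).trans ?_
    rcases le_or_gt 0 M with hM0 | hM0
    · rw [← ENNReal.ofReal_mul (by positivity), ← ENNReal.ofReal_mul (by positivity)]
      apply ENNReal.ofReal_le_ofReal
      apply le_of_eq
      field_simp
      ring
    · rw [ENNReal.ofReal_of_nonpos hM0.le, mul_zero]
      exact zero_le
  · intro x hx hb
    rw [mem_setOf_eq, not_le] at hx
    have h1 : ∫⁻ y in ball x (5 * r), g y = ∫⁻ y in ball x (5 * r), ENNReal.ofReal (nsq v y) := by
      apply setLIntegral_congr_fun measurableSet_ball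
      intro y hy
      rw [hg]
      exact indicator_of_mem (hb hy) _
    rw [h1, ← ofReal_integral_eq_lintegral_ofReal (hvi.mono_set hb)
      (Eventually.of_forall fun x => nsq_nonneg' v x)] at hx
    exact ((ENNReal.ofReal_lt_ofReal_iff hνr).1 hx).le

end Pool.Agent.TH305.DR
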