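import Pool.Agent.W221.NS.Asm3

/-!
Derivative bounds (helper305): sums of squares of all partial derivatives of a given order.
-/

set_option autoImplicit false

open MeasureTheory Set Metric Filter Topology
open scoped ContDiff

namespace Pool.Agent.TH305.DR

open H459R3.NS W221.NS
open Pool.Agent.W583.MD (sm_pd cs_pd pd_mul' Z Z.add Z.sub Z.smul Z.sum int_cs Z_pd)

/-- The sum of the squares of all partial derivatives of order `n`. -/
noncomputable def SS : ℕ → (V → ℝ) → V → ℝ
  | 0, f, x => f x ^ 2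
  | n + 1, f, x => ∑ i, SS n (pd i f) x

lemma SS_zero (f : V → ℝ) (x : V) : SS 0 f x = f x ^ 2 := rfl

lemma SS_succ (n : ℕ) (f : V → ℝ) (x : V) : SS (n + 1) f x = ∑ i, SS n (pd i f) x := rfl

lemma SS_nonneg (n : ℕ) : ∀ (f : V → ℝ) (x : V), 0 ≤ SS n f x := by
  induction n with
  | zero => intro f x; exact sq_nonneg _
  | succ n ih => intro f x; exact Finset.sum_nonneg fun i _ => ih _ _

lemma SS_cont (n : ℕ) : ∀ {f : V → ℝ}, ContDiff ℝ ∞ f → Continuous (SS n f) := by
  induction n with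
  | zero => intro f hf; exact hf.continuous.pow 2
  | succ n ih =>
    intro f hf
    exact continuous_finsetSum _ fun i _ => ih (sm_pd hf i)

lemma SS_one (f : V → ℝ) (x : V) : SS 1 f x = ∑ i, pd i f x ^ 2 := rfl

lemma SS_le_succ (n : ℕ) (f : V → ℝ) (x : V) (i : Fin 3) : SS n (pd i f) x ≤ SS (n + 1) f x :=
  Finset.single_le_sum (f := fun i => SS n (pd i f) x) (fun i _ => SS_nonneg n _ x)
    (Finset.mem_univ i)

lemma pd_add' {f g : V → ℝ} (hf : ContDiff ℝ ∞ f) (hg : ContDiff ℝ ∞ g) (j : Fin 3) :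
    pd j (fun y => f y + g y) = fun x => pd j f x + pd j g x := by
  funext x
  unfold pd
  have h : HasFDerivAt (fun y => f y + g y) _ x :=
    ((hf.differentiable (by norm_cast)) x).hasFDerivAt.add
      ((hg.differentiable (by norm_cast)) x).hasFDerivAt
  rw [h.fderiv]
  rfl

lemma pd_sub' {f g : V → ℝ} (hf : ContDiff ℝ ∞ f) (hg : ContDiff ℝ ∞ g) (j : Fin 3) :
    pd j (fun y => f y - g y) = fun x => pd j f x - pd j g x := by
  funext x
  exact W352.ME.pd_sub' hf hg j x

lemma pd_neg' (f : V → ℝ) (j : Fin 3) :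
    pd j (fun y => -f y) = fun x => -pd j f x := by
  funext x
  unfold pd
  rw [fderiv_fun_neg]
  rfl

lemma pd_sum' {ι : Type*} (s : Finset ι) {f : ι → V → ℝ} (hf : ∀ i, ContDiff ℝ ∞ (f i))
    (j : Fin 3) : pd j (fun y => ∑ i ∈ s, f i y) = fun x => ∑ i ∈ s, pd j (f i) x := by
  funext x
  unfold pd
  have h : HasFDerivAt (fun y => ∑ i ∈ s, f i y) _ x :=
    HasFDerivAt.fun_sum fun i _ => ((hf i).differentiable (by norm_cast) x).hasFDerivAt
  rw [h.fderiv]
  simp

lemma pd_const' (c : ℝ) (j : Fin 3) : pd j (fun _ : V => c) = fun _ => 0 := by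
  funext x
  unfold pd
  simp

lemma SS_neg (n : ℕ) : ∀ (f : V → ℝ) (x : V), SS n (fun y => -f y) x = SS n f x := by
  induction n with
  | zero => intro f x; simp [SS_zero]
  | succ n ih =>
    intro f x
    rw [SS_succ, SS_succ]
    refine Finset.sum_congr rfl fun i _ => ?_
    rw [pd_neg']
    exact ih _ _

lemma SS_add (n : ℕ) : ∀ {f g : V → ℝ}, ContDiff ℝ ∞ f → ContDiff ℝ ∞ g → ∀ x : V,
    SS n (fun y => f y + g y) x ≤ 2 * SS n f x + 2 * SS n g x := by
  induction n with
  | zero =>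
    intro f g _ _ x
    simp only [SS_zero]
    nlinarith [sq_nonneg (f x - g x)]
  | succ n ih =>
    intro f g hf hg x
    rw [SS_succ, SS_succ, SS_succ, Finset.mul_sum, Finset.mul_sum, ← Finset.sum_add_distrib]
    refine Finset.sum_le_sum fun i _ => ?_
    rw [pd_add' hf hg]
    exact ih (sm_pd hf i) (sm_pd hg i) x

lemma SS_sub (n : ℕ) {f g : V → ℝ} (hf : ContDiff ℝ ∞ f) (hg : ContDiff ℝ ∞ g) (x : V) :
    SS n (fun y => f y - g y) x ≤ 2 * SS n f x + 2 * SS n g x := by
  have h := SS_add n hf hg.neg x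
  have e : (fun y => f y - g y) = fun y => f y + -g y := by
    funext y
    ring
  rw [e]
  refine h.trans (le_of_eq ?_)
  show 2 * SS n f x + 2 * SS n (fun y => -g y) x = _
  rw [SS_neg]

lemma SS_sum3 (n : ℕ) {f : Fin 3 → V → ℝ} (hf : ∀ i, ContDiff ℝ ∞ (f i)) (x : V) :
    SS n (fun y => ∑ i, f i y) x ≤ 4 * ∑ i, SS n (f i) x := by
  have e : (fun y => ∑ i, f i y) = fun y => (f 0 y + f 1 y) + f 2 y := by
    funext y
    rw [Fin.sum_univ_three]
  rw [e]
  have h1 := SS_add n ((hf 0).add (hf 1)) (hf 2) x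
  have h2 := SS_add n (hf 0) (hf 1) x
  rw [Fin.sum_univ_three]
  have h3 := SS_nonneg n (f 2) x
  have h1' : SS n (fun y => f 0 y + f 1 y + f 2 y) x
      ≤ 2 * SS n (fun y => f 0 y + f 1 y) x + 2 * SS n (f 2) x := h1
  linarith

lemma SS_mul (n : ℕ) : ∀ {f g : V → ℝ}, ContDiff ℝ ∞ f → ContDiff ℝ ∞ g → ∀ x : V,
    SS n (fun y => f y * g y) x
      ≤ 4 ^ n * ∑ a ∈ Finset.range (n + 1), SS a f x * SS (n - a) g x := by
  induction n with
  | zero =>
    intro f g _ _ x
    simp [SS_zero, mul_pow]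
  | succ n ih =>
    intro f g hf hg x
    have e : ∀ i, pd i (fun y => f y * g y) = fun y => f y * pd i g y + pd i f y * g y := by
      intro i
      funext y
      exact pd_mul' hf hg i y
    have h1 : SS (n + 1) (fun y => f y * g y) x
        ≤ ∑ i, (2 * (4 ^ n * ∑ a ∈ Finset.range (n + 1), SS a f x * SS (n - a) (pd i g) x)
          + 2 * (4 ^ n * ∑ a ∈ Finset.range (n + 1), SS a (pd i f) x * SS (n - a) g x)) := by
      rw [SS_succ]
      refine Finset.sum_le_sum fun i _ => ?_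
      rw [e i]
      refine (SS_add n (hf.mul (sm_pd hg i)) ((sm_pd hf i).mul hg) x).trans ?_
      have a1 := ih hf (sm_pd hg i) x
      have a2 := ih (sm_pd hf i) hg x
      linarith
    have h2 : ∑ i, (2 * (4 ^ n * ∑ a ∈ Finset.range (n + 1), SS a f x * SS (n - a) (pd i g) x)
          + 2 * (4 ^ n * ∑ a ∈ Finset.range (n + 1), SS a (pd i f) x * SS (n - a) g x))
        = 2 * 4 ^ n * (∑ a ∈ Finset.range (n + 1), SS a f x * SS (n - a + 1) g x)
          + 2 * 4 ^ n * ∑ a ∈ Finset.range (n + 1), SS (a + 1) f x * SS (n - a) g x := by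
      rw [Finset.sum_add_distrib]
      congr 1
      · rw [← Finset.mul_sum, ← Finset.mul_sum, Finset.sum_comm]
        rw [mul_assoc]
        congr 2
        refine Finset.sum_congr rfl fun a _ => ?_
        rw [SS_succ, Finset.mul_sum]
      · rw [← Finset.mul_sum, ← Finset.mul_sum, Finset.sum_comm]
        rw [mul_assoc]
        congr 2
        refine Finset.sum_congr rfl fun a _ => ?_
        rw [SS_succ, Finset.sum_mul]
    have h3 : ∑ a ∈ Finset.range (n + 1), SS a f x * SS (n - a + 1) g x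
        ≤ ∑ a ∈ Finset.range (n + 1 + 1), SS a f x * SS (n + 1 - a) g x := by
      rw [Finset.sum_range_succ (fun a => SS a f x * SS (n + 1 - a) g x) (n + 1)]
      have h4 : ∑ a ∈ Finset.range (n + 1), SS a f x * SS (n - a + 1) g x
          = ∑ a ∈ Finset.range (n + 1), SS a f x * SS (n + 1 - a) g x := by
        refine Finset.sum_congr rfl fun a ha => ?_
        have : n - a + 1 = n + 1 - a := by
          have := Finset.mem_range.1 ha
          omega
        rw [this]
      rw [h4]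
      have := mul_nonneg (SS_nonneg (n + 1) f x) (SS_nonneg (n + 1 - (n + 1)) g x)
      linarith
    have h5 : ∑ a ∈ Finset.range (n + 1), SS (a + 1) f x * SS (n - a) g x
        ≤ ∑ a ∈ Finset.range (n + 1 + 1), SS a f x * SS (n + 1 - a) g x := by
      rw [Finset.sum_range_succ' (fun a => SS a f x * SS (n + 1 - a) g x) (n + 1)]
      have h4 : ∑ a ∈ Finset.range (n + 1), SS (a + 1) f x * SS (n - a) g x
          = ∑ a ∈ Finset.range (n + 1), SS (a + 1) f x * SS (n + 1 - (a + 1)) g x := by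
        refine Finset.sum_congr rfl fun a _ => ?_
        have : n - a = n + 1 - (a + 1) := by omega
        rw [this]
      rw [h4]
      have := mul_nonneg (SS_nonneg 0 f x) (SS_nonneg (n + 1 - 0) g x)
      linarith
    refine h1.trans ?_
    rw [h2]
    have h6 : (0 : ℝ) ≤ 2 * 4 ^ n := by positivity
    have h7 := mul_le_mul_of_nonneg_left h3 h6
    have h8 := mul_le_mul_of_nonneg_left h5 h6
    calc _ ≤ 2 * 4 ^ n * ∑ a ∈ Finset.range (n + 1 + 1), SS a f x * SS (n + 1 - a) g x
          + 2 * 4 ^ n * ∑ a ∈ Finset.range (n + 1 + 1), SS a f x * SS (n + 1 - a) g x :=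
          add_le_add h7 h8
      _ = _ := by rw [pow_succ]; ring

lemma pd_congr_nhds {f g : V → ℝ} {x : V} (h : f =ᶠ[𝓝 x] g) (i : Fin 3) :
    pd i f =ᶠ[𝓝 x] pd i g := by
  have h1 : fderiv ℝ f =ᶠ[𝓝 x] fderiv ℝ g := h.fderiv
  filter_upwards [h1] with y hy
  unfold pd
  rw [hy]

lemma SS_congr_nhds (n : ℕ) : ∀ {f g : V → ℝ} {x : V}, f =ᶠ[𝓝 x] g → SS n f x = SS n g x := by
  induction n with
  | zero =>
    intro f g x h
    rw [SS_zero, SS_zero, h.eq_of_nhds]
  | succ n ih =>
    intro f g x h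
    rw [SS_succ, SS_succ]
    exact Finset.sum_congr rfl fun i _ => ih (pd_congr_nhds h i)

lemma pd_congr_open {O : Set V} (hO : IsOpen O) {f g : V → ℝ} (h : ∀ x ∈ O, f x = g x) (i : Fin 3)
    {x : V} (hx : x ∈ O) : pd i f x = pd i g x := by
  have h1 : f =ᶠ[𝓝 x] g := by
    filter_upwards [hO.mem_nhds hx] with y hy
    exact h y hy
  exact (pd_congr_nhds h1 i).eq_of_nhds

lemma SS_congr_open (n : ℕ) {O : Set V} (hO : IsOpen O) {f g : V → ℝ} (h : ∀ x ∈ O, f x = g x)
    {x : V} (hx : x ∈ O) : SS n f x = SS n g x := by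
  apply SS_congr_nhds
  filter_upwards [hO.mem_nhds hx] with y hy
  exact h y hy

lemma SS_foldl (l : List (Fin 3)) : ∀ (f : V → ℝ) (x : V),
    (l.foldl (fun g i => pd i g) f) x ^ 2 ≤ SS l.length f x := by
  induction l with
  | nil => intro f x; exact le_rfl
  | cons i l ih =>
    intro f x
    rw [List.foldl_cons, List.length_cons]
    exact (ih (pd i f) x).trans (SS_le_succ _ _ _ _)

end Pool.Agent.TH305.DR
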