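import Pool.Agent.TH305.DR.En

/-!
Derivative bounds (helper305): cut-off functions, elliptic estimates on balls, pointwise bounds.
-/

set_option autoImplicit false

open MeasureTheory Set Metric Filter Topology
open scoped ContDiff

namespace Pool.Agent.TH305.DR

open H459R3.NS W221.NS
open Pool.Agent.W583.MD (sm_pd cs_pd pd_mul' Z Z.add Z.sub Z.smul Z.sum int_cs Z_pd hd_int hcs)
open Pool.Agent.W22.ME.TD (pd_comm)
open Pool.Agent.W639.MH (int_ball)

/-- A cut-off function between the balls of radius `ρ'` and `ρ`. -/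
structure Cut (ρ' ρ M : ℝ) (φ : V → ℝ) : Prop where
  sm : ContDiff ℝ ∞ φ
  cs : HasCompactSupport φ
  nn : ∀ x, 0 ≤ φ x
  le : ∀ x, φ x ≤ 1
  one : ∀ x ∈ ball (0 : V) ρ', φ x = 1
  out : ∀ x ∉ ball (0 : V) ρ, φ x = 0
  gout : ∀ x ∉ ball (0 : V) ρ, SS 1 φ x = 0
  grad : ∀ x, SS 1 φ x ≤ M

lemma ss_cs (n : ℕ) : ∀ {φ : V → ℝ}, HasCompactSupport φ → HasCompactSupport (SS n φ) := by
  induction n with
  | zero =>
    intro φ hs
    have := hs.comp_left (g := fun y : ℝ => y ^ 2) (by simp)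
    exact this
  | succ n ih =>
    intro φ hs
    have h : SS (n + 1) φ = fun x => SS n (pd 0 φ) x + SS n (pd 1 φ) x + SS n (pd 2 φ) x := by
      funext x
      rw [SS_succ, Fin.sum_univ_three]
    rw [h]
    exact ((ih (cs_pd hs 0)).add (ih (cs_pd hs 1))).add (ih (cs_pd hs 2))

lemma ss_bdd (n : ℕ) {φ : V → ℝ} (hφ : ContDiff ℝ ∞ φ) (hs : HasCompactSupport φ) :
    ∃ M : ℝ, 0 ≤ M ∧ ∀ x, SS n φ x ≤ M := by
  obtain ⟨B, hB⟩ := (ss_cs n hs).exists_bound_of_continuous (SS_cont n hφ)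
  exact ⟨B, (norm_nonneg _).trans (hB 0), fun x => (le_abs_self _).trans (hB x)⟩

lemma exists_cut {ρ' ρ : ℝ} (h0 : 0 < ρ') (h : ρ' < ρ) :
    ∃ (M : ℝ) (φ : V → ℝ), 0 ≤ M ∧ Cut ρ' ρ M φ := by
  set b : ContDiffBump (0 : V) := ⟨ρ', ρ, h0, h⟩ with hb
  have hsm : ContDiff ℝ ∞ (b : V → ℝ) := b.contDiff
  have hcs : HasCompactSupport (b : V → ℝ) := b.hasCompactSupport
  obtain ⟨M, hM0, hM⟩ := ss_bdd 1 hsm hcs
  have hout : ∀ x ∉ ball (0 : V) ρ, b x = 0 := by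
    intro x hx
    apply b.zero_of_le_dist
    rw [mem_ball, not_lt] at hx
    exact hx
  refine ⟨M, b, hM0, hsm, hcs, fun x => b.nonneg, fun x => b.le_one, ?_, hout, ?_, hM⟩
  · intro x hx
    exact b.one_of_mem_closedBall (ball_subset_closedBall hx)
  · intro x hx
    have h1 : IsLocalMin (b : V → ℝ) x := by
      refine Eventually.of_forall fun y => ?_
      rw [hout x hx]
      exact b.nonneg
    rw [SS_one]
    refine Finset.sum_eq_zero fun i _ => ?_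
    unfold pd
    rw [h1.fderiv_eq_zero]
    simp

/-- `∫ |∇ⁿ f|²` over the ball of radius `ρ`. -/
noncomputable def N (n : ℕ) (ρ : ℝ) (f : V → ℝ) : ℝ := ∫ x in ball (0 : V) ρ, SS n f x

lemma N_nonneg (n : ℕ) (ρ : ℝ) (f : V → ℝ) : 0 ≤ N n ρ f :=
  integral_nonneg fun x => SS_nonneg n f x

lemma N_int (n : ℕ) (ρ : ℝ) {f : V → ℝ} (hf : ContDiff ℝ ∞ f) :
    IntegrableOn (SS n f) (ball (0 : V) ρ) := int_ball (SS_cont n hf) 0 ρ

lemma N_mono (n : ℕ) {ρ' ρ : ℝ} (h : ρ' ≤ ρ) {f : V → ℝ} (hf : ContDiff ℝ ∞ f) :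
    N n ρ' f ≤ N n ρ f :=
  setIntegral_mono_set (N_int n ρ hf) (Eventually.of_forall fun x => SS_nonneg n f x)
    (ball_subset_ball h).eventuallyLE

lemma N_succ (n : ℕ) (ρ : ℝ) {f : V → ℝ} (hf : ContDiff ℝ ∞ f) :
    N (n + 1) ρ f = ∑ i, N n ρ (pd i f) := by
  unfold N
  rw [← integral_finsetSum _ fun i _ => N_int n ρ (sm_pd hf i)]
  rfl

lemma Cut.sq_le {ρ' ρ M : ℝ} {φ : V → ℝ} (h : Cut ρ' ρ M φ) (x : V) : φ x ^ 2 ≤ 1 := by
  have h1 := h.nn x
  have h2 := h.le x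
  nlinarith

lemma N_le_cut (n : ℕ) {ρ' ρ M : ℝ} {φ f : V → ℝ} (h : Cut ρ' ρ M φ) (hf : ContDiff ℝ ∞ f) :
    N n ρ' f ≤ ∫ x, SS n f x * φ x ^ 2 := by
  unfold N
  rw [← integral_indicator measurableSet_ball]
  apply integral_mono_of_nonneg
  · exact Eventually.of_forall fun x => indicator_nonneg (fun y _ => SS_nonneg n f y) x
  · exact int_ss n hf h.sm h.cs
  · refine Eventually.of_forall fun x => ?_
    show (ball (0 : V) ρ').indicator (SS n f) x ≤ SS n f x * φ x ^ 2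
    by_cases hx : x ∈ ball (0 : V) ρ'
    · rw [indicator_of_mem hx, h.one x hx]
      simp
    · rw [indicator_of_notMem hx]
      exact mul_nonneg (SS_nonneg n f x) (sq_nonneg _)

lemma cut_le_N' {ρ' ρ M : ℝ} {φ : V → ℝ} (h : Cut ρ' ρ M φ) {F : V → ℝ} (hF : Continuous F)
    (hF0 : ∀ x, 0 ≤ F x) : ∫ x, F x * φ x ^ 2 ≤ ∫ x in ball (0 : V) ρ, F x := by
  rw [← integral_indicator measurableSet_ball]
  apply integral_mono_of_nonneg
  · exact Eventually.of_forall fun x => mul_nonneg (hF0 x) (sq_nonneg _)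
  · exact (integrable_indicator_iff measurableSet_ball).2 (int_ball hF 0 ρ)
  · refine Eventually.of_forall fun x => ?_
    show F x * φ x ^ 2 ≤ (ball (0 : V) ρ).indicator F x
    by_cases hx : x ∈ ball (0 : V) ρ
    · rw [indicator_of_mem hx]
      have := mul_le_mul_of_nonneg_left (h.sq_le x) (hF0 x)
      linarith
    · rw [indicator_of_notMem hx, h.out x hx]
      simp

lemma cut_le_N (n : ℕ) {ρ' ρ M : ℝ} {φ f : V → ℝ} (h : Cut ρ' ρ M φ) (hf : ContDiff ℝ ∞ f) :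
    ∫ x, SS n f x * φ x ^ 2 ≤ N n ρ f := cut_le_N' h (SS_cont n hf) (SS_nonneg n f)

lemma cut1_le_N (n : ℕ) {ρ' ρ M : ℝ} {φ f : V → ℝ} (h : Cut ρ' ρ M φ) (hf : ContDiff ℝ ∞ f) :
    ∫ x, SS n f x * SS 1 φ x ≤ M * N n ρ f := by
  unfold N
  rw [← integral_const_mul, ← integral_indicator measurableSet_ball]
  apply integral_mono_of_nonneg
  · exact Eventually.of_forall fun x => mul_nonneg (SS_nonneg n f x) (SS_nonneg 1 φ x)
  · exact (integrable_indicator_iff measurableSet_ball).2 ((N_int n ρ hf).const_mul M)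
  · refine Eventually.of_forall fun x => ?_
    show SS n f x * SS 1 φ x ≤ (ball (0 : V) ρ).indicator (fun y => M * SS n f y) x
    by_cases hx : x ∈ ball (0 : V) ρ
    · rw [indicator_of_mem hx]
      have := mul_le_mul_of_nonneg_left (h.grad x) (SS_nonneg n f x)
      linarith
    · rw [indicator_of_notMem hx, h.gout x hx]
      simp

/-- The elliptic estimate on balls. -/
lemma el_ball {ρ' ρ : ℝ} (h0 : 0 < ρ') (h : ρ' < ρ) : ∃ C : ℝ, 0 < C ∧ ∀ (n : ℕ) (f : V → ℝ)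
    (g : Fin 3 → V → ℝ), ContDiff ℝ ∞ f → (∀ m, ContDiff ℝ ∞ (g m)) →
    (∀ x ∈ ball (0 : V) ρ, lap f x = ∑ m, pd m (g m) x) →
    N (n + 1) ρ' f ≤ C * (N n ρ f + ∑ m, N n ρ (g m)) := by
  obtain ⟨M, φ, hM, hφ⟩ := exists_cut h0 h
  refine ⟨10 * M + 4, by linarith, fun n f g hf hg heq => ?_⟩
  have h1 := elN n hf hφ.sm hφ.cs hg heq hφ.out
  have h2 := N_le_cut (n + 1) hφ hf
  have h3 := cut1_le_N n hφ hf
  have h4 : ∑ m, ∫ x, SS n (g m) x * φ x ^ 2 ≤ ∑ m, N n ρ (g m) :=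
    Finset.sum_le_sum fun m _ => cut_le_N n hφ (hg m)
  have h5 := N_nonneg n ρ f
  have h6 : 0 ≤ ∑ m, N n ρ (g m) := Finset.sum_nonneg fun m _ => N_nonneg n ρ _
  nlinarith [mul_nonneg hM h6]

/-- Interior estimates for harmonic functions. -/
lemma harm_N (n : ℕ) : ∀ {ρ' ρ : ℝ}, 0 < ρ' → ρ' < ρ → ∃ C : ℝ, 0 < C ∧ ∀ f : V → ℝ,
    ContDiff ℝ ∞ f → (∀ x ∈ ball (0 : V) ρ, lap f x = 0) → N n ρ' f ≤ C * N 0 ρ f := by
  induction n with
  | zero =>
    intro ρ' ρ h0 h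
    exact ⟨1, one_pos, fun f hf _ => by
      rw [one_mul]
      exact N_mono 0 h.le hf⟩
  | succ n ih =>
    intro ρ' ρ h0 h
    have a1 : ρ' < (ρ' + ρ) / 2 := by linarith
    have a2 : (ρ' + ρ) / 2 < ρ := by linarith
    obtain ⟨C1, hC1, H1⟩ := el_ball h0 a1
    obtain ⟨C2, hC2, H2⟩ := ih (h0.trans a1) a2
    refine ⟨C1 * C2, by positivity, fun f hf hl => ?_⟩
    have h3 := H1 n f (fun _ _ => 0) hf (fun _ => contDiff_const) (fun x hx => by
      rw [hl x (ball_subset_ball a2.le hx)]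
      simp [pd_const'])
    have h4 : N n ((ρ' + ρ) / 2) (fun _ => 0) = 0 := by
      unfold N
      have : ∀ n, SS n (fun _ : V => (0 : ℝ)) = fun _ => 0 := by
        intro n
        induction n with
        | zero => funext x; simp [SS_zero]
        | succ n ih => funext x; rw [SS_succ]; simp [pd_const', ih]
      rw [this]
      simp
    simp only [h4, Finset.sum_const_zero, add_zero] at h3
    have h5 := H2 f hf hl
    calc N (n + 1) ρ' f ≤ C1 * N n ((ρ' + ρ) / 2) f := h3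
      _ ≤ C1 * (C2 * N 0 ρ f) := mul_le_mul_of_nonneg_left h5 hC1.le
      _ = _ := by ring

/-- Cauchy-Schwarz. -/
lemma CS {α : Type*} [MeasurableSpace α] {μ : Measure α} {F G : α → ℝ}
    (hF : Integrable (fun x => F x ^ 2) μ) (hG : Integrable (fun x => G x ^ 2) μ)
    (hFG : Integrable (fun x => F x * G x) μ) :
    (∫ x, F x * G x ∂μ) ^ 2 ≤ (∫ x, F x ^ 2 ∂μ) * ∫ x, G x ^ 2 ∂μ := by
  have key : ∀ s : ℝ, 0 ≤ (∫ x, G x ^ 2 ∂μ) * (s * s) + (-2 * ∫ x, F x * G x ∂μ) * s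
      + ∫ x, F x ^ 2 ∂μ := by
    intro s
    have h1 : 0 ≤ ∫ x, (F x - s * G x) ^ 2 ∂μ := integral_nonneg fun x => sq_nonneg _
    have h2 : ∫ x, (F x - s * G x) ^ 2 ∂μ
        = (∫ x, F x ^ 2 ∂μ) - 2 * s * (∫ x, F x * G x ∂μ) + s ^ 2 * ∫ x, G x ^ 2 ∂μ := by
      have i1 : Integrable (fun x => 2 * s * (F x * G x)) μ := hFG.const_mul _
      have i2 : Integrable (fun x => s ^ 2 * G x ^ 2) μ := hG.const_mul _
      have i3 : Integrable (fun x => F x ^ 2 - 2 * s * (F x * G x)) μ := hF.sub i1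
      have e1 : ∫ x, (F x - s * G x) ^ 2 ∂μ
          = ∫ x, (F x ^ 2 - 2 * s * (F x * G x) + s ^ 2 * G x ^ 2) ∂μ := by
        congr 1
        funext x
        ring
      rw [e1, integral_add i3 i2, integral_sub hF i1, integral_const_mul, integral_const_mul]
    rw [h2] at h1
    nlinarith
  have h3 := discrim_le_zero key
  unfold discrim at h3
  nlinarith

lemma integral_le_sq {F : V → ℝ} (hF : Continuous F) {ρ : ℝ} (hρ : ρ ≤ 1) :
    (∫ x in ball (0 : V) ρ, |F x|) ^ 2 ≤ 8 * ∫ x in ball (0 : V) ρ, F x ^ 2 := by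
  have hfin : volume (ball (0 : V) ρ) < ⊤ := measure_ball_lt_top
  have j1 : IntegrableOn (fun _ : V => (1 : ℝ) ^ 2) (ball (0 : V) ρ) :=
    integrableOn_const hfin.ne
  have j2 : IntegrableOn (fun x : V => |F x| ^ 2) (ball (0 : V) ρ) :=
    int_ball (hF.abs.pow 2) 0 ρ
  have j3 : IntegrableOn (fun x : V => (1 : ℝ) * |F x|) (ball (0 : V) ρ) :=
    int_ball (continuous_const.mul hF.abs) 0 ρ
  have h1 := CS (μ := volume.restrict (ball (0 : V) ρ)) (F := fun _ => (1 : ℝ))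
    (G := fun x => |F x|) j1 j2 j3
  have h2 : ∫ x in ball (0 : V) ρ, (1 : ℝ) ^ 2 ≤ 8 := by
    simp only [one_pow, setIntegral_const, smul_eq_mul, mul_one]
    have h3 : volume (ball (0 : V) ρ) ≤ volume (ball (0 : V) 1) :=
      measure_mono (ball_subset_ball hρ)
    have h4 : volume (ball (0 : V) 1) = ENNReal.ofReal 8 := by
      rw [Real.volume_pi_ball (0 : V) one_pos]
      norm_num
    rw [h4] at h3
    have h5 := ENNReal.toReal_mono (by simp) h3
    rw [ENNReal.toReal_ofReal (by norm_num)] at h5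
    exact h5
  have h6 : 0 ≤ ∫ x in ball (0 : V) ρ, F x ^ 2 := integral_nonneg fun x => sq_nonneg _
  simp only [one_mul, sq_abs] at h1
  nlinarith

lemma SS_pd3 (f : V → ℝ) (x : V) : (pd 2 (pd 1 (pd 0 f)) x) ^ 2 ≤ SS 3 f x :=
  SS_foldl [0, 1, 2] f x

/-- The pointwise bound, order zero. -/
lemma point0 {ρ' ρ : ℝ} (h0 : 0 < ρ') (h : ρ' < ρ) (hρ : ρ ≤ 1) : ∃ C : ℝ, 0 < C ∧ ∀ f : V → ℝ,
    ContDiff ℝ ∞ f → ∀ x ∈ ball (0 : V) ρ',
      SS 0 f x ≤ C * (N 0 ρ f + N 1 ρ f + N 2 ρ f + N 3 ρ f) := by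
  obtain ⟨M, φ, hM, hφ⟩ := exists_cut h0 h
  obtain ⟨B0, hB00, hB0⟩ := ss_bdd 0 hφ.sm hφ.cs
  obtain ⟨B1, hB10, hB1⟩ := ss_bdd 1 hφ.sm hφ.cs
  obtain ⟨B2, hB20, hB2⟩ := ss_bdd 2 hφ.sm hφ.cs
  obtain ⟨B3, hB30, hB3⟩ := ss_bdd 3 hφ.sm hφ.cs
  set B : ℝ := B0 + B1 + B2 + B3 with hB
  refine ⟨8 * (64 * (B + 1)), by positivity, fun f hf x hx => ?_⟩
  set g : V → ℝ := fun y => φ y * f y with hg
  have hgs : ContDiff ℝ ∞ g := hφ.sm.mul hf
  have hgc : HasCompactSupport g := hφ.cs.mul_right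
  set h3 : V → ℝ := pd 2 (pd 1 (pd 0 g)) with hh3
  have hh3s : ContDiff ℝ ∞ h3 := sm_pd (sm_pd (sm_pd hgs 0) 1) 2
  have hh3c : HasCompactSupport h3 := cs_pd (cs_pd (cs_pd hgc 0) 1) 2
  -- vanishing outside the closed ball
  have hv : ∀ y ∉ closedBall (0 : V) ρ, h3 y = 0 := by
    intro y hy
    have h1 : g =ᶠ[𝓝 y] fun _ => 0 := by
      filter_upwards [isClosed_closedBall.isOpen_compl.mem_nhds hy] with z hz
      show φ z * f z = 0
      rw [hφ.out z fun h' => hz (ball_subset_closedBall h'), zero_mul]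
    have h2 := pd_congr_nhds (pd_congr_nhds (pd_congr_nhds h1 0) 1) 2
    have h4 := h2.eq_of_nhds
    rw [hh3, h4]
    simp [pd_const']
  have hint : ∫ y, |h3 y| = ∫ y in ball (0 : V) ρ, |h3 y| := by
    have e1 : ∫ y in closedBall (0 : V) ρ, |h3 y| = ∫ y, |h3 y| :=
      setIntegral_eq_integral_of_forall_compl_eq_zero fun y hy => by rw [hv y hy, abs_zero]
    rw [← e1]
    apply setIntegral_congr_set
    have := Measure.addHaar_closedBall_eq_addHaar_ball volume (0 : V) ρ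
    have hsub : ball (0 : V) ρ ⊆ closedBall 0 ρ := ball_subset_closedBall
    exact (ae_eq_of_subset_of_measure_ge hsub this.le measurableSet_ball.nullMeasurableSet
      (measure_closedBall_lt_top.ne)).symm
  have h4 : |g x| ≤ ∫ y, |h3 y| := by
    have h5 := Pool.Agent.W639.MH.three hgs hgc x
    have h6 : ∫⁻ y : V, ‖h3 y‖ₑ = ENNReal.ofReal (∫ y, |h3 y|) := by
      rw [ofReal_integral_eq_lintegral_ofReal (int_cs hh3s.continuous.abs
        (hh3c.comp_left (g := fun y : ℝ => |y|) (by simp)))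
        (Eventually.of_forall fun y => abs_nonneg _)]
      refine lintegral_congr fun y => ?_
      rw [← ofReal_norm, Real.norm_eq_abs]
    rw [← hh3, h6, ← ofReal_norm, Real.norm_eq_abs] at h5
    exact (ENNReal.ofReal_le_ofReal_iff (integral_nonneg fun y => abs_nonneg _)).1 h5
  have h7 := integral_le_sq hh3s.continuous hρ
  have h8 : ∫ y in ball (0 : V) ρ, h3 y ^ 2
      ≤ 64 * (B + 1) * (N 0 ρ f + N 1 ρ f + N 2 ρ f + N 3 ρ f) := by
    have e1 : N 0 ρ f + N 1 ρ f + N 2 ρ f + N 3 ρ f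
        = ∫ y in ball (0 : V) ρ, (SS 0 f y + SS 1 f y + SS 2 f y + SS 3 f y) := by
      unfold N
      have k1 : IntegrableOn (fun y => SS 0 f y + SS 1 f y) (ball (0 : V) ρ) :=
        (N_int 0 ρ hf).add (N_int 1 ρ hf)
      have k2 : IntegrableOn (fun y => SS 0 f y + SS 1 f y + SS 2 f y) (ball (0 : V) ρ) :=
        k1.add (N_int 2 ρ hf)
      rw [integral_add k2 (N_int 3 ρ hf), integral_add k1 (N_int 2 ρ hf),
        integral_add (N_int 0 ρ hf) (N_int 1 ρ hf)]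
    rw [e1, ← integral_const_mul]
    apply setIntegral_mono_on
    · exact int_ball (hh3s.continuous.pow 2) 0 ρ
    · exact ((((N_int 0 ρ hf).add (N_int 1 ρ hf)).add (N_int 2 ρ hf)).add
        (N_int 3 ρ hf)).const_mul _
    · exact measurableSet_ball
    · intro y _
      have a1 := SS_pd3 g y
      have a2 := SS_mul 3 hφ.sm hf y
      simp only [Finset.sum_range_succ, Finset.sum_range_zero, zero_add] at a2
      norm_num at a2
      have b0 := mul_le_mul_of_nonneg_right (hB0 y) (SS_nonneg 3 f y)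
      have b1 := mul_le_mul_of_nonneg_right (hB1 y) (SS_nonneg 2 f y)
      have b2 := mul_le_mul_of_nonneg_right (hB2 y) (SS_nonneg 1 f y)
      have b3 := mul_le_mul_of_nonneg_right (hB3 y) (SS_nonneg 0 f y)
      have c0 := SS_nonneg 0 f y
      have c1 := SS_nonneg 1 f y
      have c2 := SS_nonneg 2 f y
      have c3 := SS_nonneg 3 f y
      have a3 : h3 y ^ 2 ≤ 64 * (B0 * SS 3 f y + B1 * SS 2 f y + B2 * SS 1 f y
          + B3 * SS 0 f y) := by
        refine a1.trans (a2.trans ?_)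
        linarith
      refine a3.trans ?_
      have d0 := mul_nonneg hB00 c0
      have d1 := mul_nonneg hB00 c1
      have d2 := mul_nonneg hB00 c2
      have e0 := mul_nonneg hB10 c0
      have e1 := mul_nonneg hB10 c1
      have e3 := mul_nonneg hB10 c3
      have f0 := mul_nonneg hB20 c0
      have f2 := mul_nonneg hB20 c2
      have f3 := mul_nonneg hB20 c3
      have g1 := mul_nonneg hB30 c1
      have g2 := mul_nonneg hB30 c2
      have g3 := mul_nonneg hB30 c3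
      rw [hB]
      nlinarith
  have h9 : SS 0 f x = |g x| ^ 2 := by
    rw [sq_abs, SS_zero]
    show f x ^ 2 = (φ x * f x) ^ 2
    rw [hφ.one x hx, one_mul]
  rw [h9]
  have h10 : |g x| ^ 2 ≤ (∫ y in ball (0 : V) ρ, |h3 y|) ^ 2 := by
    rw [← hint]
    exact pow_le_pow_left₀ (abs_nonneg _) h4 2
  linarith

/-- The pointwise bound. -/
lemma pointN {ρ' ρ : ℝ} (h0 : 0 < ρ') (h : ρ' < ρ) (hρ : ρ ≤ 1) : ∃ C : ℝ, 0 < C ∧ ∀ (n : ℕ)
    (f : V → ℝ), ContDiff ℝ ∞ f → ∀ x ∈ ball (0 : V) ρ',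
      SS n f x ≤ C * (N n ρ f + N (n + 1) ρ f + N (n + 2) ρ f + N (n + 3) ρ f) := by
  obtain ⟨C, hC, H⟩ := point0 h0 h hρ
  refine ⟨C, hC, fun n => ?_⟩
  induction n with
  | zero => exact H
  | succ n ih =>
    intro f hf x hx
    rw [SS_succ, N_succ n ρ hf, N_succ (n + 1) ρ hf, N_succ (n + 2) ρ hf, N_succ (n + 3) ρ hf,
      ← Finset.sum_add_distrib, ← Finset.sum_add_distrib, ← Finset.sum_add_distrib,
      Finset.mul_sum]
    exact Finset.sum_le_sum fun i _ => ih (pd i f) (sm_pd hf i) x hx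

/-- Pointwise interior estimates for harmonic functions. -/
lemma harm_pt (n : ℕ) {ρ' ρ : ℝ} (h0 : 0 < ρ') (h : ρ' < ρ) (hρ : ρ ≤ 1) : ∃ C : ℝ, 0 < C ∧
    ∀ f : V → ℝ, ContDiff ℝ ∞ f → (∀ x ∈ ball (0 : V) ρ, lap f x = 0) →
      ∀ x ∈ ball (0 : V) ρ', SS n f x ≤ C * N 0 ρ f := by
  have a1 : ρ' < (ρ' + ρ) / 2 := by linarith
  have a2 : (ρ' + ρ) / 2 < ρ := by linarith
  obtain ⟨C, hC, H⟩ := pointN h0 a1 (a2.le.trans hρ)
  obtain ⟨D0, hD0, H0⟩ := harm_N n (h0.trans a1) a2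
  obtain ⟨D1, hD1, H1⟩ := harm_N (n + 1) (h0.trans a1) a2
  obtain ⟨D2, hD2, H2⟩ := harm_N (n + 2) (h0.trans a1) a2
  obtain ⟨D3, hD3, H3⟩ := harm_N (n + 3) (h0.trans a1) a2
  refine ⟨C * (D0 + D1 + D2 + D3), by positivity, fun f hf hl x hx => ?_⟩
  refine (H n f hf x hx).trans ?_
  rw [mul_assoc]
  apply mul_le_mul_of_nonneg_left _ hC.le
  have := H0 f hf hl
  have := H1 f hf hl
  have := H2 f hf hl
  have := H3 f hf hl
  linarith

end Pool.Agent.TH305.DR
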