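import Mathlib

/-!
Derivative bounds (helper305): Gronwall's inequality with dissipation.
-/

set_option autoImplicit false

open MeasureTheory Set Metric Filter Topology intervalIntegral

namespace Pool.Agent.TH305.DR

lemma ii_of {A : ℝ → ℝ} (hA : ContinuousOn A (Ioo (-1) 0)) {a b : ℝ} (ha : a ∈ Ioo (-1 : ℝ) 0)
    (hb : b ∈ Ioo (-1 : ℝ) 0) : IntervalIntegrable A volume a b := by
  apply (hA.mono _).intervalIntegrable
  intro x hx
  rw [mem_uIcc] at hx
  rcases hx with hx | hx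
  · exact ⟨ha.1.trans_le hx.1, hx.2.trans_lt hb.2⟩
  · exact ⟨hb.1.trans_le hx.1, hx.2.trans_lt ha.2⟩

lemma prim {A : ℝ → ℝ} (hA : ContinuousOn A (Ioo (-1) 0)) {a t : ℝ} (ha : a ∈ Ioo (-1 : ℝ) 0)
    (ht : t ∈ Ioo (-1 : ℝ) 0) : HasDerivAt (fun s => ∫ τ in a..s, A τ) (A t) t :=
  integral_hasDerivAt_right (ii_of hA ha ht)
    (hA.stronglyMeasurableAtFilter isOpen_Ioo t ht) (hA.continuousAt (Ioo_mem_nhds ht.1 ht.2))

/-- A function with nonpositive derivative. -/
lemma antit {F F' : ℝ → ℝ} {a t : ℝ} (ha : a ∈ Ioo (-1 : ℝ) 0) (ht : t < 0) (hat : a ≤ t)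
    (hF : ContinuousOn F (Ioo (-1) 0))
    (hd : ∀ s ∈ Ioo a 0, HasDerivAt F (F' s) s) (hn : ∀ s ∈ Ioo a 0, F' s ≤ 0) : F t ≤ F a := by
  have h : AntitoneOn F (Icc a t) := by
    apply antitoneOn_of_deriv_nonpos (convex_Icc a t)
    · exact hF.mono fun x hx => ⟨ha.1.trans_le hx.1, hx.2.trans_lt ht⟩
    · intro s hs
      rw [interior_Icc] at hs
      exact (hd s ⟨hs.1, hs.2.trans ht⟩).differentiableAt.differentiableWithinAt
    · intro s hs
      rw [interior_Icc] at hs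
      rw [(hd s ⟨hs.1, hs.2.trans ht⟩).deriv]
      exact hn s ⟨hs.1, hs.2.trans ht⟩
  exact h ⟨le_rfl, hat⟩ ⟨hat, le_rfl⟩ hat

/-- Gronwall's inequality with dissipation. -/
lemma gronw {a a' KA K1 : ℝ} {Y Z A R : ℝ → ℝ} (ha : -1 < a) (haa : a < a') (ha' : a' < 0)
    (cY : ContinuousOn Y (Ioo (-1) 0)) (cZ : ContinuousOn Z (Ioo (-1) 0))
    (cA : ContinuousOn A (Ioo (-1) 0)) (cR : ContinuousOn R (Ioo (-1) 0))
    (nY : ∀ t ∈ Ioo (-1 : ℝ) 0, 0 ≤ Y t) (nZ : ∀ t ∈ Ioo (-1 : ℝ) 0, 0 ≤ Z t)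
    (nA : ∀ t ∈ Ioo (-1 : ℝ) 0, 0 ≤ A t) (nR : ∀ t ∈ Ioo (-1 : ℝ) 0, 0 ≤ R t)
    (hE : ∀ t ∈ Ioo a 0, ∃ E' : ℝ, HasDerivAt Y E' t ∧ E' ≤ -Z t + A t * Y t + R t)
    (hKA : ∀ b ∈ Ioo a 0, ∫ t in a..b, A t ≤ KA)
    (hK1 : ∀ b ∈ Ioo a 0, ∫ t in a..b, (Y t + R t) ≤ K1) (hK10 : 0 ≤ K1) (hKA0 : 0 ≤ KA) :
    (∀ t ∈ Ioo a' 0, Y t ≤ Real.exp KA * K1 / (a' - a)) ∧
      ∀ b ∈ Ioo a' 0, ∫ t in a'..b, Z t ≤ (K1 + KA * (Real.exp KA * K1)) / (a' - a) := by
  have ha1 : a ∈ Ioo (-1 : ℝ) 0 := ⟨ha, haa.trans ha'⟩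
  have hsub : ∀ s ∈ Ioo a 0, s ∈ Ioo (-1 : ℝ) 0 := fun s hs => ⟨ha.trans hs.1, hs.2⟩
  have hd0 : 0 < a' - a := by linarith
  have cYR : ContinuousOn (fun t => Y t + R t) (Ioo (-1) 0) := cY.add cR
  set P : ℝ → ℝ := fun t => ∫ τ in a..t, A τ with hP
  set Q : ℝ → ℝ := fun t => ∫ τ in a..t, (Y τ + R τ) with hQ
  have hP' : ∀ t ∈ Ioo (-1 : ℝ) 0, HasDerivAt P (A t) t := fun t ht => prim cA ha1 ht
  have hQ' : ∀ t ∈ Ioo (-1 : ℝ) 0, HasDerivAt Q (Y t + R t) t := fun t ht => prim cYR ha1 ht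
  have cP : ContinuousOn P (Ioo (-1) 0) := fun t ht => (hP' t ht).continuousAt.continuousWithinAt
  have cQ : ContinuousOn Q (Ioo (-1) 0) := fun t ht => (hQ' t ht).continuousAt.continuousWithinAt
  choose! E' hE1 hE2 using hE
  have hP0 : ∀ s ∈ Ioo a 0, 0 ≤ P s := fun s hs =>
    integral_nonneg hs.1.le fun τ hτ => nA τ ⟨ha.trans_le hτ.1, hτ.2.trans_lt hs.2⟩
  -- the first function
  have key1 : ∀ t ∈ Ioo a 0, (t - a) * Y t ≤ Real.exp KA * K1 := by
    intro t ht
    have h1 := antit (F := fun s => Real.exp (-P s) * ((s - a) * Y s) - Q s)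
      (F' := fun s => (Real.exp (-P s) * (-A s)) * ((s - a) * Y s)
        + Real.exp (-P s) * (1 * Y s + (s - a) * E' s) - (Y s + R s)) ha1 ht.2 ht.1.le
      (by
        have c1 : ContinuousOn (fun s : ℝ => s - a) (Ioo (-1) 0) := by fun_prop
        exact ((Real.continuous_exp.comp_continuousOn cP.neg).mul (c1.mul cY)).sub cQ)
      (by
        intro s hs
        have d1 := (hP' s (hsub s hs)).neg.exp
        have d2 : HasDerivAt (fun s => (s - a) * Y s) (1 * Y s + (s - a) * E' s) s :=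
          ((hasDerivAt_id s).sub_const a).mul (hE1 s hs)
        exact (d1.mul d2).sub (hQ' s (hsub s hs)))
      (by
        intro s hs
        have e0 : 0 < Real.exp (-P s) := Real.exp_pos _
        have e1 : Real.exp (-P s) ≤ 1 := Real.exp_le_one_iff.2 (by linarith [hP0 s hs])
        have e2 := hE2 s hs
        have e3 : 0 < s - a := by linarith [hs.1]
        have e4 : s - a ≤ 1 := by linarith [hs.2]
        have e5 := nY s (hsub s hs)
        have e6 := nZ s (hsub s hs)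
        have e7 := nR s (hsub s hs)
        have e8 : (s - a) * E' s ≤ (s - a) * (A s * Y s) + R s := by
          have f1 := mul_le_mul_of_nonneg_left e2 e3.le
          have f2 := mul_nonneg e3.le e6
          have f3 : (s - a) * R s ≤ 1 * R s := mul_le_mul_of_nonneg_right e4 e7
          nlinarith
        have e9 : Real.exp (-P s) * (Y s + R s) ≤ 1 * (Y s + R s) :=
          mul_le_mul_of_nonneg_right e1 (by linarith)
        have e10 := mul_le_mul_of_nonneg_left e8 e0.le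
        nlinarith)
    have h2 : Q a = 0 := by simp [hQ]
    simp only [sub_self, zero_mul, mul_zero, h2, sub_zero] at h1
    have h3 : Q t ≤ K1 := hK1 t ht
    have h4 : P t ≤ KA := hKA t ht
    have h5 : Real.exp (-P t) * ((t - a) * Y t) ≤ K1 := by linarith
    have h6 : (t - a) * Y t ≤ Real.exp (P t) * K1 := by
      have := mul_le_mul_of_nonneg_left h5 (Real.exp_pos (P t)).le
      rw [← mul_assoc, ← Real.exp_add] at this
      simpa using this
    exact h6.trans (mul_le_mul_of_nonneg_right (Real.exp_le_exp.2 h4) hK10)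
  refine ⟨?_, ?_⟩
  · intro t ht
    have h1 := key1 t ⟨haa.trans ht.1, ht.2⟩
    rw [le_div_iff₀ hd0]
    have h2 := nY t ⟨by linarith [ht.1], ht.2⟩
    nlinarith [ht.1]
  · intro b hb
    have hb1 : b ∈ Ioo (-1 : ℝ) 0 := ⟨by linarith [hb.1], hb.2⟩
    have ha'1 : a' ∈ Ioo (-1 : ℝ) 0 := ⟨by linarith, ha'⟩
    have hab : a < b := haa.trans hb.1
    have cs : ContinuousOn (fun s : ℝ => s - a) (Ioo (-1) 0) := by fun_prop
    have cZ' : ContinuousOn (fun t => (t - a) * Z t) (Ioo (-1) 0) := cs.mul cZ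
    have cA' : ContinuousOn (fun t => A t * ((t - a) * Y t)) (Ioo (-1) 0) := cA.mul (cs.mul cY)
    set S : ℝ → ℝ := fun t => ∫ τ in a..t, (τ - a) * Z τ with hS
    set U : ℝ → ℝ := fun t => ∫ τ in a..t, A τ * ((τ - a) * Y τ) with hU
    have hS' : ∀ t ∈ Ioo (-1 : ℝ) 0, HasDerivAt S ((t - a) * Z t) t := fun t ht =>
      prim cZ' ha1 ht
    have hU' : ∀ t ∈ Ioo (-1 : ℝ) 0, HasDerivAt U (A t * ((t - a) * Y t)) t := fun t ht =>
      prim cA' ha1 ht
    have cS : ContinuousOn S (Ioo (-1) 0) := fun t ht =>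
      (hS' t ht).continuousAt.continuousWithinAt
    have cU : ContinuousOn U (Ioo (-1) 0) := fun t ht =>
      (hU' t ht).continuousAt.continuousWithinAt
    have h1 := antit (F := fun s => (s - a) * Y s + S s - Q s - U s)
      (F' := fun s => (1 * Y s + (s - a) * E' s) + (s - a) * Z s - (Y s + R s)
        - A s * ((s - a) * Y s)) ha1 hb.2 hab.le
      (((cs.mul cY).add cS).sub cQ |>.sub cU)
      (by
        intro s hs
        have d2 : HasDerivAt (fun s => (s - a) * Y s) (1 * Y s + (s - a) * E' s) s :=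
          ((hasDerivAt_id s).sub_const a).mul (hE1 s hs)
        exact ((d2.add (hS' s (hsub s hs))).sub (hQ' s (hsub s hs))).sub (hU' s (hsub s hs)))
      (by
        intro s hs
        have e2 := hE2 s hs
        have e3 : 0 < s - a := by linarith [hs.1]
        have e4 : s - a ≤ 1 := by linarith [hs.2]
        have e7 := nR s (hsub s hs)
        have f1 := mul_le_mul_of_nonneg_left e2 e3.le
        have f3 : (s - a) * R s ≤ 1 * R s := mul_le_mul_of_nonneg_right e4 e7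
        nlinarith)
    have h2 : Q a = 0 := by simp [hQ]
    have h2' : S a = 0 := by simp [hS]
    have h2'' : U a = 0 := by simp [hU]
    simp only [sub_self, zero_mul, h2, h2', h2'', add_zero] at h1
    have h3 : Q b ≤ K1 := hK1 b ⟨hab, hb.2⟩
    have h4 : U b ≤ KA * (Real.exp KA * K1) := by
      have g1 : U b ≤ ∫ τ in a..b, A τ * (Real.exp KA * K1) := by
        apply integral_mono_on_of_le_Ioo hab.le (ii_of cA' ha1 hb1)
          ((ii_of cA ha1 hb1).mul_const _)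
        intro s hs
        have hs' : s ∈ Ioo a 0 := ⟨hs.1, hs.2.trans hb.2⟩
        exact mul_le_mul_of_nonneg_left (key1 s hs') (nA s (hsub s hs'))
      rw [intervalIntegral.integral_mul_const] at g1
      exact g1.trans (mul_le_mul_of_nonneg_right (hKA b ⟨hab, hb.2⟩)
        (mul_nonneg (Real.exp_pos _).le hK10))
    have h5 : 0 ≤ (b - a) * Y b := mul_nonneg (by linarith) (nY b hb1)
    have h6 : S b ≤ K1 + KA * (Real.exp KA * K1) := by linarith
    have h7 : (∫ t in a'..b, Z t) * (a' - a) ≤ S b := by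
      have g1 : S b = (∫ τ in a..a', (τ - a) * Z τ) + ∫ τ in a'..b, (τ - a) * Z τ :=
        (integral_add_adjacent_intervals (ii_of cZ' ha1 ha'1) (ii_of cZ' ha'1 hb1)).symm
      have g2 : 0 ≤ ∫ τ in a..a', (τ - a) * Z τ := by
        apply integral_nonneg haa.le
        intro s hs
        exact mul_nonneg (by linarith [hs.1]) (nZ s ⟨ha.trans_le hs.1, hs.2.trans_lt ha'⟩)
      have g3 : (∫ t in a'..b, Z t * (a' - a)) ≤ ∫ τ in a'..b, (τ - a) * Z τ := by
        apply integral_mono_on_of_le_Ioo hb.1.le ((ii_of cZ ha'1 hb1).mul_const _)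
          (ii_of cZ' ha'1 hb1)
        intro s hs
        have hz := nZ s ⟨ha'1.1.trans hs.1, hs.2.trans hb.2⟩
        nlinarith [hs.1]
      rw [intervalIntegral.integral_mul_const] at g3
      linarith
    rw [le_div_iff₀ hd0]
    linarith

end Pool.Agent.TH305.DR
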