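import Pool.Agent.TH305.DR.Quart
import Pool.Agent.TH305.DR.Gron

/-!
Derivative bounds (helper305): the local data at unit scale; bounds for the two parts of the
velocity.
-/

set_option autoImplicit false

open MeasureTheory Set Metric Filter Topology
open scoped ContDiff

namespace Pool.Agent.TH305.DR

open H459R3.NS W221.NS
open Pool.Agent.W583.MD (sm_pd cs_pd pd_mul' Z Z.add Z.sub Z.smul Z.sum int_cs Z_pd hd_int hcs)
open Pool.Agent.W639.MH (int_ball)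
open Pool.Agent.W505.ME.TSM (JS JS.slice JS.pd JS.dt JS.comm JS.sub JS.sum)

/-- The vorticity matrix `∂ᵢ vⱼ - ∂ⱼ vᵢ`. -/
noncomputable def Om (i j : Fin 3) (v : V → V) (x : V) : ℝ :=
  pd i (fun y => v y j) x - pd j (fun y => v y i) x

/-- `∑ₘ vₘ Ωₘⱼ`. -/
noncomputable def bb (v : V → V) (j : Fin 3) (x : V) : ℝ := ∑ m, v x m * Om m j v x

/-- Sum of squares of the derivatives of order `n` of the vorticity. -/
noncomputable def ST (n : ℕ) (v : V → V) (x : V) : ℝ :=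
  ∑ p : Fin 3 × Fin 3, SS n (Om p.1 p.2 v) x

/-- Sum of squares of the derivatives of order `n` of a vector field. -/
noncomputable def SV (n : ℕ) (v : V → V) (x : V) : ℝ := ∑ i, SS n (fun y => v y i) x

noncomputable def NT (n : ℕ) (ρ : ℝ) (v : V → V) : ℝ := ∑ p : Fin 3 × Fin 3, N n ρ (Om p.1 p.2 v)

noncomputable def NV (n : ℕ) (ρ : ℝ) (v : V → V) : ℝ := ∑ i, N n ρ (fun y => v y i)

/-- Local data at unit scale. -/
structure Dat (K : ℝ) (v W : ℝ → V → V) (G : ℝ → ℝ) : Prop where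
  sv : ∀ i, JS (fun t y => v t y i)
  sW : ∀ i, JS (fun t y => W t y i)
  eq : ∀ t ∈ Ioo (-1 / 16 : ℝ) 0, ∀ x ∈ ball (0 : V) (1 / 4), ∀ i j,
    deriv (fun s => Om i j (v s) x) t
      = lap (Om i j (v t)) x - pd i (bb (v t) j) x + pd j (bb (v t) i) x
  lapv : ∀ t ∈ Ioo (-1 / 16 : ℝ) 0, ∀ x ∈ ball (0 : V) (1 / 4), ∀ i,
    lap (fun y => v t y i) x = ∑ m, pd m (Om m i (v t)) x
  lapH : ∀ t ∈ Ioo (-1 / 16 : ℝ) 0, ∀ x ∈ ball (0 : V) (1 / 4), ∀ i,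
    lap (fun y => v t y i - W t y i) x = 0
  bW : ∀ t ∈ Ioo (-1 / 16 : ℝ) 0, ∀ x ∈ ball (0 : V) (1 / 4), ∀ i, |W t x i| ≤ K
  bH : ∀ t ∈ Ioo (-1 / 16 : ℝ) 0, ∀ x ∈ ball (0 : V) (1 / 4), ∀ i,
    |v t x i - W t x i| ≤ √(G t)
  Gc : ContinuousOn G (Ioo (-1) 0)
  Gn : ∀ t ∈ Ioo (-1 : ℝ) 0, 0 ≤ G t
  Gi : ∀ b ∈ Ioo (-1 / 16 : ℝ) 0, ∫ t in (-1 / 16 : ℝ)..b, G t ≤ K
  N0 : ∀ t ∈ Ioo (-1 / 16 : ℝ) 0, NT 0 (1 / 4) (v t) ≤ K * G t

lemma ST_nonneg (n : ℕ) (v : V → V) (x : V) : 0 ≤ ST n v x :=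
  Finset.sum_nonneg fun _ _ => SS_nonneg _ _ _

lemma SV_nonneg (n : ℕ) (v : V → V) (x : V) : 0 ≤ SV n v x :=
  Finset.sum_nonneg fun _ _ => SS_nonneg _ _ _

lemma NT_nonneg (n : ℕ) (ρ : ℝ) (v : V → V) : 0 ≤ NT n ρ v :=
  Finset.sum_nonneg fun _ _ => N_nonneg _ _ _

lemma NV_nonneg (n : ℕ) (ρ : ℝ) (v : V → V) : 0 ≤ NV n ρ v :=
  Finset.sum_nonneg fun _ _ => N_nonneg _ _ _

lemma js_ss (n : ℕ) : ∀ {w : ℝ → V → ℝ}, JS w → JS (fun t x => SS n (w t) x) := by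
  induction n with
  | zero =>
    intro w hw
    have h1 : ContDiffOn ℝ ∞ (fun z : ℝ × V => w z.1 z.2) (Ioo (-1) 0 ×ˢ univ) := hw
    exact h1.pow 2
  | succ n ih =>
    intro w hw
    have h := JS.sum (F := fun i t x => SS n (pd i (w t)) x) fun i => ih (hw.pd i)
    exact h

lemma js_om {v : ℝ → V → V} (hv : ∀ i, JS (fun t y => v t y i)) (i j : Fin 3) :
    JS (fun t => Om i j (v t)) := ((hv j).pd i).sub ((hv i).pd j)

lemma om_sm {v : V → V} (hv : ∀ i, ContDiff ℝ ∞ (fun y => v y i)) (i j : Fin 3) :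
    ContDiff ℝ ∞ (Om i j v) := (sm_pd (hv j) i).sub (sm_pd (hv i) j)

lemma bb_sm {v : V → V} (hv : ∀ i, ContDiff ℝ ∞ (fun y => v y i)) (j : Fin 3) :
    ContDiff ℝ ∞ (bb v j) := ContDiff.sum fun m _ => (hv m).mul (om_sm hv m j)

/-- continuity in time of integrals over balls -/
lemma ct_ball {F : ℝ → V → ℝ} (hF : JS F) (ρ : ℝ) :
    ContinuousOn (fun t => ∫ x in ball (0 : V) ρ, F t x) (Ioo (-1) 0) :=
  W221.NS.B.p_pcont (-1) 0 F 0 ρ (ContDiffOn.continuousOn hF)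

lemma ct_N (n : ℕ) (ρ : ℝ) {w : ℝ → V → ℝ} (hw : JS w) :
    ContinuousOn (fun t => N n ρ (w t)) (Ioo (-1) 0) := ct_ball (js_ss n hw) ρ

lemma ct_NT (n : ℕ) (ρ : ℝ) {v : ℝ → V → V} (hv : ∀ i, JS (fun t y => v t y i)) :
    ContinuousOn (fun t => NT n ρ (v t)) (Ioo (-1) 0) :=
  continuousOn_finsetSum _ fun p _ => ct_N n ρ (js_om hv p.1 p.2)

lemma NT_mono (n : ℕ) {ρ' ρ : ℝ} (h : ρ' ≤ ρ) {v : V → V}
    (hv : ∀ i, ContDiff ℝ ∞ (fun y => v y i)) : NT n ρ' v ≤ NT n ρ v :=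
  Finset.sum_le_sum fun p _ => N_mono n h (om_sm hv p.1 p.2)

lemma NV_mono (n : ℕ) {ρ' ρ : ℝ} (h : ρ' ≤ ρ) {v : V → V}
    (hv : ∀ i, ContDiff ℝ ∞ (fun y => v y i)) : NV n ρ' v ≤ NV n ρ v :=
  Finset.sum_le_sum fun i _ => N_mono n h (hv i)

lemma vol_ball_le {ρ : ℝ} (hρ : ρ ≤ 1) : (volume (ball (0 : V) ρ)).toReal ≤ 8 := by
  have h3 : volume (ball (0 : V) ρ) ≤ volume (ball (0 : V) 1) :=
    measure_mono (ball_subset_ball hρ)
  have h4 : volume (ball (0 : V) 1) = ENNReal.ofReal 8 := by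
    rw [Real.volume_pi_ball (0 : V) one_pos]
    norm_num
  rw [h4] at h3
  have h5 := ENNReal.toReal_mono (by simp) h3
  rw [ENNReal.toReal_ofReal (by norm_num)] at h5
  exact h5

/-- a bound for the integral of a square -/
lemma N0_le {ρ B : ℝ} (hρ : ρ ≤ 1) (hB : 0 ≤ B) {f : V → ℝ} (hf : ContDiff ℝ ∞ f)
    (h : ∀ x ∈ ball (0 : V) ρ, f x ^ 2 ≤ B) : N 0 ρ f ≤ 8 * B := by
  have h1 : N 0 ρ f ≤ ∫ _ in ball (0 : V) ρ, B := by
    apply setIntegral_mono_on (N_int 0 ρ hf) (integrableOn_const measure_ball_lt_top.ne)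
      measurableSet_ball
    intro x hx
    exact h x hx
  refine h1.trans ?_
  rw [setIntegral_const, smul_eq_mul]
  exact mul_le_mul_of_nonneg_right (vol_ball_le hρ) hB

section
variable {K : ℝ} {v W : ℝ → V → V} {G : ℝ → ℝ}

lemma tIoo {t : ℝ} (ht : t ∈ Ioo (-1 / 16 : ℝ) 0) : t ∈ Ioo (-1 : ℝ) 0 :=
  ⟨by linarith [ht.1], ht.2⟩

lemma Dat.cv (h : Dat K v W G) {t : ℝ} (ht : t ∈ Ioo (-1 / 16 : ℝ) 0) (i : Fin 3) :
    ContDiff ℝ ∞ (fun y => v t y i) := (h.sv i).slice (tIoo ht)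

lemma Dat.cW (h : Dat K v W G) {t : ℝ} (ht : t ∈ Ioo (-1 / 16 : ℝ) 0) (i : Fin 3) :
    ContDiff ℝ ∞ (fun y => W t y i) := (h.sW i).slice (tIoo ht)

lemma Dat.K0 (h : Dat K v W G) : 0 ≤ K := by
  have h1 := h.bW (-1 / 32) ⟨by norm_num, by norm_num⟩ 0 (mem_ball_self (by norm_num)) 0
  exact (abs_nonneg _).trans h1

/-- The field `W` in the Sobolev norms. -/
lemma Wb (K : ℝ) (a : ℕ) : ∀ {ρ' ρ : ℝ}, 0 < ρ' → ρ' < ρ → ρ ≤ 1 / 4 → ∃ C : ℝ, 0 < C ∧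
    ∀ (v W : ℝ → V → V) (G : ℝ → ℝ), Dat K v W G → ∀ t ∈ Ioo (-1 / 16 : ℝ) 0,
      NV a ρ' (W t) ≤ C * (1 + ∑ i ∈ Finset.range a, NT i ρ (v t)) := by
  induction a with
  | zero =>
    intro ρ' ρ h0 h hρ
    refine ⟨24 * K ^ 2 + 1, by positivity, fun v W G hD t ht => ?_⟩
    have h1 : ∀ i, N 0 ρ' (fun y => W t y i) ≤ 8 * K ^ 2 := by
      intro i
      apply N0_le (by linarith) (sq_nonneg K) (hD.cW ht i)
      intro x hx
      have := hD.bW t ht x (ball_subset_ball (by linarith) hx) i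
      exact sq_le_sq' (by linarith [(abs_le.1 this).1]) (abs_le.1 this).2
    have h2 : NV 0 ρ' (W t) ≤ ∑ _i : Fin 3, 8 * K ^ 2 := Finset.sum_le_sum fun i _ => h1 i
    simp only [Finset.sum_const, Finset.card_univ, Fintype.card_fin, Finset.range_zero,
      Finset.sum_empty, add_zero, mul_one] at h2 ⊢
    refine h2.trans ?_
    norm_num
    linarith
  | succ a ih =>
    intro ρ' ρ h0 h hρ
    have a1 : ρ' < (ρ' + ρ) / 2 := by linarith
    have a2 : (ρ' + ρ) / 2 < ρ := by linarith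
    obtain ⟨C1, hC1, H1⟩ := el_ball h0 a1
    obtain ⟨C2, hC2, H2⟩ := ih (h0.trans a1) a2 hρ
    refine ⟨C1 * (C2 + 1), by positivity, fun v W G hD t ht => ?_⟩
    have h3 : ∀ i, N (a + 1) ρ' (fun y => W t y i)
        ≤ C1 * (N a ((ρ' + ρ) / 2) (fun y => W t y i)
          + ∑ m, N a ((ρ' + ρ) / 2) (Om m i (v t))) := by
      intro i
      apply H1 a _ _ (hD.cW ht i) (fun m => om_sm (hD.cv ht) m i)
      intro x hx
      have hx' : x ∈ ball (0 : V) (1 / 4) := ball_subset_ball (by linarith) hx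
      have b1 := hD.lapv t ht x hx' i
      have b2 := hD.lapH t ht x hx' i
      have b3 : lap (fun y => v t y i - W t y i) x
          = lap (fun y => v t y i) x - lap (fun y => W t y i) x := by
        unfold lap
        rw [← Finset.sum_sub_distrib]
        refine Finset.sum_congr rfl fun j _ => ?_
        rw [pd_sub' (hD.cv ht i) (hD.cW ht i), pd_sub' (sm_pd (hD.cv ht i) j)
          (sm_pd (hD.cW ht i) j)]
      rw [b3] at b2
      linarith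
    have h4 : NV (a + 1) ρ' (W t) ≤ C1 * (NV a ((ρ' + ρ) / 2) (W t)
        + NT a ((ρ' + ρ) / 2) (v t)) := by
      have c1 : NV (a + 1) ρ' (W t) ≤ ∑ i, C1 * (N a ((ρ' + ρ) / 2) (fun y => W t y i)
          + ∑ m, N a ((ρ' + ρ) / 2) (Om m i (v t))) := Finset.sum_le_sum fun i _ => h3 i
      refine c1.trans (le_of_eq ?_)
      rw [← Finset.mul_sum, Finset.sum_add_distrib]
      congr 2
      unfold NT
      rw [Fintype.sum_prod_type, Finset.sum_comm]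
    have h5 := H2 v W G hD t ht
    have h6 : NT a ((ρ' + ρ) / 2) (v t) ≤ NT a ρ (v t) := NT_mono a a2.le (hD.cv ht)
    have h7 : ∑ i ∈ Finset.range (a + 1), NT i ρ (v t)
        = (∑ i ∈ Finset.range a, NT i ρ (v t)) + NT a ρ (v t) := Finset.sum_range_succ _ _
    have h8 : 0 ≤ ∑ i ∈ Finset.range a, NT i ρ (v t) :=
      Finset.sum_nonneg fun i _ => NT_nonneg _ _ _
    have h9 := NT_nonneg a ρ (v t)
    refine h4.trans ?_
    rw [mul_assoc]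
    apply mul_le_mul_of_nonneg_left _ hC1.le
    rw [h7]
    nlinarith [mul_nonneg hC2.le h9]

/-- The harmonic part. -/
lemma Hb (K : ℝ) (a : ℕ) {ρ' : ℝ} (h0 : 0 < ρ') (h : ρ' < 1 / 4) : ∃ C : ℝ, 0 < C ∧
    ∀ (v W : ℝ → V → V) (G : ℝ → ℝ), Dat K v W G → ∀ t ∈ Ioo (-1 / 16 : ℝ) 0,
      ∀ x ∈ ball (0 : V) ρ', SV a (fun y i => v t y i - W t y i) x ≤ C * G t := by
  obtain ⟨C, hC, H⟩ := harm_pt a h0 h (by norm_num)
  refine ⟨24 * C, by positivity, fun v W G hD t ht x hx => ?_⟩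
  have hG := hD.Gn t (tIoo ht)
  have h1 : ∀ i, SS a (fun y => v t y i - W t y i) x ≤ C * (8 * G t) := by
    intro i
    have hs : ContDiff ℝ ∞ (fun y => v t y i - W t y i) := (hD.cv ht i).sub (hD.cW ht i)
    refine (H _ hs (fun x hx => hD.lapH t ht x hx i) x hx).trans ?_
    apply mul_le_mul_of_nonneg_left _ hC.le
    apply N0_le (by norm_num) hG hs
    intro y hy
    have := hD.bH t ht y hy i
    rw [← Real.sq_sqrt hG]
    exact sq_le_sq' (by linarith [(abs_le.1 this).1]) (abs_le.1 this).2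
  have h2 : SV a (fun y i => v t y i - W t y i) x ≤ ∑ _i : Fin 3, C * (8 * G t) :=
    Finset.sum_le_sum fun i _ => h1 i
  simp only [Finset.sum_const, Finset.card_univ, Fintype.card_fin] at h2
  refine h2.trans (le_of_eq ?_)
  norm_num
  ring

end

end Pool.Agent.TH305.DR
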