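import Pool.Agent.TH305.DR.Fix

/-!
Derivative bounds (helper305): solutions in a domain and in the whole space, viscosity one.
-/

set_option autoImplicit false

open MeasureTheory Set Metric Filter Topology
open scoped ContDiff ENNReal

namespace Pool.Agent.TH305.DR

open H459R3.NS W221.NS Pool.Agent.W349.MF
open Pool.Agent.W583.MD (sm_pd)

/-- All derivative bounds near a point. -/
def Bds (K : ℕ → ℝ) (ν r : ℝ) (v : V → V) (x : V) : Prop := ∀ x' ∈ ball x (r / 16), ∀ n,
  r ^ (2 * n + 4) * ST n v x' ≤ K n * ν ^ 2 ∧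
  r ^ (2 * n + 4) * SV (n + 1) v x' ≤ K n * (ν ^ 2 + r⁻¹ * A2 x (5 * r) v)

lemma ST_congr (n : ℕ) {O : Set V} (hO : IsOpen O) {v w : V → V} (h : ∀ x ∈ O, v x = w x) {x : V}
    (hx : x ∈ O) : ST n v x = ST n w x := by
  unfold ST
  refine Finset.sum_congr rfl fun q _ => ?_
  apply SS_congr_open n hO _ hx
  intro y hy
  unfold Om
  rw [pd_congr_open hO (f := fun y => v y q.2) (g := fun y => w y q.2)
    (fun z hz => by rw [h z hz]) q.1 hy,
    pd_congr_open hO (f := fun y => v y q.1) (g := fun y => w y q.1)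
    (fun z hz => by rw [h z hz]) q.2 hy]

lemma SV_congr (n : ℕ) {O : Set V} (hO : IsOpen O) {v w : V → V} (h : ∀ x ∈ O, v x = w x) {x : V}
    (hx : x ∈ O) : SV n v x = SV n w x := by
  unfold SV
  refine Finset.sum_congr rfl fun q _ => ?_
  exact SS_congr_open n hO (fun z hz => by rw [h z hz]) hx

lemma A2_congr {O : Set V} {v w : V → V} (h : ∀ x ∈ O, v x = w x) {x : V} {ρ : ℝ}
    (hx : ball x ρ ⊆ O) : A2 x ρ v = A2 x ρ w := by
  unfold A2
  apply setIntegral_congr_fun measurableSet_ball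
  intro y hy
  show nsq v y = nsq w y
  unfold nsq
  rw [h y (hx hy)]

/-- The estimate in a domain. -/
theorem dom1 : ∃ C : ℝ, 0 < C ∧ ∃ K : ℕ → ℝ, (∀ n, 0 < K n) ∧
    (∀ Ω Q : Set V, IsOpen Ω → IsCompact Q → Q ⊆ Ω → ∃ A : ℝ, 0 < A ∧
      ∀ (T E : ℝ) (u : ℝ → V → V) (p : ℝ → V → ℝ), 0 ≤ E → OSol 1 T E Ω u p →
      ∀ r s : ℝ, 0 < r → A * (1 + E) ^ 2 * r ≤ 1 → r ^ 2 < s → s < T →
      ∃ B : Set V, MeasurableSet B ∧
        volume B ≤ ENNReal.ofReal (C * r ^ 2) *
          ∫⁻ τ in Ioo (s - r ^ 2) s, ∫⁻ y in Ω, ENNReal.ofReal (gsq (u τ) y) ∧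
        ∀ x, x ∉ B → x ∈ thickening (r / 16) Q → ball x (5 * r) ⊆ Ω ∧ Bds K 1 r (u s) x) ∧
    ∀ (T E : ℝ) (u : ℝ → V → V) (p : ℝ → V → ℝ), 0 ≤ E → OSol 1 T E univ u p →
      ∀ r s : ℝ, 0 < r → r ^ 2 < s → s < T →
      ∃ B : Set V, MeasurableSet B ∧
        volume B ≤ ENNReal.ofReal (C * r ^ 2) *
          ∫⁻ τ in Ioo (s - r ^ 2) s, ∫⁻ y, ENNReal.ofReal (gsq (u τ) y) ∧
        ∀ x, x ∉ B → Bds K 1 r (u s) x := by
  obtain ⟨C, hC, K, hK, H⟩ := fixT
  refine ⟨C, hC, K, hK, ?_, ?_⟩
  · intro Ω Q hΩ hQ hQΩ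
    obtain ⟨ζ, δ, hδ, hζ, hc, hts, h01, h1, hOΩ⟩ := cutoff hQ hΩ hQΩ
    obtain ⟨B, hB0, hB⟩ := pd_bd hζ hc
    obtain ⟨O, hO⟩ : ∃ O : Set V, O = thickening δ Q := ⟨_, rfl⟩
    rw [← hO] at h1 hOΩ
    have hOo : IsOpen O := by rw [hO]; exact isOpen_thickening
    obtain ⟨a, ha⟩ : ∃ a : ℝ, a = 1 + 2 * C * B + 4 * C / δ + 12 / δ := ⟨_, rfl⟩
    have ha1 : 1 ≤ a := by
      have : 0 ≤ 2 * C * B + 4 * C / δ + 12 / δ := by positivity
      linarith
    have ha2 : 2 * C * B ≤ a := by
      have : 0 ≤ 4 * C / δ + 12 / δ := by positivity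
      linarith
    have ha3 : 4 * C ≤ a * δ := by
      have h2 : 4 * C / δ * δ = 4 * C := by field_simp
      have h3 : 0 ≤ (1 + 2 * C * B + 12 / δ) * δ := by positivity
      rw [ha]
      linarith
    have ha4 : 12 ≤ a * δ := by
      have h2 : 12 / δ * δ = 12 := by field_simp
      have h3 : 0 ≤ (1 + 2 * C * B + 4 * C / δ) * δ := by positivity
      rw [ha]
      linarith
    have ha0 : 0 < a := by linarith
    refine ⟨a ^ 2, by positivity, ?_⟩
    intro T E u p hE hS r s hr hAr hrs hsT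
    have hL := cut_sol hE hS hζ hc hts h01 hOo hOΩ h1 hB0 hB
    -- the radius is small
    have hsr0 : 0 < √r := Real.sqrt_pos.2 hr
    have hss : √r * √r = r := Real.mul_self_sqrt hr.le
    have b1 : a * (1 + E) * √r ≤ 1 := by
      have h2 : (a * (1 + E) * √r) ^ 2 ≤ 1 := by
        calc (a * (1 + E) * √r) ^ 2 = a ^ 2 * (1 + E) ^ 2 * (√r * √r) := by ring
          _ = a ^ 2 * (1 + E) ^ 2 * r := by rw [hss]
          _ ≤ 1 := hAr
      have h3 : 0 ≤ a * (1 + E) * √r := by positivity
      nlinarith only [h2, h3]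
    have b2 : a * √r ≤ 1 := by
      have : 0 ≤ a * E * √r := by positivity
      linarith
    have b3 : a * (E * √r) ≤ 1 := by
      have : 0 ≤ a * √r := by positivity
      linarith
    have b4 : √r ≤ 1 := by
      have : 0 ≤ (a - 1) * √r := mul_nonneg (by linarith) hsr0.le
      linarith
    have b5 : a * r ≤ 1 := by
      calc a * r = a * √r * √r := by rw [mul_assoc, hss]
        _ ≤ 1 * 1 := mul_le_mul b2 b4 hsr0.le zero_le_one
        _ = 1 := one_mul 1
    have c1 : C * (2 * B * E) * √r ≤ 1 := by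
      calc C * (2 * B * E) * √r = 2 * C * B * (E * √r) := by ring
        _ ≤ a * (E * √r) := by gcongr
        _ ≤ 1 := b3
    have c2 : C * (r + E * √r) ≤ δ / 2 := by
      have h2 : 4 * C * (r + E * √r) ≤ a * δ * (r + E * √r) := by gcongr
      have h3 : a * δ * (r + E * √r) = δ * (a * r) + δ * (a * (E * √r)) := by ring
      have h4 : δ * (a * r) ≤ δ * 1 := by gcongr
      have h5 : δ * (a * (E * √r)) ≤ δ * 1 := by gcongr
      linarith
    have c3 : 12 * r ≤ δ := by
      calc 12 * r ≤ a * δ * r := by gcongr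
        _ = δ * (a * r) := by ring
        _ ≤ δ * 1 := by gcongr
        _ = δ := mul_one δ
    obtain ⟨S, hSm, hSv, hSb⟩ := H T (2 * B * E) E O _ _ (by positivity) hE hL r s hr hrs hsT c1
    refine ⟨S, hSm, hSv.trans ?_, ?_⟩
    · refine mul_le_mul_right (lintegral_mono fun τ => ?_) _
      have hg : ∀ y ∈ O, gsq (fun x => ζ x • u τ x) y = gsq (u τ) y := by
        intro y hy
        unfold gsq
        refine Finset.sum_congr rfl fun i _ => Finset.sum_congr rfl fun j _ => ?_
        have h2 : (fun y => (ζ y • u τ y) i) =ᶠ[𝓝 y] fun y => u τ y i := by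
          filter_upwards [hOo.mem_nhds hy] with z hz
          rw [h1 z hz, one_smul]
        rw [pd_congr' h2 j]
      have h3 : ∫⁻ y in O, ENNReal.ofReal (gsq (fun x => ζ x • u τ x) y) =
          ∫⁻ y in O, ENNReal.ofReal (gsq (u τ) y) :=
        setLIntegral_congr_fun hOo.measurableSet fun y hy => by
          simp only [hg y hy]
      rw [h3]
      exact lintegral_mono_set hOΩ
    · intro x hxS hxQ
      obtain ⟨z, hzQ, hxz⟩ := mem_thickening_iff.1 hxQ
      have hxb : ball x (δ / 2) ⊆ O := by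
        refine subset_trans ?_ (show ball z δ ⊆ O by rw [hO]; exact ball_subset_thickening hzQ δ)
        intro y hy
        rw [mem_ball] at hy ⊢
        have := dist_triangle y x z
        linarith
      have h5 : ball x (5 * r) ⊆ O := (ball_subset_ball (by linarith)).trans hxb
      refine ⟨h5.trans hOΩ, fun x' hx' n => ?_⟩
      have hxO : x' ∈ O := h5 (ball_subset_ball (by linarith) hx')
      obtain ⟨r1, r2⟩ := hSb x hxS ((ball_subset_ball c2).trans hxb) x' hx' n
      have he : ∀ y ∈ O, (fun x => ζ x • u s x) y = u s y := by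
        intro y hy
        show ζ y • u s y = u s y
        rw [h1 y hy, one_smul]
      rw [ST_congr n hOo he hxO] at r1
      rw [SV_congr (n + 1) hOo he hxO, A2_congr he h5] at r2
      rw [one_pow, mul_one]
      exact ⟨r1, r2⟩
  · intro T E u p hE hS r s hr hrs hsT
    have hdv : ∀ t ∈ Ioo 0 T, ∀ x, dv (u t) x = 0 := fun t ht x => hS.divfree t ht x (mem_univ x)
    have hL : LSol T 0 E univ u p :=
      { openO := isOpen_univ
        smooth_u := hS.smooth_u
        smooth_p := hS.smooth_p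
        divfree := fun t ht x _ => hdv t ht x
        momentum := fun t ht x _ i => by
          have := hS.momentum t ht x (mem_univ x) i
          rw [one_mul] at this
          exact this
        en_int := fun t ht => by
          have := hS.en_int t ht
          rwa [integrableOn_univ] at this
        en := fun t ht => by
          have := hS.en t ht
          rwa [Measure.restrict_univ] at this
        dv_int := fun t ht => by
          have : (fun x => dv (u t) x ^ 2) = fun _ => (0 : ℝ) := by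
            funext x; rw [hdv t ht x]; norm_num
          rw [this]; exact integrable_zero _ _ _
        dvb := fun t ht => by
          have : (fun x => dv (u t) x ^ 2) = fun _ => (0 : ℝ) := by
            funext x; rw [hdv t ht x]; norm_num
          rw [this]; simp }
    obtain ⟨S, hSm, hSv, hSb⟩ := H T 0 E univ u p le_rfl hE hL r s hr hrs hsT
      (by rw [mul_zero, zero_mul]; exact zero_le_one)
    rw [Measure.restrict_univ] at hSv
    refine ⟨S, hSm, hSv, fun x hx x' hx' n => ?_⟩
    obtain ⟨r1, r2⟩ := hSb x hx (subset_univ _) x' hx' n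
    rw [one_pow, mul_one]
    exact ⟨r1, r2⟩

end Pool.Agent.TH305.DR
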