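import Pool.Agent.TH305.DR.Basic

/-!
Derivative bounds (helper305): local energy inequalities of all orders.
-/

set_option autoImplicit false

open MeasureTheory Set Metric Filter Topology
open scoped ContDiff

namespace Pool.Agent.TH305.DR

open H459R3.NS W221.NS
open Pool.Agent.W583.MD (sm_pd cs_pd pd_mul' Z Z.add Z.sub Z.smul Z.sum int_cs Z_pd hd_int hcs)
open Pool.Agent.W22.ME.TD (pd_comm)
open Pool.Agent.W505.ME.TSM (JS JS.slice JS.pd JS.dt JS.comm)

lemma lap_pd_comm {f : V → ℝ} (hf : ContDiff ℝ ∞ f) (i : Fin 3) :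
    pd i (lap f) = lap (pd i f) := by
  have h1 : lap f = fun x => ∑ j, pd j (pd j f) x := rfl
  rw [h1, pd_sum' _ (fun j => sm_pd (sm_pd hf j) j)]
  funext x
  show _ = ∑ j, pd j (pd j (pd i f)) x
  refine Finset.sum_congr rfl fun j _ => ?_
  rw [pd_comm (sm_pd hf j) i j, pd_comm hf i j]

/-- integrability against a square of a cut-off -/
lemma int_ss (n : ℕ) {f φ : V → ℝ} (hf : ContDiff ℝ ∞ f) (hφ : ContDiff ℝ ∞ φ)
    (hs : HasCompactSupport φ) : Integrable (fun x => SS n f x * φ x ^ 2) := by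
  apply int_cs ((SS_cont n hf).mul (hφ.continuous.pow 2))
  have h1 : HasCompactSupport (fun x => φ x ^ 2) := by
    have := hs.comp_left (g := fun y : ℝ => y ^ 2) (by simp)
    exact this
  exact h1.mul_left

lemma ss1_cs {φ : V → ℝ} (hs : HasCompactSupport φ) : HasCompactSupport (SS 1 φ) := by
  have h : SS 1 φ = fun x => pd 0 φ x ^ 2 + pd 1 φ x ^ 2 + pd 2 φ x ^ 2 := by
    funext x
    rw [SS_one, Fin.sum_univ_three]
  rw [h]
  have h1 : ∀ i, HasCompactSupport (fun x => pd i φ x ^ 2) := by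
    intro i
    have := (cs_pd hs i).comp_left (g := fun y : ℝ => y ^ 2) (by simp)
    exact this
  exact ((h1 0).add (h1 1)).add (h1 2)

lemma int_ss1 (n : ℕ) {f φ : V → ℝ} (hf : ContDiff ℝ ∞ f) (hφ : ContDiff ℝ ∞ φ)
    (hs : HasCompactSupport φ) : Integrable (fun x => SS n f x * SS 1 φ x) :=
  int_cs ((SS_cont n hf).mul (SS_cont 1 hφ)) (ss1_cs hs).mul_left

/-- The pointwise inequality behind the energy inequality. -/
lemma pt_en (w φ L : ℝ) (dw dφ g dg : Fin 3 → ℝ) (hL : L * φ ^ 2 = L * φ ^ 2) :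
    2 * w * (L + ∑ m, dg m) * φ ^ 2
      - (2 * (w * L * φ ^ 2 + ∑ m, (dw m * dw m * φ ^ 2 + 2 * w * dw m * φ * dφ m))
        + 2 * ∑ m, (dw m * g m * φ ^ 2 + w * dg m * φ ^ 2 + 2 * w * g m * φ * dφ m))
      ≤ -((∑ m, dw m ^ 2) * φ ^ 2) + 10 * (w ^ 2 * ∑ m, dφ m ^ 2)
        + 4 * ∑ m, g m ^ 2 * φ ^ 2 := by
  have h : ∀ m : Fin 3, -(2 * (dw m * dw m * φ ^ 2 + 2 * w * dw m * φ * dφ m))
      - 2 * (dw m * g m * φ ^ 2 + 2 * w * g m * φ * dφ m)
      ≤ -(dw m ^ 2 * φ ^ 2) + 10 * (w ^ 2 * dφ m ^ 2) + 4 * (g m ^ 2 * φ ^ 2) := by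
    intro m
    nlinarith [sq_nonneg (dw m * φ + 4 * w * dφ m), sq_nonneg (dw m * φ + 2 * g m * φ),
      sq_nonneg (g m * φ + w * dφ m), sq_nonneg (w * dφ m)]
  have h0 := h 0
  have h1 := h 1
  have h2 := h 2
  simp only [Fin.sum_univ_three]
  nlinarith [h0, h1, h2]

/-- The pointwise inequality behind the elliptic estimate. -/
lemma pt_el (w φ L : ℝ) (dw dφ g dg : Fin 3 → ℝ) (hL : L * φ ^ 2 = (∑ m, dg m) * φ ^ 2) :
    (∑ m, dw m ^ 2) * φ ^ 2
      - 2 * ((w * L * φ ^ 2 + ∑ m, (dw m * dw m * φ ^ 2 + 2 * w * dw m * φ * dφ m))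
        - ∑ m, (dw m * g m * φ ^ 2 + w * dg m * φ ^ 2 + 2 * w * g m * φ * dφ m))
      ≤ 10 * (w ^ 2 * ∑ m, dφ m ^ 2) + 4 * ∑ m, g m ^ 2 * φ ^ 2 := by
  have h : ∀ m : Fin 3, dw m ^ 2 * φ ^ 2 - 2 * (dw m * dw m * φ ^ 2 + 2 * w * dw m * φ * dφ m)
      + 2 * (dw m * g m * φ ^ 2 + 2 * w * g m * φ * dφ m)
      ≤ 10 * (w ^ 2 * dφ m ^ 2) + 4 * (g m ^ 2 * φ ^ 2) := by
    intro m
    nlinarith [sq_nonneg (dw m * φ + 4 * w * dφ m), sq_nonneg (dw m * φ - 2 * g m * φ),
      sq_nonneg (g m * φ - w * dφ m), sq_nonneg (w * dφ m)]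
  have h0 := h 0
  have h1 := h 1
  have h2 := h 2
  simp only [Fin.sum_univ_three] at hL ⊢
  have hL' : w * L * φ ^ 2 = w * ((dg 0 + dg 1 + dg 2) * φ ^ 2) := by
    rw [mul_assoc, hL]
  nlinarith [h0, h1, h2]

lemma Z_div {w φ : V → ℝ} {g : Fin 3 → V → ℝ} (hw : ContDiff ℝ ∞ w)
    (hφ : ContDiff ℝ ∞ φ) (hs : HasCompactSupport φ) (hg : ∀ m, ContDiff ℝ ∞ (g m)) :
    Z (fun x => w x * lap w x * φ x ^ 2
      + ∑ m, (pd m w x * pd m w x * φ x ^ 2 + 2 * w x * pd m w x * φ x * pd m φ x)) ∧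
    Z (fun x => ∑ m, (pd m w x * g m x * φ x ^ 2 + w x * pd m (g m) x * φ x ^ 2
      + 2 * w x * g m x * φ x * pd m φ x)) := by
  have hφ2 : ContDiff ℝ ∞ (fun x => φ x * φ x) := hφ.mul hφ
  have hs2 : HasCompactSupport (fun x => φ x * φ x) := hs.mul_left
  constructor
  · have h1 : Z (fun x => ∑ m, pd m (fun y => (w y * pd m w y) * (φ y * φ y)) x) :=
      Z.sum fun m => Z_pd ((hw.mul (sm_pd hw m)).mul hφ2) hs2.mul_left m
    have e : (fun x => w x * lap w x * φ x ^ 2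
        + ∑ m, (pd m w x * pd m w x * φ x ^ 2 + 2 * w x * pd m w x * φ x * pd m φ x))
        = fun x => ∑ m, pd m (fun y => (w y * pd m w y) * (φ y * φ y)) x := by
      funext x
      have e1 : ∀ m, pd m (fun y => (w y * pd m w y) * (φ y * φ y)) x
          = w x * pd m w x * (φ x * pd m φ x + pd m φ x * φ x)
            + (w x * pd m (pd m w) x + pd m w x * pd m w x) * (φ x * φ x) := by
        intro m
        rw [pd_mul' (hw.mul (sm_pd hw m)) hφ2, pd_mul' hw (sm_pd hw m), pd_mul' hφ hφ]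
      simp only [e1]
      unfold lap
      simp only [Fin.sum_univ_three]
      ring
    rw [e]
    exact h1
  · have h1 : Z (fun x => ∑ m, pd m (fun y => (w y * g m y) * (φ y * φ y)) x) :=
      Z.sum fun m => Z_pd ((hw.mul (hg m)).mul hφ2) hs2.mul_left m
    have e : (fun x => ∑ m, (pd m w x * g m x * φ x ^ 2 + w x * pd m (g m) x * φ x ^ 2
        + 2 * w x * g m x * φ x * pd m φ x))
        = fun x => ∑ m, pd m (fun y => (w y * g m y) * (φ y * φ y)) x := by
      funext x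
      have e1 : ∀ m, pd m (fun y => (w y * g m y) * (φ y * φ y)) x
          = w x * g m x * (φ x * pd m φ x + pd m φ x * φ x)
            + (w x * pd m (g m) x + pd m w x * g m x) * (φ x * φ x) := by
        intro m
        rw [pd_mul' (hw.mul (hg m)) hφ2, pd_mul' hw (hg m), pd_mul' hφ hφ]
      simp only [e1, Fin.sum_univ_three]
      ring
    rw [e]
    exact h1

/-- The elliptic estimate of order zero. -/
lemma el0 {w φ : V → ℝ} {g : Fin 3 → V → ℝ} (hw : ContDiff ℝ ∞ w)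
    (hφ : ContDiff ℝ ∞ φ) (hs : HasCompactSupport φ) (hg : ∀ m, ContDiff ℝ ∞ (g m)) {ρ : ℝ}
    (heq : ∀ x ∈ ball (0 : V) ρ, lap w x = ∑ m, pd m (g m) x)
    (hout : ∀ x ∉ ball (0 : V) ρ, φ x = 0) :
    ∫ x, SS 1 w x * φ x ^ 2 ≤ 10 * (∫ x, SS 0 w x * SS 1 φ x)
      + 4 * ∑ m, ∫ x, SS 0 (g m) x * φ x ^ 2 := by
  obtain ⟨z1, z2⟩ := Z_div hw hφ hs hg
  have i1 := int_ss 1 hw hφ hs
  have i2 := int_ss1 0 hw hφ hs
  have i3 := fun m => int_ss 0 (hg m) hφ hs
  have hsum : ∑ m, ∫ x, SS 0 (g m) x * φ x ^ 2 = ∫ x, ∑ m, SS 0 (g m) x * φ x ^ 2 :=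
    (integral_finsetSum _ fun m _ => i3 m).symm
  have z3 := (z1.sub z2).smul 2
  have hI : ∫ x, (SS 1 w x * φ x ^ 2 - 2 * ((w x * lap w x * φ x ^ 2
      + ∑ m, (pd m w x * pd m w x * φ x ^ 2 + 2 * w x * pd m w x * φ x * pd m φ x))
      - ∑ m, (pd m w x * g m x * φ x ^ 2 + w x * pd m (g m) x * φ x ^ 2
      + 2 * w x * g m x * φ x * pd m φ x))) = ∫ x, SS 1 w x * φ x ^ 2 := by
    rw [integral_sub i1 z3.1, z3.2, sub_zero]
  rw [← hI, hsum, ← integral_const_mul, ← integral_const_mul, ← integral_add]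
  · apply integral_mono
    · exact i1.sub z3.1
    · exact (i2.const_mul 10).add ((integrable_finsetSum _ fun m _ => i3 m).const_mul 4)
    · intro x
      have hL : lap w x * φ x ^ 2 = (∑ m, pd m (g m) x) * φ x ^ 2 := by
        by_cases hx : x ∈ ball (0 : V) ρ
        · rw [heq x hx]
        · rw [hout x hx]
          ring
      have := pt_el (w x) (φ x) (lap w x) (fun m => pd m w x) (fun m => pd m φ x)
        (fun m => g m x) (fun m => pd m (g m) x) hL
      simp only [SS_one, SS_zero]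
      exact this
  · exact i2.const_mul 10
  · exact (integrable_finsetSum _ fun m _ => i3 m).const_mul 4

/-- The elliptic estimate. -/
lemma elN (n : ℕ) : ∀ {w φ : V → ℝ} {g : Fin 3 → V → ℝ}, ContDiff ℝ ∞ w →
    ContDiff ℝ ∞ φ → HasCompactSupport φ → (∀ m, ContDiff ℝ ∞ (g m)) → ∀ {ρ : ℝ},
    (∀ x ∈ ball (0 : V) ρ, lap w x = ∑ m, pd m (g m) x) →
    (∀ x ∉ ball (0 : V) ρ, φ x = 0) →
    ∫ x, SS (n + 1) w x * φ x ^ 2 ≤ 10 * (∫ x, SS n w x * SS 1 φ x)
      + 4 * ∑ m, ∫ x, SS n (g m) x * φ x ^ 2 := by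
  induction n with
  | zero =>
    intro w φ g hw hφ hs hg ρ heq hout
    exact el0 hw hφ hs hg heq hout
  | succ n ih =>
    intro w φ g hw hφ hs hg ρ heq hout
    have hstep : ∀ i, ∫ x, SS (n + 1) (pd i w) x * φ x ^ 2
        ≤ 10 * (∫ x, SS n (pd i w) x * SS 1 φ x)
          + 4 * ∑ m, ∫ x, SS n (pd i (g m)) x * φ x ^ 2 := by
      intro i
      apply ih (sm_pd hw i) hφ hs (fun m => sm_pd (hg m) i) (ρ := ρ) _ hout
      intro x hx
      have h1 : pd i (lap w) x = pd i (fun y => ∑ m, pd m (g m) y) x :=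
        pd_congr_open isOpen_ball heq i hx
      rw [lap_pd_comm hw, pd_sum' _ (fun m => sm_pd (hg m) m)] at h1
      rw [h1]
      exact Finset.sum_congr rfl fun m _ => by rw [pd_comm (hg m) i m]
    have e1 : ∫ x, SS (n + 1 + 1) w x * φ x ^ 2
        = ∑ i, ∫ x, SS (n + 1) (pd i w) x * φ x ^ 2 := by
      rw [← integral_finsetSum _ fun i _ => int_ss (n + 1) (sm_pd hw i) hφ hs]
      congr 1
      funext x
      rw [SS_succ, Finset.sum_mul]
    have e2 : ∫ x, SS (n + 1) w x * SS 1 φ x = ∑ i, ∫ x, SS n (pd i w) x * SS 1 φ x := by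
      rw [← integral_finsetSum _ fun i _ => int_ss1 n (sm_pd hw i) hφ hs]
      congr 1
      funext x
      rw [SS_succ, Finset.sum_mul]
    have e3 : ∀ m, ∫ x, SS (n + 1) (g m) x * φ x ^ 2
        = ∑ i, ∫ x, SS n (pd i (g m)) x * φ x ^ 2 := by
      intro m
      rw [← integral_finsetSum _ fun i _ => int_ss n (sm_pd (hg m) i) hφ hs]
      congr 1
      funext x
      rw [SS_succ, Finset.sum_mul]
    rw [e1, e2]
    simp only [e3]
    rw [Finset.sum_comm, Finset.mul_sum, Finset.mul_sum, ← Finset.sum_add_distrib]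
    exact Finset.sum_le_sum fun i _ => hstep i

/-- The energy inequality of order zero. -/
lemma en0 {w : ℝ → V → ℝ} {φ : V → ℝ} {g : Fin 3 → V → ℝ} (hw : JS w)
    (hφ : ContDiff ℝ ∞ φ) (hg : ∀ m, ContDiff ℝ ∞ (g m)) {ρ : ℝ} (hρ : ρ ≤ 1) {t : ℝ}
    (ht : t ∈ Ioo (-1 : ℝ) 0)
    (heq : ∀ x ∈ ball (0 : V) ρ, deriv (fun s => w s x) t = lap (w t) x + ∑ m, pd m (g m) x)
    (hout : ∀ x ∉ ball (0 : V) ρ, φ x = 0) :
    ∃ E' : ℝ, HasDerivAt (fun s => ∫ x, SS 0 (w s) x * φ x ^ 2) E' t ∧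
      E' ≤ -(∫ x, SS 1 (w t) x * φ x ^ 2) + 10 * (∫ x, SS 0 (w t) x * SS 1 φ x)
        + 4 * ∑ m, ∫ x, SS 0 (g m) x * φ x ^ 2 := by
  have hout1 : ∀ x ∉ ball (0 : V) 1, φ x = 0 := fun x hx =>
    hout x fun h => hx (ball_subset_ball hρ h)
  have hs : HasCompactSupport φ := hcs hout1
  have hwt := hw.slice ht
  have hF : JS (fun s x => SS 0 (w s) x * φ x ^ 2) := by
    unfold JS
    have h1 : ContDiffOn ℝ ∞ (fun z : ℝ × V => w z.1 z.2) (Ioo (-1) 0 ×ˢ univ) := hw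
    have h2 : ContDiffOn ℝ ∞ (fun z : ℝ × V => φ z.2) (Ioo (-1) 0 ×ˢ univ) :=
      (hφ.comp contDiff_snd).contDiffOn
    exact (h1.pow 2).mul (h2.pow 2)
  have hd := hd_int (α := -1) (β := 0) (F := fun s x => SS 0 (w s) x * φ x ^ 2) hF
      (fun s _ x hx => by
    show SS 0 (w s) x * φ x ^ 2 = 0
    rw [hout1 x hx]
    ring) ht
  refine ⟨_, hd, ?_⟩
  have hder : ∀ x, deriv (fun s => SS 0 (w s) x * φ x ^ 2) t
      = 2 * w t x * (lap (w t) x + ∑ m, pd m (g m) x) * φ x ^ 2 := by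
    intro x
    have h1 : HasDerivAt (fun s => w s x) (deriv (fun s => w s x) t) t :=
      (JS.hd_t hw ht x).differentiableAt.hasDerivAt
    have h2 : HasDerivAt (fun s => SS 0 (w s) x * φ x ^ 2)
        ((2 * w t x ^ (2 - 1) * deriv (fun s => w s x) t) * φ x ^ 2) t := by
      have h3 := (h1.pow 2).mul_const (φ x ^ 2)
      have e : (2 * w t x ^ (2 - 1) * deriv (fun s => w s x) t) * φ x ^ 2
          = ((2 : ℕ) : ℝ) * w t x ^ (2 - 1) * deriv (fun s => w s x) t * φ x ^ 2 := by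
        norm_num
      rw [e]
      exact h3
    rw [h2.deriv]
    by_cases hx : x ∈ ball (0 : V) ρ
    · rw [heq x hx]
      ring
    · rw [hout x hx]
      ring
  obtain ⟨z1, z2⟩ := Z_div hwt hφ hs hg
  have i1 := int_ss 1 hwt hφ hs
  have i2 := int_ss1 0 hwt hφ hs
  have i3 := fun m => int_ss 0 (hg m) hφ hs
  have hsum : ∑ m, ∫ x, SS 0 (g m) x * φ x ^ 2 = ∫ x, ∑ m, SS 0 (g m) x * φ x ^ 2 :=
    (integral_finsetSum _ fun m _ => i3 m).symm
  have z3 := (z1.smul 2).add (z2.smul 2)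
  have i0 : Integrable (fun x => 2 * w t x * (lap (w t) x + ∑ m, pd m (g m) x) * φ x ^ 2) := by
    apply int_cs
    · have c1 := hwt.continuous
      have c2 : Continuous (lap (w t)) := (Pool.Agent.W22.ME.TD.lap_smooth hwt).continuous
      have c3 : Continuous fun x => ∑ m, pd m (g m) x :=
        continuous_finsetSum _ fun m _ => (sm_pd (hg m) m).continuous
      have c4 := hφ.continuous
      fun_prop
    · have h1 : HasCompactSupport (fun x => φ x ^ 2) := by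
        have := hs.comp_left (g := fun y : ℝ => y ^ 2) (by simp)
        exact this
      exact h1.mul_left
  have hI : ∫ x, deriv (fun s => SS 0 (w s) x * φ x ^ 2) t
      = ∫ x, (2 * w t x * (lap (w t) x + ∑ m, pd m (g m) x) * φ x ^ 2
        - (2 * (w t x * lap (w t) x * φ x ^ 2
        + ∑ m, (pd m (w t) x * pd m (w t) x * φ x ^ 2 + 2 * w t x * pd m (w t) x * φ x * pd m φ x))
        + 2 * ∑ m, (pd m (w t) x * g m x * φ x ^ 2 + w t x * pd m (g m) x * φ x ^ 2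
        + 2 * w t x * g m x * φ x * pd m φ x))) := by
    simp only [hder]
    rw [integral_sub i0 z3.1, z3.2, sub_zero]
  rw [hI, hsum, ← integral_const_mul, ← integral_const_mul, ← integral_neg, ← integral_add,
    ← integral_add]
  · apply integral_mono
    · exact i0.sub z3.1
    · exact (i1.neg.add (i2.const_mul 10)).add
        ((integrable_finsetSum _ fun m _ => i3 m).const_mul 4)
    · intro x
      have := pt_en (w t x) (φ x) (lap (w t) x) (fun m => pd m (w t) x) (fun m => pd m φ x)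
        (fun m => g m x) (fun m => pd m (g m) x) rfl
      simp only [SS_one, SS_zero]
      exact this
  · exact i1.neg.add (i2.const_mul 10)
  · exact (integrable_finsetSum _ fun m _ => i3 m).const_mul 4
  · exact i1.neg
  · exact i2.const_mul 10

/-- The energy inequality. -/
lemma enN (n : ℕ) : ∀ {w : ℝ → V → ℝ} {φ : V → ℝ} {g : Fin 3 → V → ℝ}, JS w →
    ContDiff ℝ ∞ φ → (∀ m, ContDiff ℝ ∞ (g m)) → ∀ {ρ : ℝ}, ρ ≤ 1 → ∀ {t : ℝ},
    t ∈ Ioo (-1 : ℝ) 0 →
    (∀ x ∈ ball (0 : V) ρ, deriv (fun s => w s x) t = lap (w t) x + ∑ m, pd m (g m) x) →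
    (∀ x ∉ ball (0 : V) ρ, φ x = 0) →
    ∃ E' : ℝ, HasDerivAt (fun s => ∫ x, SS n (w s) x * φ x ^ 2) E' t ∧
      E' ≤ -(∫ x, SS (n + 1) (w t) x * φ x ^ 2) + 10 * (∫ x, SS n (w t) x * SS 1 φ x)
        + 4 * ∑ m, ∫ x, SS n (g m) x * φ x ^ 2 := by
  induction n with
  | zero =>
    intro w φ g hw hφ hg ρ hρ t ht heq hout
    exact en0 hw hφ hg hρ ht heq hout
  | succ n ih =>
    intro w φ g hw hφ hg ρ hρ t ht heq hout
    have hout1 : ∀ x ∉ ball (0 : V) 1, φ x = 0 := fun x hx =>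
      hout x fun h => hx (ball_subset_ball hρ h)
    have hs : HasCompactSupport φ := hcs hout1
    have hwt := hw.slice ht
    have hstep : ∀ i, ∃ E' : ℝ, HasDerivAt (fun s => ∫ x, SS n (pd i (w s)) x * φ x ^ 2) E' t ∧
        E' ≤ -(∫ x, SS (n + 1) (pd i (w t)) x * φ x ^ 2)
          + 10 * (∫ x, SS n (pd i (w t)) x * SS 1 φ x)
          + 4 * ∑ m, ∫ x, SS n (pd i (g m)) x * φ x ^ 2 := by
      intro i
      apply ih (w := fun s => pd i (w s)) (hw.pd i) hφ (fun m => sm_pd (hg m) i) hρ ht _ hout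
      intro x hx
      rw [hw.comm ht x i]
      have h1 : pd i (fun y => deriv (fun s => w s y) t) x
          = pd i (fun y => lap (w t) y + ∑ m, pd m (g m) y) x :=
        pd_congr_open isOpen_ball heq i hx
      rw [h1, pd_add' (Pool.Agent.W22.ME.TD.lap_smooth hwt)
        (ContDiff.sum fun m _ => sm_pd (hg m) m), lap_pd_comm hwt,
        pd_sum' _ (fun m => sm_pd (hg m) m)]
      show lap (pd i (w t)) x + ∑ m, pd i (pd m (g m)) x
        = lap (pd i (w t)) x + ∑ m, pd m (pd i (g m)) x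
      congr 1
      exact Finset.sum_congr rfl fun m _ => by rw [pd_comm (hg m) i m]
    choose E' hE1 hE2 using hstep
    refine ⟨∑ i, E' i, ?_, ?_⟩
    · have h1 : HasDerivAt (fun s => ∑ i, ∫ x, SS n (pd i (w s)) x * φ x ^ 2) (∑ i, E' i) t := by
        have := HasDerivAt.fun_sum (u := Finset.univ) fun i _ => hE1 i
        exact this
      refine h1.congr_of_eventuallyEq ?_
      filter_upwards [Ioo_mem_nhds ht.1 ht.2] with s hs'
      rw [← integral_finsetSum _ fun i _ => int_ss n (sm_pd (hw.slice hs') i) hφ hs]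
      congr 1
      funext x
      rw [SS_succ, Finset.sum_mul]
    · have e1 : ∫ x, SS (n + 1 + 1) (w t) x * φ x ^ 2
          = ∑ i, ∫ x, SS (n + 1) (pd i (w t)) x * φ x ^ 2 := by
        rw [← integral_finsetSum _ fun i _ => int_ss (n + 1) (sm_pd hwt i) hφ hs]
        congr 1
        funext x
        rw [SS_succ, Finset.sum_mul]
      have e2 : ∫ x, SS (n + 1) (w t) x * SS 1 φ x
          = ∑ i, ∫ x, SS n (pd i (w t)) x * SS 1 φ x := by
        rw [← integral_finsetSum _ fun i _ => int_ss1 n (sm_pd hwt i) hφ hs]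
        congr 1
        funext x
        rw [SS_succ, Finset.sum_mul]
      have e3 : ∀ m, ∫ x, SS (n + 1) (g m) x * φ x ^ 2
          = ∑ i, ∫ x, SS n (pd i (g m)) x * φ x ^ 2 := by
        intro m
        rw [← integral_finsetSum _ fun i _ => int_ss n (sm_pd (hg m) i) hφ hs]
        congr 1
        funext x
        rw [SS_succ, Finset.sum_mul]
      rw [e1, e2]
      simp only [e3]
      rw [Finset.sum_comm, Finset.mul_sum, Finset.mul_sum, ← Finset.sum_neg_distrib,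
        ← Finset.sum_add_distrib, ← Finset.sum_add_distrib]
      exact Finset.sum_le_sum fun i _ => hE2 i

end Pool.Agent.TH305.DR
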