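import Pool.Agent.TH305.DR.Fin

/-!
Derivative bounds (helper305): final statements.
-/

set_option autoImplicit false

open MeasureTheory Set Metric Filter Topology
open scoped ContDiff ENNReal

namespace Pool.Agent.TH305.DR

open H459R3.NS W221.NS W221.NS.B Pool.Agent.W349.MF

/-- The points where some derivative of order `n` of some vorticity entry of `v` exceeds `a` in
absolute value. -/
def Big (n : ℕ) (a : ℝ) (v : V → V) : Set V :=
  {x | ∃ l : List (Fin 3), l.length = n ∧ ∃ i j, a < |dl l (vo v i j) x|}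

lemma big_sub {K : ℕ → ℝ} {ν r : ℝ} {v : V → V} (n : ℕ) :
    Big n (K n * ν / r ^ (n + 2)) v ⊆ badW K ν r v := by
  rintro x ⟨l, hl, i, j, hlt⟩
  refine ⟨l, i, j, ?_⟩
  rwa [hl]

/-- Short windows carry little of a finite integral. -/
lemma win_small {D : ℝ → ℝ≥0∞} {T : ℝ} (hfin : ∫⁻ t in Ioo 0 T, D t ≠ ⊤) {ε : ℝ≥0∞} (hε : ε ≠ 0) :
    ∃ η : ℝ, 0 < η ∧ ∀ s h : ℝ, 0 ≤ s - h → s ≤ T → h < η → ∫⁻ t in Ioo (s - h) s, D t ≤ ε := by
  obtain ⟨δ, hδ, H⟩ := exists_pos_setLIntegral_lt_of_measure_lt hfin hε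
  obtain ⟨η, hη0, hη⟩ : ∃ η : ℝ, 0 < η ∧ ENNReal.ofReal η ≤ δ := by
    rcases eq_or_ne δ ⊤ with h | h
    · exact ⟨1, one_pos, by rw [h]; exact le_top⟩
    · exact ⟨δ.toReal, ENNReal.toReal_pos hδ.ne' h, by rw [ENNReal.ofReal_toReal h]⟩
  refine ⟨η, hη0, fun s h hs hsT hh => ?_⟩
  have h1 : (volume.restrict (Ioo 0 T)) (Ioo (s - h) s) < δ := by
    calc (volume.restrict (Ioo 0 T)) (Ioo (s - h) s) ≤ volume (Ioo (s - h) s) :=
          Measure.restrict_apply_le _ _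
      _ = ENNReal.ofReal h := by rw [Real.volume_Ioo]; congr 1; ring
      _ < ENNReal.ofReal η := (ENNReal.ofReal_lt_ofReal_iff hη0).2 hh
      _ ≤ δ := hη
  have h2 := (H _ h1).le
  rwa [Measure.restrict_restrict measurableSet_Ioo,
    inter_eq_left.2 (Ioo_subset_Ioo hs hsT)] at h2

/-- Weak form of the estimates, uniformly in time. -/
theorem weak_form {K : ℕ → ℝ} (hK : ∀ n, 0 < K n) {C ν T r₀ : ℝ} (hC : 0 < C) (hν : 0 < ν)
    (hr₀ : 0 < r₀) {D : ℝ → ℝ≥0∞} (hfin : ∫⁻ t in Ioo 0 T, D t ≠ ⊤) {Q : Set V} {u : ℝ → V → V}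
    (H : ∀ r s : ℝ, 0 < r → r ≤ r₀ → 256 * r ^ 2 / ν < s → s < T →
      volume (thickening r (badW K ν r (u s) ∩ Q))
        ≤ ENNReal.ofReal (C / ν * r ^ 2) * ∫⁻ τ in Ioo (s - 256 * r ^ 2 / ν) s, D τ)
    (n : ℕ) {s₀ ε : ℝ} (hs₀ : 0 < s₀) (hε : 0 < ε) :
    ∃ L : ℝ, 0 < L ∧ ∀ a : ℝ, L ≤ a → ∀ s ∈ Ioo s₀ T,
      volume (Big n a (u s) ∩ Q) ≤ ENNReal.ofReal (ε * a ^ (-(2 / (n + 2) : ℝ))) := by
  have hKn := hK n
  obtain ⟨P, hP⟩ : ∃ P : ℝ, P = (K n * ν) ^ (2 / (n + 2) : ℝ) := ⟨_, rfl⟩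
  have hP0 : 0 < P := by rw [hP]; positivity
  obtain ⟨d, hd⟩ : ∃ d : ℝ, d = ε / (C / ν * P) := ⟨_, rfl⟩
  have hd0 : 0 < d := by rw [hd]; positivity
  obtain ⟨η, hη, hwin⟩ := win_small hfin (ε := ENNReal.ofReal d)
    (ENNReal.ofReal_pos.2 hd0).ne'
  -- the radius
  obtain ⟨q, hq⟩ : ∃ q : ℝ, q = 1 / (n + 2) := ⟨_, rfl⟩
  have hq0 : 0 < q := by rw [hq]; positivity
  obtain ⟨ρ, hρ0, hρ1, hρ2, hρ3⟩ : ∃ ρ : ℝ, 0 < ρ ∧ ρ ≤ r₀ ∧ 256 * ρ ^ 2 / ν < s₀ ∧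
      256 * ρ ^ 2 / ν < η := by
    have hm : 0 < min (min (s₀ * ν) (η * ν)) 1 :=
      lt_min (lt_min (by positivity) (by positivity)) one_pos
    obtain ⟨m, hm'⟩ : ∃ m, m = min (min (s₀ * ν) (η * ν)) 1 := ⟨_, rfl⟩
    rw [← hm'] at hm
    have m1 : m ≤ s₀ * ν := by rw [hm']; exact (min_le_left _ _).trans (min_le_left _ _)
    have m2 : m ≤ η * ν := by rw [hm']; exact (min_le_left _ _).trans (min_le_right _ _)
    have m3 : m ≤ 1 := by rw [hm']; exact min_le_right _ _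
    have hx0 : 0 < min r₀ (m / 32) := lt_min hr₀ (by positivity)
    have hx1 : min r₀ (m / 32) ≤ m / 32 := min_le_right _ _
    have hx2 : 256 * min r₀ (m / 32) ^ 2 < m := by
      have : min r₀ (m / 32) ^ 2 ≤ (m / 32) ^ 2 := pow_le_pow_left₀ hx0.le hx1 2
      nlinarith
    refine ⟨min r₀ (m / 32), hx0, min_le_left _ _, ?_, ?_⟩
    · rw [div_lt_iff₀ hν]
      linarith
    · rw [div_lt_iff₀ hν]
      linarith
  refine ⟨K n * ν / ρ ^ (n + 2), by positivity, fun a ha s hs => ?_⟩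
  have ha0 : 0 < a := lt_of_lt_of_le (by positivity) ha
  obtain ⟨r, hr⟩ : ∃ r : ℝ, r = (K n * ν / a) ^ q := ⟨_, rfl⟩
  have hr0 : 0 < r := by rw [hr]; positivity
  have hrn : r ^ (n + 2) = K n * ν / a := by
    rw [hr, ← Real.rpow_natCast, ← Real.rpow_mul (by positivity), hq]
    have : (1 / ((n : ℝ) + 2)) * ((n + 2 : ℕ) : ℝ) = 1 := by
      push_cast
      field_simp
    rw [this, Real.rpow_one]
  have hlev : K n * ν / r ^ (n + 2) = a := by
    rw [hrn]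
    field_simp
  have hrρ : r ≤ ρ := by
    have h1 : r ^ (n + 2) ≤ ρ ^ (n + 2) := by
      rw [hrn, div_le_iff₀ ha0]
      rw [div_le_iff₀ (by positivity)] at ha
      linarith
    exact le_of_pow_le_pow_left₀ (by omega) hρ0.le h1
  have hr2 : r ^ 2 = P * a ^ (-(2 / (n + 2) : ℝ)) := by
    rw [hr, ← Real.rpow_natCast, ← Real.rpow_mul (by positivity), hq, hP,
      Real.rpow_neg ha0.le, ← Real.inv_rpow ha0.le, ← Real.mul_rpow (by positivity) (by positivity)]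
    congr 1
    push_cast
    ring
  have hr2ν : 256 * r ^ 2 / ν ≤ 256 * ρ ^ 2 / ν := by gcongr
  have hBv := H r s hr0 (hrρ.trans hρ1) (by linarith [hs.1]) hs.2
  have h1 : Big n a (u s) ∩ Q ⊆ thickening r (badW K ν r (u s) ∩ Q) := by
    have h0 := big_sub (K := K) (ν := ν) (r := r) (v := u s) n
    rw [hlev] at h0
    exact (inter_subset_inter_left _ h0).trans (self_subset_thickening hr0 _)
  refine (measure_mono h1).trans (hBv.trans ?_)
  have h2 := hwin s (256 * r ^ 2 / ν) (by linarith [hs.1]) hs.2.le (by linarith)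
  refine (mul_le_mul_right h2 _).trans ?_
  rw [← ENNReal.ofReal_mul (by positivity)]
  apply ENNReal.ofReal_le_ofReal
  apply le_of_eq
  rw [hr2, hd]
  field_simp

/-- From labels to neighbourhoods of the bad sets. -/
lemma nbhd {K : ℕ → ℝ} (hK : ∀ n, 0 < K n) {ν r : ℝ} (hν : 0 < ν) (hr : 0 < r) {v : V → V}
    {Q B B' : Set V}
    (hB : ∀ x, x ∉ B → x ∈ thickening r Q → Bds K ν (16 * r) v x)
    (hB' : ∀ x, x ∉ B → x ∉ B' → x ∈ thickening r Q → A2 x (5 * (16 * r)) v ≤ ν ^ 2 * (16 * r)) :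
    thickening r (badW (Kc K) ν r v ∩ Q) ⊆ B ∧
    thickening r (badV (Kc K) ν r v ∩ Q) ⊆ B ∪ B' := by
  have hKc : ∀ n, 0 < Kc K n := fun n => by
    have := hK n
    have := hK (n - 1)
    unfold Kc
    positivity
  have hr16 : r ≤ 16 * r := by linarith
  have h16 : 16 * r / 16 = r := by ring
  constructor
  · intro x hx
    obtain ⟨x', ⟨hx', hx'Q⟩, hd⟩ := mem_thickening_iff.1 hx
    by_contra hxB
    have hxQ : x ∈ thickening r Q := mem_thickening_iff.2 ⟨x', hx'Q, hd⟩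
    obtain ⟨l, i, j, hlt⟩ := badW_mono hKc hν hr hr16 v hx'
    have hb : x' ∈ ball x (16 * r / 16) := by
      rw [h16, mem_ball, dist_comm]
      exact hd
    have := est_vo hK hν (by linarith) (hB x hxB hxQ) hb l i j
    linarith
  · intro x hx
    obtain ⟨x', ⟨hx', hx'Q⟩, hd⟩ := mem_thickening_iff.1 hx
    by_contra hxB
    rw [mem_union, not_or] at hxB
    have hxQ : x ∈ thickening r Q := mem_thickening_iff.2 ⟨x', hx'Q, hd⟩
    obtain ⟨l, hl, i, hlt⟩ := badV_mono hKc hν hr hr16 v hx'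
    have hb : x' ∈ ball x (16 * r / 16) := by
      rw [h16, mem_ball, dist_comm]
      exact hd
    have := est_ve hK hν (by linarith) (hB x hxB.1 hxQ) hb (hB' x hxB.1 hxB.2 hxQ) l hl i
    linarith

/-- The estimates for neighbourhoods of the bad sets. -/
theorem domF : ∃ C : ℝ, 0 < C ∧ ∃ K : ℕ → ℝ, (∀ n, 0 < K n) ∧
    (∀ Ω Q : Set V, IsOpen Ω → IsCompact Q → Q ⊆ Ω → ∃ A : ℝ, 0 < A ∧
      ∀ (ν T E : ℝ) (u : ℝ → V → V) (p : ℝ → V → ℝ), 0 < ν → 0 ≤ E → OSol ν T E Ω u p →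
      ∀ r s : ℝ, 0 < r → A * (1 + E / ν) ^ 2 * r ≤ 1 → 256 * r ^ 2 / ν < s → s < T →
        volume (thickening r (badW K ν r (u s) ∩ Q)) ≤ ENNReal.ofReal (C / ν * r ^ 2) *
          ∫⁻ t in Ioo (s - 256 * r ^ 2 / ν) s, ∫⁻ y in Ω, ENNReal.ofReal (gsq (u t) y) ∧
        volume (thickening r (badV K ν r (u s) ∩ Q)) ≤ ENNReal.ofReal (C * (E * r / ν) ^ 2)
          + ENNReal.ofReal (C / ν * r ^ 2) *
          ∫⁻ t in Ioo (s - 256 * r ^ 2 / ν) s, ∫⁻ y in Ω, ENNReal.ofReal (gsq (u t) y)) ∧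
    ∀ (ν T E : ℝ) (u : ℝ → V → V) (p : ℝ → V → ℝ), 0 < ν → 0 ≤ E → OSol ν T E univ u p →
      ∀ r s : ℝ, 0 < r → 256 * r ^ 2 / ν < s → s < T →
        volume (thickening r (badW K ν r (u s))) ≤ ENNReal.ofReal (C / ν * r ^ 2) *
          ∫⁻ t in Ioo (s - 256 * r ^ 2 / ν) s, ∫⁻ y, ENNReal.ofReal (gsq (u t) y) ∧
        volume (thickening r (badV K ν r (u s))) ≤ ENNReal.ofReal (C * (E * r / ν) ^ 2)
          + ENNReal.ofReal (C / ν * r ^ 2) *
          ∫⁻ t in Ioo (s - 256 * r ^ 2 / ν) s, ∫⁻ y, ENNReal.ofReal (gsq (u t) y) := by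
  obtain ⟨C, hC, K, hK, H1, H2⟩ := domN
  have hbig : ∀ E r ν : ℝ, 1000 * (E ^ 2) * (16 * r / ν) ^ 2
      ≤ (256 * C + 256000) * (E * r / ν) ^ 2 := by
    intro E r ν
    have e : 1000 * (E ^ 2) * (16 * r / ν) ^ 2 = 256000 * (E * r / ν) ^ 2 := by ring
    have h0 : 0 ≤ (E * r / ν) ^ 2 := sq_nonneg _
    rw [e]
    nlinarith
  have hvol : ∀ {ν r : ℝ} {I : ℝ≥0∞} {B : Set V}, 0 < ν →
      volume B ≤ ENNReal.ofReal (C / ν * (16 * r) ^ 2) * I →
      volume B ≤ ENNReal.ofReal ((256 * C + 256000) / ν * r ^ 2) * I := by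
    intro ν r I B hν h
    refine h.trans (mul_le_mul_left (ENNReal.ofReal_le_ofReal ?_) _)
    have e : C / ν * (16 * r) ^ 2 = 256 * C * (r ^ 2 / ν) := by ring
    have e' : (256 * C + 256000) / ν * r ^ 2 = (256 * C + 256000) * (r ^ 2 / ν) := by ring
    rw [e, e']
    have : 0 ≤ r ^ 2 / ν := by positivity
    nlinarith
  have hwin : ∀ r : ℝ, (16 * r) ^ 2 = 256 * r ^ 2 := fun r => by ring
  have hcont : ∀ {ν T E : ℝ} {Ω : Set V} {u : ℝ → V → V} {p : ℝ → V → ℝ}, OSol ν T E Ω u p →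
      ∀ s ∈ Ioo 0 T, ContinuousOn (u s) Ω := by
    intro ν T E Ω u p hS s hs
    exact hS.smooth_u.continuousOn.comp (f := fun x : V => (s, x)) (by fun_prop)
      (fun x hx => ⟨hs, hx⟩)
  refine ⟨256 * C + 256000, by positivity, Kc K, fun n => by
    have := hK n
    have := hK (n - 1)
    unfold Kc
    positivity, ?_, ?_⟩
  · intro Ω Q hΩ hQ hQΩ
    obtain ⟨A, hA, H⟩ := H1 Ω Q hΩ hQ hQΩ
    refine ⟨16 * A, by positivity, ?_⟩
    intro ν T E u p hν hE hS r s hr hAr hrs hsT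
    have hs0 : s ∈ Ioo 0 T := ⟨lt_trans (by positivity) hrs, hsT⟩
    obtain ⟨B, hBm, hBv, hB⟩ := H ν T E u p hν hE hS (16 * r) s (by positivity) (by linarith)
      (by rw [hwin]; exact hrs) hsT
    have h16 : 16 * r / 16 = r := by ring
    rw [h16] at hB
    obtain ⟨B', hBm', hBv', hB'⟩ := second hΩ (hcont hS s hs0) (hS.en_int s hs0) (hS.en s hs0) hν
      (show 0 < 16 * r by positivity)
    obtain ⟨n1, n2⟩ := nbhd hK hν hr (v := u s) (Q := Q) (B := B) (B' := B')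
      (fun x h1 h2 => (hB x h1 h2).2) (fun x h1 h2 h3 => hB' x h2 (hB x h1 h3).1)
    have hBv1 := hvol hν hBv
    rw [hwin] at hBv1
    have hBv2 := hBv'.trans (ENNReal.ofReal_le_ofReal (hbig E r ν))
    exact ⟨(measure_mono n1).trans hBv1,
      ((measure_mono n2).trans (measure_union_le _ _)).trans
        ((add_le_add hBv1 hBv2).trans (add_comm _ _).le)⟩
  · intro ν T E u p hν hE hS r s hr hrs hsT
    have hs0 : s ∈ Ioo 0 T := ⟨lt_trans (by positivity) hrs, hsT⟩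
    obtain ⟨B, hBm, hBv, hB⟩ := H2 ν T E u p hν hE hS (16 * r) s (by positivity)
      (by rw [hwin]; exact hrs) hsT
    obtain ⟨B', hBm', hBv', hB'⟩ := second isOpen_univ (hcont hS s hs0) (hS.en_int s hs0)
      (hS.en s hs0) hν (show 0 < 16 * r by positivity)
    obtain ⟨n1, n2⟩ := nbhd hK hν hr (v := u s) (Q := univ) (B := B) (B' := B')
      (fun x h1 _ => hB x h1) (fun x _ h2 _ => hB' x h2 (subset_univ _))
    rw [inter_univ] at n1 n2
    have hBv1 := hvol hν hBv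
    rw [hwin] at hBv1
    have hBv2 := hBv'.trans (ENNReal.ofReal_le_ofReal (hbig E r ν))
    exact ⟨(measure_mono n1).trans hBv1,
      ((measure_mono n2).trans (measure_union_le _ _)).trans
        ((add_le_add hBv1 hBv2).trans (add_comm _ _).le)⟩

end Pool.Agent.TH305.DR
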