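import Pool.Agent.TH305.DR.Fin2

/-!
Derivative bounds (helper305): periodic solutions, and the final statements.
-/

set_option autoImplicit false

open MeasureTheory Set Metric Filter Topology
open scoped ContDiff ENNReal

namespace Pool.Agent.TH305.DR

open H459R3.NS W221.NS W221.NS.B Pool.Agent.W349.MF

lemma bd3_zero (O : Set V) : Bd3 0 O (fun _ => 0) := by
  have h0 : ∀ i : Fin 3, (fun y : V => (0 : V) i) = fun _ => (0 : ℝ) := fun i => rfl
  have hp : ∀ j : Fin 3, pd j (fun _ : V => (0 : ℝ)) = fun _ => 0 := pd_const' 0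
  intro x _ i
  refine ⟨by simp, fun j => ?_, fun j k => ?_, fun j k l => ?_⟩
  · show |pd j (fun _ => (0 : ℝ)) x| ≤ 0
    rw [hp]
    simp
  · show |pd j (pd k (fun _ => (0 : ℝ))) x| ≤ 0
    rw [hp, hp]
    simp
  · show |pd j (pd k (pd l (fun _ => (0 : ℝ)))) x| ≤ 0
    rw [hp, hp, hp]
    simp

/-- A periodic solution on the ball. -/
lemma per_osol {ν T : ℝ} {u : ℝ → V → V} {p : ℝ → V → ℝ} (hν : 0 < ν) (hT : 0 < T)
    (h : IsSol ν T u p) : OSol ν T (15 * √(energy (u 0))) (ball 0 3) u p := by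
  have hF : IsSolF ν T 0 u p (fun _ _ => 0) :=
    { smooth_u := h.smooth_u
      smooth_p := h.smooth_p
      per_u := h.per_u
      per_p := h.per_p
      divfree := h.divfree
      momentum := fun t ht x i => by
        rw [h.momentum t ht x i]
        simp
      force := fun t _ => bd3_zero univ }
  have he0 : 0 ≤ energy (u 0) := Finset.sum_nonneg fun i _ => integral_nonneg fun x => sq_nonneg _
  have hO := p_pero.1 ν T (√(energy (u 0))) 0 u p _ hT (Real.sqrt_nonneg _) hF (fun t ht => by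
    rw [Real.sq_sqrt he0]
    exact h.energy_le hν ⟨ht.1.le, ht.2⟩)
  exact
    { openO := hO.openO
      smooth_u := hO.smooth_u
      smooth_p := hO.smooth_p
      divfree := hO.divfree
      momentum := fun t ht x hx i => by
        rw [hO.momentum t ht x hx i]
        simp
      en_int := hO.en_int
      en := hO.en }

/-- The dissipation of a periodic solution. -/
lemma per_diss {ν T : ℝ} {u : ℝ → V → V} {p : ℝ → V → ℝ} (hν : 0 < ν) (hT : 0 < T)
    (h : IsSol ν T u p) {a b : ℝ} (ha : 0 ≤ a) (hb : b ≤ T) :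
    ∫⁻ t in Ioo a b, ∫⁻ y in ball (0 : V) 3, ENNReal.ofReal (gsq (u t) y)
      = ENNReal.ofReal (216 * ∫ t in Ioo a b, enstrophy (u t)) := by
  have hsub : Ioo a b ⊆ Ioo 0 T := Ioo_subset_Ioo ha hb
  have hint := (p_enst ν T u p hν hT h).mono_set hsub
  rw [← integral_const_mul, ofReal_integral_eq_lintegral_ofReal
    (hint.const_mul 216) (Eventually.of_forall fun t => by
      have := W221.NS.enstrophy_nonneg (u t)
      positivity)]
  apply setLIntegral_congr_fun measurableSet_Ioo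
  intro t ht
  have ht' := hsub ht
  exact p_pero.2 _ ⟨slice_ico h.smooth_u ⟨ht'.1.le, ht'.2⟩, h.per_u t ⟨ht'.1.le, ht'.2⟩⟩

/-- The final statements. -/
theorem final : ∃ C : ℝ, 0 < C ∧ ∃ K : ℕ → ℝ, (∀ n, 0 < K n) ∧
    -- solutions in the whole space
    (∀ (ν T E : ℝ) (u : ℝ → V → V) (p : ℝ → V → ℝ), 0 < ν → 0 ≤ E → OSol ν T E univ u p →
      (∀ r s : ℝ, 0 < r → 256 * r ^ 2 / ν < s → s < T →
        volume (thickening r (badW K ν r (u s))) ≤ ENNReal.ofReal (C / ν * r ^ 2) *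
          ∫⁻ t in Ioo (s - 256 * r ^ 2 / ν) s, ∫⁻ y, ENNReal.ofReal (gsq (u t) y) ∧
        volume (thickening r (badV K ν r (u s))) ≤ ENNReal.ofReal (C * (E * r / ν) ^ 2)
          + ENNReal.ofReal (C / ν * r ^ 2) *
            ∫⁻ t in Ioo (s - 256 * r ^ 2 / ν) s, ∫⁻ y, ENNReal.ofReal (gsq (u t) y)) ∧
      (∫⁻ t in Ioo 0 T, ∫⁻ y, ENNReal.ofReal (gsq (u t) y) ≠ ⊤ →
        ∀ (n : ℕ) (s₀ ε : ℝ), 0 < s₀ → 0 < ε → ∃ L : ℝ, 0 < L ∧ ∀ a : ℝ, L ≤ a →
          ∀ s ∈ Ioo s₀ T, volume (Big n a (u s))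
            ≤ ENNReal.ofReal (ε * a ^ (-(2 / (n + 2) : ℝ))))) ∧
    -- periodic solutions
    (∀ (ν T : ℝ) (u : ℝ → V → V) (p : ℝ → V → ℝ), 0 < ν → IsSol ν T u p →
      (∀ r s : ℝ, 0 < r → C * (1 + energy (u 0) / ν ^ 2) * r ≤ 1 → 256 * r ^ 2 / ν < s → s < T →
        volume (thickening r (badW K ν r (u s) ∩ cube)) ≤ ENNReal.ofReal (C / ν * r ^ 2 *
          ∫ t in Ioo (s - 256 * r ^ 2 / ν) s, enstrophy (u t)) ∧
        volume (thickening r (badV K ν r (u s) ∩ cube)) ≤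
          ENNReal.ofReal (C * energy (u 0) * (r / ν) ^ 2)
          + ENNReal.ofReal (C / ν * r ^ 2 *
            ∫ t in Ioo (s - 256 * r ^ 2 / ν) s, enstrophy (u t))) ∧
      ∀ (n : ℕ) (s₀ ε : ℝ), 0 < s₀ → 0 < ε → ∃ L : ℝ, 0 < L ∧ ∀ a : ℝ, L ≤ a →
        ∀ s ∈ Ioo s₀ T, volume (Big n a (u s) ∩ cube)
          ≤ ENNReal.ofReal (ε * a ^ (-(2 / (n + 2) : ℝ)))) ∧
    -- solutions in a domain
    ∀ Ω Q : Set V, IsOpen Ω → IsCompact Q → Q ⊆ Ω → ∃ A : ℝ, 0 < A ∧
      ∀ (ν T E : ℝ) (u : ℝ → V → V) (p : ℝ → V → ℝ), 0 < ν → 0 ≤ E → OSol ν T E Ω u p →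
      (∀ r s : ℝ, 0 < r → A * (1 + E / ν) ^ 2 * r ≤ 1 → 256 * r ^ 2 / ν < s → s < T →
        volume (thickening r (badW K ν r (u s) ∩ Q)) ≤ ENNReal.ofReal (C / ν * r ^ 2) *
          ∫⁻ t in Ioo (s - 256 * r ^ 2 / ν) s, ∫⁻ y in Ω, ENNReal.ofReal (gsq (u t) y) ∧
        volume (thickening r (badV K ν r (u s) ∩ Q)) ≤ ENNReal.ofReal (C * (E * r / ν) ^ 2)
          + ENNReal.ofReal (C / ν * r ^ 2) *
            ∫⁻ t in Ioo (s - 256 * r ^ 2 / ν) s, ∫⁻ y in Ω, ENNReal.ofReal (gsq (u t) y)) ∧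
      (∫⁻ t in Ioo 0 T, ∫⁻ y in Ω, ENNReal.ofReal (gsq (u t) y) ≠ ⊤ →
        ∀ (n : ℕ) (s₀ ε : ℝ), 0 < s₀ → 0 < ε → ∃ L : ℝ, 0 < L ∧ ∀ a : ℝ, L ≤ a →
          ∀ s ∈ Ioo s₀ T, volume (Big n a (u s) ∩ Q)
            ≤ ENNReal.ofReal (ε * a ^ (-(2 / (n + 2) : ℝ)))) := by
  obtain ⟨C, hC, K, hK, H1, H2⟩ := domF
  have hcc : IsCompact cube := isCompact_Icc
  obtain ⟨A, hA, HP⟩ := H1 (ball 0 3) cube isOpen_ball hcc cube_sub
  have hCA : 0 < 225 * C + 450 * A := by positivity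
  have hle : C ≤ 225 * C + 450 * A := by linarith
  have hvol : ∀ {ν r : ℝ} {I : ℝ≥0∞}, 0 < ν → ENNReal.ofReal (C / ν * r ^ 2) * I
      ≤ ENNReal.ofReal ((225 * C + 450 * A) / ν * r ^ 2) * I := by
    intro ν r I hν
    refine mul_le_mul_left (ENNReal.ofReal_le_ofReal ?_) _
    gcongr
  have hvol' : ∀ a : ℝ, ENNReal.ofReal (C * a ^ 2)
      ≤ ENNReal.ofReal ((225 * C + 450 * A) * a ^ 2) := by
    intro a
    refine ENNReal.ofReal_le_ofReal ?_
    gcongr
  refine ⟨225 * C + 450 * A, hCA, K, hK, ?_, ?_, ?_⟩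
  · intro ν T E u p hν hE hS
    refine ⟨fun r s hr hrs hsT => ?_, fun hfin n s₀ ε hs₀ hε => ?_⟩
    · obtain ⟨h1, h2⟩ := H2 ν T E u p hν hE hS r s hr hrs hsT
      exact ⟨h1.trans (hvol hν), h2.trans (add_le_add (hvol' _) (hvol hν))⟩
    · have h3 := weak_form (Q := univ) (u := u) hK hC hν one_pos hfin (fun r s hr _ hrs hsT => by
        obtain ⟨h1, h2⟩ := H2 ν T E u p hν hE hS r s hr hrs hsT
        rw [inter_univ]
        exact h1) n hs₀ hε
      simpa only [inter_univ] using h3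
  · intro ν T u p hν hS
    have he0 : 0 ≤ energy (u 0) := Finset.sum_nonneg fun i _ => integral_nonneg fun x => sq_nonneg _
    have hE0 : 0 ≤ 15 * √(energy (u 0)) := by positivity
    have hsm : ∀ r : ℝ, 0 < r → (225 * C + 450 * A) * (1 + energy (u 0) / ν ^ 2) * r ≤ 1 →
        A * (1 + 15 * √(energy (u 0)) / ν) ^ 2 * r ≤ 1 := by
      intro r hr h
      refine le_trans ?_ h
      have h1 : (1 + 15 * √(energy (u 0)) / ν) ^ 2 ≤ 450 * (1 + energy (u 0) / ν ^ 2) := by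
        have h2 : energy (u 0) / ν ^ 2 = (√(energy (u 0)) / ν) ^ 2 := by
          rw [div_pow, Real.sq_sqrt he0]
        rw [h2]
        have h3 : 0 ≤ √(energy (u 0)) / ν := by positivity
        have h4 : 15 * √(energy (u 0)) / ν = 15 * (√(energy (u 0)) / ν) := by ring
        rw [h4]
        nlinarith [sq_nonneg (1 - 15 * (√(energy (u 0)) / ν))]
      have h5 : 0 ≤ energy (u 0) / ν ^ 2 := by positivity
      calc A * (1 + 15 * √(energy (u 0)) / ν) ^ 2 * r
          ≤ A * (450 * (1 + energy (u 0) / ν ^ 2)) * r := by gcongr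
        _ ≤ (225 * C + 450 * A) * (1 + energy (u 0) / ν ^ 2) * r := by
          have : 0 ≤ 225 * C * (1 + energy (u 0) / ν ^ 2) * r := by positivity
          linarith
    have key : ∀ r s : ℝ, 0 < r → (225 * C + 450 * A) * (1 + energy (u 0) / ν ^ 2) * r ≤ 1 →
        256 * r ^ 2 / ν < s → s < T →
        volume (thickening r (badW K ν r (u s) ∩ cube)) ≤ ENNReal.ofReal (C / ν * r ^ 2) *
          ∫⁻ t in Ioo (s - 256 * r ^ 2 / ν) s,
            ∫⁻ y in ball (0 : V) 3, ENNReal.ofReal (gsq (u t) y) ∧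
        volume (thickening r (badV K ν r (u s) ∩ cube)) ≤
          ENNReal.ofReal (C * (15 * √(energy (u 0)) * r / ν) ^ 2)
          + ENNReal.ofReal (C / ν * r ^ 2) * ∫⁻ t in Ioo (s - 256 * r ^ 2 / ν) s,
            ∫⁻ y in ball (0 : V) 3, ENNReal.ofReal (gsq (u t) y) := by
      intro r s hr hr1 hrs hsT
      have hT : 0 < T := lt_trans (lt_trans (by positivity) hrs) hsT
      exact HP ν T (15 * √(energy (u 0))) u p hν hE0 (per_osol hν hT hS) r s hr (hsm r hr hr1)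
        hrs hsT
    have hdis : ∀ r s : ℝ, 0 < r → 256 * r ^ 2 / ν < s → s < T → ENNReal.ofReal (C / ν * r ^ 2) *
        (∫⁻ t in Ioo (s - 256 * r ^ 2 / ν) s,
          ∫⁻ y in ball (0 : V) 3, ENNReal.ofReal (gsq (u t) y))
        ≤ ENNReal.ofReal ((225 * C + 450 * A) / ν * r ^ 2 *
          ∫ t in Ioo (s - 256 * r ^ 2 / ν) s, enstrophy (u t)) := by
      intro r s hr hrs hsT
      have hT : 0 < T := lt_trans (lt_trans (by positivity) hrs) hsT
      have hi0 : 0 ≤ ∫ t in Ioo (s - 256 * r ^ 2 / ν) s, enstrophy (u t) :=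
        integral_nonneg fun t => W221.NS.enstrophy_nonneg _
      rw [per_diss hν hT hS (by linarith) hsT.le, ← ENNReal.ofReal_mul (by positivity)]
      apply ENNReal.ofReal_le_ofReal
      have h6 : 0 ≤ (9 * C + 450 * A) * (r ^ 2 / ν *
          ∫ t in Ioo (s - 256 * r ^ 2 / ν) s, enstrophy (u t)) := by
        positivity
      calc C / ν * r ^ 2 * (216 * ∫ t in Ioo (s - 256 * r ^ 2 / ν) s, enstrophy (u t))
          = 216 * C * (r ^ 2 / ν * ∫ t in Ioo (s - 256 * r ^ 2 / ν) s, enstrophy (u t)) := by ring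
        _ ≤ 216 * C * (r ^ 2 / ν * ∫ t in Ioo (s - 256 * r ^ 2 / ν) s, enstrophy (u t))
            + (9 * C + 450 * A) * (r ^ 2 / ν *
              ∫ t in Ioo (s - 256 * r ^ 2 / ν) s, enstrophy (u t)) := by
          linarith
        _ = _ := by ring
    refine ⟨?_, ?_⟩
    · intro r s hr hr1 hrs hsT
      obtain ⟨h1, h2⟩ := key r s hr hr1 hrs hsT
      have h3 := hdis r s hr hrs hsT
      refine ⟨h1.trans h3, h2.trans (add_le_add (ENNReal.ofReal_le_ofReal ?_) h3)⟩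
      have e : (15 * √(energy (u 0)) * r / ν) ^ 2 = 225 * energy (u 0) * (r / ν) ^ 2 := by
        have : (15 * √(energy (u 0)) * r / ν) ^ 2
            = 225 * (√(energy (u 0)) ^ 2) * (r / ν) ^ 2 := by ring
        rw [this, Real.sq_sqrt he0]
      rw [e]
      have h6 : 0 ≤ 450 * A * (energy (u 0) * (r / ν) ^ 2) := by positivity
      have h7 : C * (225 * energy (u 0) * (r / ν) ^ 2)
        = 225 * C * (energy (u 0) * (r / ν) ^ 2) := by ring
      rw [h7]
      linarith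
    · intro n s₀ ε hs₀ hε
      rcases le_or_gt T 0 with hT | hT
      · exact ⟨1, one_pos, fun a _ s hs => by
          exfalso
          linarith [hs.1, hs.2]⟩
      have hr₀ : 0 < 1 / ((225 * C + 450 * A) * (1 + energy (u 0) / ν ^ 2)) := by positivity
      have hfin : ∫⁻ t in Ioo 0 T, ∫⁻ y in ball (0 : V) 3, ENNReal.ofReal (gsq (u t) y) ≠ ⊤ := by
        rw [per_diss hν hT hS le_rfl le_rfl]
        exact ENNReal.ofReal_ne_top
      refine weak_form hK hC hν hr₀ hfin (fun r s hr hrr hrs hsT => ?_) n hs₀ hε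
      have hr1 : (225 * C + 450 * A) * (1 + energy (u 0) / ν ^ 2) * r ≤ 1 := by
        rw [le_div_iff₀ (by positivity)] at hrr
        linarith
      exact (key r s hr hr1 hrs hsT).1
  · intro Ω Q hΩ hQ hQΩ
    obtain ⟨A', hA', H⟩ := H1 Ω Q hΩ hQ hQΩ
    refine ⟨A', hA', ?_⟩
    intro ν T E u p hν hE hS
    refine ⟨fun r s hr hr1 hrs hsT => ?_, fun hfin n s₀ ε hs₀ hε => ?_⟩
    · obtain ⟨h1, h2⟩ := H ν T E u p hν hE hS r s hr hr1 hrs hsT
      exact ⟨h1.trans (hvol hν), h2.trans (add_le_add (hvol' _) (hvol hν))⟩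
    · have hr₀ : 0 < 1 / (A' * (1 + E / ν) ^ 2) := by positivity
      refine weak_form hK hC hν hr₀ hfin (fun r s hr hrr hrs hsT => ?_) n hs₀ hε
      have hr1 : A' * (1 + E / ν) ^ 2 * r ≤ 1 := by
        rw [le_div_iff₀ (by positivity)] at hrr
        linarith
      exact (H ν T E u p hν hE hS r s hr hr1 hrs hsT).1

end Pool.Agent.TH305.DR
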