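import Pool.Agent.TH305.DR.Fix1

/-!
Derivative bounds (helper305): the estimate at the end point of a path along which little is
dissipated.
-/

set_option autoImplicit false

open MeasureTheory Set Metric Filter Topology
open scoped ContDiff ENNReal

namespace Pool.Agent.TH305.DR

open H459R3.NS W221.NS
open Pool.Agent.W583.MD (sm_pd)

/-- The estimate at the end point of a path along which little is dissipated. -/
theorem fixP : ∃ ε : ℝ, 0 < ε ∧ ∃ (C : ℕ → ℝ) (CA : ℝ), (∀ n, 0 < C n) ∧ 0 < CA ∧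
    ∀ (T κ E : ℝ) (O : Set V) (u : ℝ → V → V) (p : ℝ → V → ℝ), LSol T κ E O u p →
      ∀ r s : ℝ, 0 < r → r ^ 2 < s → s < T → ∀ Y : ℝ → V,
      Pool.Agent.TH305.LW.Pth r u (s - r ^ 2) s Y →
      (∀ t ∈ Ioo (s - r ^ 2) s, ball (Y t) (8 * r) ⊆ O) →
      Pool.Agent.TH305.LW.ms u r Y (s - r ^ 2) s ≤ ε → ∀ z ∈ ball (0 : V) (1 / 16), ∀ n,
        r ^ (2 * n + 4) * ST n (u s) (Y s + r • z) ≤ C n ∧
        r ^ (2 * n + 4) * SV (n + 1) (u s) (Y s + r • z)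
          ≤ C (n + 1) * (1 + CA * r⁻¹ * A2 (Y s) (5 * r) (u s)) := by
  obtain ⟨ε, hε, C, hC, hloc⟩ := loc_all
  obtain ⟨CA, hCA, hA2⟩ := A2_loc
  refine ⟨ε, hε, C, CA, hC, hCA, ?_⟩
  intro T κ E O u p hL r s hr hrs hsT Y hPth hball hms z hz n
  have hu := hL.smooth_u
  have hr2 : 0 < r ^ 2 := by positivity
  have hα : 0 < s - r ^ 2 := by linarith
  have hL2 := W221.NS.B.p_frame2 T κ E O u p hL r s hr hrs hsT Y hPth.smooth
    (fun t ht => hPth.ode t ht) hball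
  have hInt := Pool.Agent.TH305.LW.frame_int (r := r) (s := s) hu hr hα le_rfl le_rfl hsT
    hPth.cont
  have hle : ∫ t in Ioo (-1) 0, B2 0 8 (frv r s Y u t) ≤ ε := by
    rw [Pool.Agent.TH305.LW.ms_eq hu hr hα hsT Y]
    exact hms
  have hall := hloc _ _ hL2 hInt hle
  have hYs : Tendsto Y (𝓝[<] s) (𝓝 (Y s)) := by
    have c1 : ContinuousWithinAt Y (Icc (s - r ^ 2) s) s := hPth.cont s ⟨by linarith, le_rfl⟩
    have c2 : ContinuousWithinAt Y (Iio s) s := by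
      apply c1.mono_of_mem_nhdsWithin
      apply mem_of_superset (Ioo_mem_nhdsLT (show s - r ^ 2 < s by linarith))
      exact Ioo_subset_Icc_self
    exact c2
  have e1 : ∀ᶠ τ in 𝓝[<] s, τ ∈ Ioo (s - r ^ 2 / 32) s := Ioo_mem_nhdsLT (by linarith)
  have e2 : ∀ᶠ τ in 𝓝[<] s, dist (Y τ) (Y s) < r := hYs.eventually (ball_mem_nhds (Y s) hr)
  refine lim_bd (Y := fun τ => Y τ + r • z) (x := Y s) hu (by linarith) hsT
    (show s - r ^ 2 < s by linarith) (hPth.cont.add continuousOn_const) n ?_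
  filter_upwards [e1, e2] with τ hτ hτ2
  obtain ⟨t, ht⟩ : ∃ t, t = (τ - s) / r ^ 2 := ⟨_, rfl⟩
  have e3 : s + r ^ 2 * t = τ := by
    rw [ht]
    field_simp
    ring
  have ht' : t ∈ Ioo (-1 / 32 : ℝ) 0 := by
    rw [ht]
    constructor
    · rw [lt_div_iff₀ hr2]
      linarith [hτ.1]
    · exact div_neg_of_neg_of_pos (by linarith [hτ.2]) hr2
  have hτT : τ ∈ Ioo 0 T := ⟨by linarith [hτ.1], hτ.2.trans hsT⟩
  have hτm : τ ∈ Ioo (s - r ^ 2) s := ⟨by linarith [hτ.1], hτ.2⟩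
  obtain ⟨a1, -⟩ := hall n t ht' z hz
  obtain ⟨-, a2⟩ := hall (n + 1) t ht' z hz
  have hd : HasDerivAt Y (mol r u τ (Y τ)) τ := hPth.ode τ hτm
  have hdis : ‖Y s - Y τ‖ ≤ r := by
    rw [← dist_eq_norm, dist_comm]
    exact hτ2.le
  rw [← e3] at hτT hd hdis ⊢
  have := pbd hu hr (hC (n + 1)).le hCA.le hA2 hτT hd n z a1 a2 hdis
  rw [← mul_assoc] at this
  exact this

end Pool.Agent.TH305.DR
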