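import Pool.Agent.TH305.DR.Meas
import Pool.Agent.TH305.DR.Fix2

/-!
Derivative bounds (helper305): the estimate at a fixed time, for local solutions.
-/

set_option autoImplicit false

open MeasureTheory Set Metric Filter Topology
open scoped ContDiff ENNReal

namespace Pool.Agent.TH305.DR

open H459R3.NS W221.NS
open Pool.Agent.W583.MD (sm_pd)

/-- The size of the exceptional set. -/
lemma cheb {F : V → ℝ≥0∞} {D : ℝ≥0∞} {ε r C : ℝ} (hε : 0 < ε) (hr : 0 < r) (hC : 0 ≤ C)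
    (hFm : Measurable F) (hFi : ∫⁻ x, F x ≤ ENNReal.ofReal 3 * ENNReal.ofReal (4096 * r ^ 3) * D) :
    volume {x | ENNReal.ofReal (ε * r) ≤ F x}
      ≤ ENNReal.ofReal ((C + 3 * 4096 / ε) * r ^ 2) * D := by
  have hεr : 0 < ε * r := by positivity
  have h1 := meas_ge_le_lintegral_div hFm.aemeasurable (ε := ENNReal.ofReal (ε * r))
    (μ := (volume : Measure V)) (by simpa using hεr) ENNReal.ofReal_ne_top
  refine h1.trans ?_
  rw [ENNReal.div_le_iff (by simpa using hεr) ENNReal.ofReal_ne_top]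
  refine hFi.trans ?_
  rw [mul_comm (ENNReal.ofReal ((C + 3 * 4096 / ε) * r ^ 2) * D), ← mul_assoc]
  apply mul_le_mul_left
  rw [← ENNReal.ofReal_mul (by norm_num), ← ENNReal.ofReal_mul (by positivity)]
  apply ENNReal.ofReal_le_ofReal
  have h2 : ε * (3 * 4096 / ε) = 3 * 4096 := by field_simp
  have h3 : 0 ≤ r ^ 3 * (ε * C) := by positivity
  calc 3 * (4096 * r ^ 3) = r ^ 3 * (ε * (3 * 4096 / ε)) := by rw [h2]; ring
    _ ≤ r ^ 3 * (ε * (3 * 4096 / ε)) + r ^ 3 * (ε * C) := by linarith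
    _ = _ := by ring

/-- Paths stay close. -/
lemma ball_path {x z : V} {M ρ r R : ℝ} {O : Set V} (h : ‖x - z‖ ≤ M) (hR : ρ * r + M ≤ R)
    (hO : ball x R ⊆ O) : ball z (ρ * r) ⊆ O := by
  refine subset_trans ?_ hO
  intro y hy
  rw [mem_ball, dist_eq_norm] at hy ⊢
  have h3 : ‖y - x‖ ≤ ‖y - z‖ + ‖x - z‖ := by
    have : y - x = (y - z) - (x - z) := by abel
    rw [this]
    exact norm_sub_le _ _
  linarith

/-- Small dissipation along a path, from the labelled form. -/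
lemma ms_small {T : ℝ} {O : Set V} {u : ℝ → V → V}
    (hu : ContDiffOn ℝ ∞ (fun z : ℝ × V => u z.1 z.2) (Ioo 0 T ×ˢ univ)) {r s ε : ℝ}
    (hr : 0 < r) (hα : 0 < s - r ^ 2) (hsT : s < T) (hε : 0 < ε) {Y : ℝ → V}
    (hY : ContinuousOn Y (Icc (s - r ^ 2) s))
    (hball : ∀ t ∈ Ioo (s - r ^ 2) s, ball (Y t) (8 * r) ⊆ O)
    (hF : ∫⁻ τ in Ioo (s - r ^ 2) s, ∫⁻ y in ball (Y τ) (8 * r) ∩ O,
      ENNReal.ofReal (gsq (u τ) y) < ENNReal.ofReal (ε * r)) :
    Pool.Agent.TH305.LW.ms u r Y (s - r ^ 2) s ≤ ε := by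
  have hr2 : 0 < r ^ 2 := by positivity
  have h1 := Pool.Agent.TH305.LW.ms_lint hu hα hsT hY hr le_rfl (by linarith) le_rfl
  have h2 : ∫⁻ τ in Ioo (s - r ^ 2) s, ∫⁻ y in ball (Y τ) (8 * r),
      ENNReal.ofReal (gsq (u τ) y) = ∫⁻ τ in Ioo (s - r ^ 2) s, ∫⁻ y in ball (Y τ) (8 * r) ∩ O,
      ENNReal.ofReal (gsq (u τ) y) := by
    apply setLIntegral_congr_fun measurableSet_Ioo
    intro τ hτ
    have : ball (Y τ) (8 * r) ∩ O = ball (Y τ) (8 * r) :=
      inter_eq_left.2 (hball τ hτ)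
    show ∫⁻ y in ball (Y τ) (8 * r), ENNReal.ofReal (gsq (u τ) y)
      = ∫⁻ y in ball (Y τ) (8 * r) ∩ O, ENNReal.ofReal (gsq (u τ) y)
    rw [this]
  rw [← h2, ← h1] at hF
  have hεr : 0 < ε * r := by positivity
  have h3 := (ENNReal.ofReal_lt_ofReal_iff hεr).1 hF
  rw [mul_comm ε r] at h3
  exact (lt_of_mul_lt_mul_left h3 hr.le).le

/-- The estimate at a fixed time. -/
theorem fixT : ∃ C0 : ℝ, 0 < C0 ∧ ∃ K : ℕ → ℝ, (∀ n, 0 < K n) ∧
    ∀ (T κ E : ℝ) (O : Set V) (u : ℝ → V → V) (p : ℝ → V → ℝ), 0 ≤ κ → 0 ≤ E →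
      LSol T κ E O u p → ∀ r s : ℝ, 0 < r → r ^ 2 < s → s < T → C0 * κ * √r ≤ 1 →
      ∃ B : Set V, MeasurableSet B ∧
        volume B ≤ ENNReal.ofReal (C0 * r ^ 2) *
          ∫⁻ τ in Ioo (s - r ^ 2) s, ∫⁻ y in O, ENNReal.ofReal (gsq (u τ) y) ∧
        ∀ x, x ∉ B → ball x (C0 * (r + E * √r)) ⊆ O → ∀ x' ∈ ball x (r / 16), ∀ n,
          r ^ (2 * n + 4) * ST n (u s) x' ≤ K n ∧
          r ^ (2 * n + 4) * SV (n + 1) (u s) x' ≤ K n * (1 + r⁻¹ * A2 x (5 * r) (u s)) := by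
  obtain ⟨ε, hε, C, CA, hC, hCA, hP⟩ := fixP
  obtain ⟨CM, hCM, hmol⟩ := W221.NS.B.p_moll2
  refine ⟨8 + CM + 3 * 4096 / ε, by positivity, fun n => C n + C (n + 1) * (1 + CA), fun n => by
    have := hC n
    have := hC (n + 1)
    positivity, ?_⟩
  intro T κ E O u p hκ hE hL r s hr hrs hsT hκr
  have hu := hL.smooth_u
  have hr2 : 0 < r ^ 2 := by positivity
  have hsr0 : 0 < √r := Real.sqrt_pos.2 hr
  have hss : √r * √r = r := Real.mul_self_sqrt hr.le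
  have hsr : √(r ^ 3) = r * √r := by
    rw [show r ^ 3 = r ^ 2 * r by ring, Real.sqrt_mul (by positivity), Real.sqrt_sq hr.le]
  obtain ⟨L, hgood⟩ := hmol T κ E O u p hκ hE hL r hr
  have hMr : CM * E / √(r ^ 3) * r ^ 2 = CM * E * √r := by
    rw [hsr, div_mul_eq_mul_div, div_eq_iff (by positivity)]
    calc CM * E * r ^ 2 = CM * E * (r * (√r * √r)) := by rw [hss]; ring
      _ = _ := by ring
  have hq0 : 0 ≤ 3 * 4096 / ε := by positivity
  have hκ' : CM * κ / √(r ^ 3) * r ^ 2 ≤ 1 := by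
    have e : CM * κ / √(r ^ 3) * r ^ 2 = CM * κ * √r := by
      rw [hsr, div_mul_eq_mul_div, div_eq_iff (by positivity)]
      calc CM * κ * r ^ 2 = CM * κ * (r * (√r * √r)) := by rw [hss]; ring
        _ = _ := by ring
    rw [e]
    refine le_trans ?_ hκr
    gcongr
    linarith
  have hα : 0 < s - r ^ 2 := by linarith
  obtain ⟨X, hX⟩ := W221.NS.B.p_flowx2 T _ L _ _ hgood (s - r ^ 2) s hα (by linarith) hsT
  have hmap0 := W221.NS.B.p_flowm2 T _ L _ _ hgood (s - r ^ 2) s hα (by linarith) hsT X hX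
  have hmap : ∀ t ∈ Icc (s - r ^ 2) s, Measure.map (X t) volume
      ≤ ENNReal.ofReal 3 • (volume : Measure V) := by
    intro t ht
    refine (hmap0 t ht).trans ?_
    have h1 : Real.exp (CM * κ / √(r ^ 3) * (s - (s - r ^ 2))) ≤ 3 := by
      have e : s - (s - r ^ 2) = r ^ 2 := by ring
      rw [e]
      calc Real.exp (CM * κ / √(r ^ 3) * r ^ 2) ≤ Real.exp 1 := Real.exp_le_exp.2 hκ'
        _ ≤ 3 := by
          have := Real.exp_one_lt_d9
          linarith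
    intro A
    simp only [Measure.smul_apply, smul_eq_mul]
    exact mul_le_mul_left (ENNReal.ofReal_le_ofReal h1) _
  obtain ⟨hFm, hFi⟩ := mark5 hL.openO hu hr hα (by linarith) hsT hX.cont hmap
  refine ⟨{x | ENNReal.ofReal (ε * r) ≤ ∫⁻ τ in Ioo (s - r ^ 2) s,
    ∫⁻ y in ball (X τ x) (8 * r) ∩ O, ENNReal.ofReal (gsq (u τ) y)},
    measurableSet_le measurable_const hFm,
    cheb hε hr (show 0 ≤ 8 + CM by linarith) hFm hFi, ?_⟩
  intro x hxB hxO x' hx' n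
  have hFx : ∫⁻ τ in Ioo (s - r ^ 2) s, ∫⁻ y in ball (X τ x) (8 * r) ∩ O,
      ENNReal.ofReal (gsq (u τ) y) < ENNReal.ofReal (ε * r) := by
    rw [mem_setOf_eq, not_le] at hxB
    exact hxB
  have hMb : ∀ t ∈ Ioo (s - r ^ 2) s, ∀ x, ‖mol r u t x‖ ≤ CM * E / √(r ^ 3) :=
    fun t ht x => hgood.bd t ⟨by linarith [ht.1], ht.2.trans hsT⟩ x
  have hM0 : 0 ≤ CM * E / √(r ^ 3) := by positivity
  have hball : ∀ t ∈ Ioo (s - r ^ 2) s, ball (X t x) (8 * r) ⊆ O := by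
    intro t ht
    have hdis : ‖x - X t x‖ ≤ CM * E / √(r ^ 3) * (s - t) := by
      have := W382.ME.speed hX hMb ht x
      rwa [hX.fin x] at this
    have h2 : CM * E / √(r ^ 3) * (s - t) ≤ CM * E * √r := by
      rw [← hMr]
      exact mul_le_mul_of_nonneg_left (by linarith [ht.1]) hM0
    refine ball_path (hdis.trans h2) ?_ hxO
    have h4 : 0 ≤ E * √r := by positivity
    have h5 : 0 ≤ (CM + 3 * 4096 / ε) * r := by positivity
    have h6 : 0 ≤ (8 + 3 * 4096 / ε) * (E * √r) := by positivity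
    linarith only [h4, h5, h6]
  have hPth : Pool.Agent.TH305.LW.Pth r u (s - r ^ 2) s (fun τ => X τ x) :=
    Pool.Agent.TH305.LW.Pth.ofFlow hX x
  have hms := ms_small hu hr hα hsT hε hPth.cont hball hFx
  have hz : r⁻¹ • (x' - x) ∈ ball (0 : V) (1 / 16) := by
    rw [mem_ball, dist_eq_norm] at hx'
    rw [mem_ball_zero_iff, norm_smul, Real.norm_eq_abs, abs_of_pos (inv_pos.2 hr)]
    calc r⁻¹ * ‖x' - x‖ < r⁻¹ * (r / 16) := by gcongr
      _ = 1 / 16 := by field_simp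
  have hzx : x + r • (r⁻¹ • (x' - x)) = x' := by
    rw [smul_smul, mul_inv_cancel₀ hr.ne', one_smul, add_sub_cancel]
  obtain ⟨r1, r2⟩ := hP T κ E O u p hL r s hr hrs hsT (fun τ => X τ x) hPth hball hms _ hz n
  have hfin : X s x = x := hX.fin x
  simp only [hfin, hzx] at r1 r2
  have p1 := hC n
  have p2 := hC (n + 1)
  have p3 : 0 ≤ r⁻¹ * A2 x (5 * r) (u s) := mul_nonneg (by positivity) (A2_nonneg _ _ _)
  refine ⟨r1.trans ?_, r2.trans ?_⟩
  · have : 0 ≤ C (n + 1) * (1 + CA) := by positivity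
    linarith only [this]
  · have q1 : 0 ≤ C (n + 1) * CA := by positivity
    have q2 : 0 ≤ (C n + C (n + 1)) * (r⁻¹ * A2 x (5 * r) (u s)) := by positivity
    have e : CA * r⁻¹ * A2 x (5 * r) (u s) = CA * (r⁻¹ * A2 x (5 * r) (u s)) := by ring
    rw [e]
    generalize r⁻¹ * A2 x (5 * r) (u s) = a at *
    linarith only [q1, q2, p1]

end Pool.Agent.TH305.DR
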