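import Pool.Agent.TH305.DR.Loc
import Pool.Agent.TH305.LW.Loc

/-!
Derivative bounds (helper305): scaling and the limit at the final time.
-/

set_option autoImplicit false

open MeasureTheory Set Metric Filter Topology
open scoped ContDiff

namespace Pool.Agent.TH305.DR

open H459R3.NS W221.NS
open Pool.Agent.W583.MD (sm_pd)

section js
variable {T : ℝ}

lemma opnT (T : ℝ) : IsOpen (Ioo 0 T ×ˢ (univ : Set V)) := isOpen_Ioo.prod isOpen_univ

/-- Joint smoothness of a spatial derivative. -/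
lemma pd_js {f : ℝ → V → ℝ}
    (hf : ContDiffOn ℝ ∞ (fun z : ℝ × V => f z.1 z.2) (Ioo 0 T ×ˢ univ)) (j : Fin 3) :
    ContDiffOn ℝ ∞ (fun z : ℝ × V => pd j (f z.1) z.2) (Ioo 0 T ×ˢ univ) := by
  have h1 : ContDiffOn ℝ ∞ (fun z : ℝ × V => fderiv ℝ (fun z : ℝ × V => f z.1 z.2) z
      (0, Pi.single j 1)) (Ioo 0 T ×ˢ univ) :=
    (hf.fderiv_of_isOpen (opnT T) (by norm_cast)).clm_apply contDiffOn_const
  refine h1.congr ?_
  rintro ⟨t, x⟩ ⟨ht, -⟩
  have hmem : Ioo 0 T ×ˢ (univ : Set V) ∈ 𝓝 (t, x) :=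
    prod_mem_nhds (Ioo_mem_nhds ht.1 ht.2) Filter.univ_mem
  have hd : DifferentiableAt ℝ (fun z : ℝ × V => f z.1 z.2) (t, x) :=
    (hf.contDiffAt hmem).differentiableAt (by norm_cast)
  have h2 : HasFDerivAt (fun y : V => ((t, y) : ℝ × V))
      (ContinuousLinearMap.inr ℝ ℝ V) x := by
    have := (hasFDerivAt_const t x).prodMk (hasFDerivAt_id (𝕜 := ℝ) x)
    exact this
  have h3 : HasFDerivAt (f t) _ x := hd.hasFDerivAt.comp x h2
  show pd j (f t) x = _
  unfold pd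
  rw [h3.fderiv]
  rfl

lemma ss_jsT (n : ℕ) : ∀ {f : ℝ → V → ℝ},
    ContDiffOn ℝ ∞ (fun z : ℝ × V => f z.1 z.2) (Ioo 0 T ×ˢ univ) →
    ContinuousOn (fun z : ℝ × V => SS n (f z.1) z.2) (Ioo 0 T ×ˢ univ) := by
  induction n with
  | zero => intro f hf; exact hf.continuousOn.pow 2
  | succ n ih =>
    intro f hf
    exact continuousOn_finsetSum _ fun i _ => ih (f := fun t => pd i (f t)) (pd_js hf i)

lemma st_jsT (n : ℕ) {u : ℝ → V → V}
    (hu : ContDiffOn ℝ ∞ (fun z : ℝ × V => u z.1 z.2) (Ioo 0 T ×ˢ univ)) :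
    ContinuousOn (fun z : ℝ × V => ST n (u z.1) z.2) (Ioo 0 T ×ˢ univ) := by
  have hui : ∀ i, ContDiffOn ℝ ∞ (fun z : ℝ × V => u z.1 z.2 i) (Ioo 0 T ×ˢ univ) :=
    fun i => contDiffOn_pi.1 hu i
  refine continuousOn_finsetSum _ fun p _ => ?_
  apply ss_jsT n (f := fun t => Om p.1 p.2 (u t))
  have h1 := pd_js (f := fun t y => u t y p.2) (hui p.2) p.1
  have h2 := pd_js (f := fun t y => u t y p.1) (hui p.1) p.2
  exact h1.sub h2

lemma sv_jsT (n : ℕ) {u : ℝ → V → V}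
    (hu : ContDiffOn ℝ ∞ (fun z : ℝ × V => u z.1 z.2) (Ioo 0 T ×ˢ univ)) :
    ContinuousOn (fun z : ℝ × V => SV n (u z.1) z.2) (Ioo 0 T ×ˢ univ) := by
  have hui : ∀ i, ContDiffOn ℝ ∞ (fun z : ℝ × V => u z.1 z.2 i) (Ioo 0 T ×ˢ univ) :=
    fun i => contDiffOn_pi.1 hu i
  exact continuousOn_finsetSum _ fun i _ => ss_jsT n (f := fun t y => u t y i) (hui i)

end js

lemma pd_scale1 {f : V → ℝ} (hf : ContDiff ℝ ∞ f) (c r : ℝ) (a : V) (j : Fin 3) :
    pd j (fun y => c * f (a + r • y)) = fun y => (c * r) * pd j f (a + r • y) := by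
  funext w
  have h1 : HasFDerivAt f (fderiv ℝ f (a + r • w)) (a + r • w) :=
    (hf.differentiable (by simp) _).hasFDerivAt
  have h2 : HasFDerivAt (fun y : V => a + r • y) (r • ContinuousLinearMap.id ℝ V) w :=
    ((hasFDerivAt_id w).const_smul r).const_add a
  have h3 := (h1.comp w h2).const_mul c
  unfold pd
  have h4 : fderiv ℝ (fun y => c * f (a + r • y)) w = _ := h3.fderiv
  rw [h4]
  simp
  ring

lemma SS_scale (n : ℕ) : ∀ {f : V → ℝ}, ContDiff ℝ ∞ f → ∀ (c r : ℝ) (a x : V),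
    SS n (fun y => c * f (a + r • y)) x = c ^ 2 * (r ^ 2) ^ n * SS n f (a + r • x) := by
  induction n with
  | zero =>
    intro f _ c r a x
    simp only [SS_zero, pow_zero, mul_one]
    ring
  | succ n ih =>
    intro f hf c r a x
    rw [SS_succ, SS_succ, Finset.mul_sum]
    refine Finset.sum_congr rfl fun i _ => ?_
    rw [pd_scale1 hf, ih (sm_pd hf i)]
    ring

/-- The vorticity in the moving frame. -/
lemma Om_frv {u : ℝ → V → V} {r s t : ℝ} {X : ℝ → V} (hv : ContDiff ℝ ∞ (u (s + r ^ 2 * t)))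
    (i j : Fin 3) : Om i j (frv r s X u t)
      = fun z => r ^ 2 * Om i j (u (s + r ^ 2 * t)) (X (s + r ^ 2 * t) + r • z) := by
  funext z
  unfold Om
  have h := fun i j => W382.ME.pd_scale hv r (X (s + r ^ 2 * t))
    (fun i => deriv (fun τ => X τ i) (s + r ^ 2 * t)) i j z
  have h1 : pd i (fun y => frv r s X u t y j) z = _ := h j i
  have h2 : pd j (fun y => frv r s X u t y i) z = _ := h i j
  rw [h1, h2]
  ring

lemma ST_frv (n : ℕ) {u : ℝ → V → V} {r s t : ℝ} {X : ℝ → V}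
    (hv : ContDiff ℝ ∞ (u (s + r ^ 2 * t))) (z : V) : ST n (frv r s X u t) z
      = r ^ (2 * n + 4) * ST n (u (s + r ^ 2 * t)) (X (s + r ^ 2 * t) + r • z) := by
  unfold ST
  rw [Finset.mul_sum]
  refine Finset.sum_congr rfl fun p _ => ?_
  rw [Om_frv hv, SS_scale n (om_sm (fun i => contDiff_pi.1 hv i) p.1 p.2)]
  ring

lemma SV_frv (n : ℕ) {u : ℝ → V → V} {r s t : ℝ} {X : ℝ → V}
    (hv : ContDiff ℝ ∞ (u (s + r ^ 2 * t))) (z : V) : SV (n + 1) (frv r s X u t) z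
      = r ^ (2 * n + 4) * SV (n + 1) (u (s + r ^ 2 * t)) (X (s + r ^ 2 * t) + r • z) := by
  unfold SV
  rw [Finset.mul_sum]
  refine Finset.sum_congr rfl fun i _ => ?_
  rw [SS_succ, SS_succ, Finset.mul_sum]
  refine Finset.sum_congr rfl fun j _ => ?_
  have h : pd j (fun y => frv r s X u t y i)
      = fun z => r ^ 2 * pd j (fun y => u (s + r ^ 2 * t) y i) (X (s + r ^ 2 * t) + r • z) := by
    funext z
    exact W382.ME.pd_scale hv r (X (s + r ^ 2 * t))
      (fun i => deriv (fun τ => X τ i) (s + r ^ 2 * t)) i j z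
  rw [h, SS_scale n (sm_pd (contDiff_pi.1 hv i) j)]
  ring

end Pool.Agent.TH305.DR
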