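import Pool.Agent.TH305.DR.Meas
import Pool.Agent.TH305.DR.Scale

/-!
Derivative bounds (helper305): the energy in the moving frame.
-/

set_option autoImplicit false

open MeasureTheory Set Metric Filter Topology
open scoped ContDiff ENNReal

namespace Pool.Agent.TH305.DR

open H459R3.NS W221.NS
open Pool.Agent.W583.MD (sm_pd)

lemma A2_nonneg (a : V) (ρ : ℝ) (v : V → V) : 0 ≤ A2 a ρ v :=
  integral_nonneg fun x => Finset.sum_nonneg fun i _ => sq_nonneg _

/-- The mollified velocity, locally. -/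
lemma mol_loc : ∃ C : ℝ, 0 < C ∧ ∀ (f : V → ℝ), Continuous f →
    (∫ y, th y * f y) ^ 2 ≤ C * ∫ y in ball (0 : V) 1, f y ^ 2 := by
  have hthc : Continuous th := by
    unfold th
    exact (bmp.contDiff_normed (n := 0)).continuous
  refine ⟨(∫ y in ball (0 : V) 1, th y ^ 2) + 1, by
    have : 0 ≤ ∫ y in ball (0 : V) 1, th y ^ 2 := integral_nonneg fun x => sq_nonneg _
    positivity, fun f hf => ?_⟩
  have h0 : ∀ y ∉ ball (0 : V) 1, th y * f y = 0 := by
    intro y hy
    have : th y = 0 := by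
      unfold th
      have h1 := bmp.support_normed_eq (μ := (volume : Measure V))
      by_contra hne
      have h2 : y ∈ Function.support (bmp.normed (volume : Measure V)) := hne
      rw [h1] at h2
      exact hy h2
    rw [this, zero_mul]
  have h1 : ∫ y, th y * f y = ∫ y in ball (0 : V) 1, th y * f y :=
    (setIntegral_eq_integral_of_forall_compl_eq_zero h0).symm
  rw [h1]
  have i1 : IntegrableOn (fun y => th y ^ 2) (ball (0 : V) 1) :=
    W382.ME.int_ball (hthc.pow 2) 0 1
  have i2 : IntegrableOn (fun y => f y ^ 2) (ball (0 : V) 1) :=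
    W382.ME.int_ball (hf.pow 2) 0 1
  have i3 : IntegrableOn (fun y => th y * f y) (ball (0 : V) 1) :=
    W382.ME.int_ball (hthc.mul hf) 0 1
  refine (CS i1 i2 i3).trans ?_
  have h2 : 0 ≤ ∫ y in ball (0 : V) 1, f y ^ 2 := integral_nonneg fun x => sq_nonneg _
  apply mul_le_mul_of_nonneg_right _ h2
  linarith

/-- The energy in the moving frame, locally. -/
lemma A2_loc : ∃ C : ℝ, 0 < C ∧ ∀ (u : V → V), ContDiff ℝ ∞ u → ∀ (r : ℝ), 0 < r → ∀ (a c : V),
    (∀ i, c i = ∫ y, th y * u (a + r • y) i) →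
      A2 0 4 (fun z i => r * (u (a + r • z) i - c i)) ≤ C * (r⁻¹ * A2 a (4 * r) u) := by
  obtain ⟨C, hC, H⟩ := mol_loc
  refine ⟨2 + 1024 * C, by positivity, fun u hu r hr a c hc => ?_⟩
  have hui : ∀ i, Continuous (fun y => u y i) := fun i => (contDiff_pi.1 hu i).continuous
  have hui' : ∀ i, Continuous (fun y : V => u (a + r • y) i) := fun i =>
    (hui i).comp (by fun_prop)
  have hcont : Continuous (fun z => nsq u (a + r • z)) := (W382.ME.nsq_cont hu).comp (by fun_prop)
  have hc2 : ∀ i, c i ^ 2 ≤ C * ∫ y in ball (0 : V) 1, u (a + r • y) i ^ 2 := by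
    intro i
    rw [hc i]
    exact H _ (hui' i)
  have hcs : ∑ i, c i ^ 2 ≤ C * ((r ^ 3)⁻¹ * A2 a (4 * r) u) := by
    have h1 : ∑ i, c i ^ 2 ≤ ∑ i, C * ∫ y in ball (0 : V) 1, u (a + r • y) i ^ 2 :=
      Finset.sum_le_sum fun i _ => hc2 i
    refine h1.trans ?_
    rw [← Finset.mul_sum]
    apply mul_le_mul_of_nonneg_left _ hC.le
    have j : ∀ i : Fin 3, IntegrableOn (fun y : V => u (a + r • y) i ^ 2) (ball (0 : V) 1) :=
      fun i => W382.ME.int_ball ((hui' i).pow 2) 0 1
    rw [← integral_finsetSum _ fun i _ => j i]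
    have h2 : ∫ y in ball (0 : V) 1, ∑ i, u (a + r • y) i ^ 2
        = (r ^ 3)⁻¹ * ∫ y in ball a (r * 1), nsq u y := W382.ME.cov (nsq u) a hr
    rw [h2]
    apply mul_le_mul_of_nonneg_left _ (by positivity)
    unfold A2
    apply setIntegral_mono_set (W382.ME.int_ball (W382.ME.nsq_cont hu) _ _)
    · exact Eventually.of_forall fun x => W382.ME.nsq_nonneg u x
    · exact (ball_subset_ball (by linarith)).eventuallyLE
  have hpt : ∀ z, nsq (fun z i => r * (u (a + r • z) i - c i)) z
      ≤ 2 * r ^ 2 * (nsq u (a + r • z) + ∑ i, c i ^ 2) := by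
    intro z
    unfold nsq
    rw [← Finset.sum_add_distrib, Finset.mul_sum]
    refine Finset.sum_le_sum fun i _ => ?_
    have e1 : (u (a + r • z) i - c i) ^ 2 ≤ 2 * (u (a + r • z) i ^ 2 + c i ^ 2) := by
      nlinarith [sq_nonneg (u (a + r • z) i + c i)]
    calc (r * (u (a + r • z) i - c i)) ^ 2 = r ^ 2 * (u (a + r • z) i - c i) ^ 2 := by ring
      _ ≤ r ^ 2 * (2 * (u (a + r • z) i ^ 2 + c i ^ 2)) := by gcongr
      _ = _ := by ring
  have hcd : Continuous (fun z : V => nsq (fun z i => r * (u (a + r • z) i - c i)) z) := by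
    unfold nsq
    refine continuous_finsetSum _ fun i _ => ?_
    have := hui' i
    fun_prop
  have hvol : volume.real (ball (0 : V) 4) = 512 := by
    rw [Measure.real, Real.volume_pi_ball _ (by norm_num)]
    simp
    norm_num
  have hA := A2_nonneg a (4 * r) u
  unfold A2 at hA
  calc A2 0 4 (fun z i => r * (u (a + r • z) i - c i))
      ≤ ∫ z in ball (0 : V) 4, 2 * r ^ 2 * (nsq u (a + r • z) + ∑ i, c i ^ 2) := by
        apply setIntegral_mono_on (W382.ME.int_ball hcd _ _)
          (W382.ME.int_ball (by fun_prop) _ _) measurableSet_ball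
        exact fun z _ => hpt z
    _ = 2 * r ^ 2 * ((∫ z in ball (0 : V) 4, nsq u (a + r • z)) + 512 * ∑ i, c i ^ 2) := by
        rw [integral_const_mul, integral_add (W382.ME.int_ball hcont _ _)
          (W382.ME.int_ball continuous_const _ _), setIntegral_const, hvol, smul_eq_mul]
    _ = 2 * r ^ 2 * ((r ^ 3)⁻¹ * A2 a (4 * r) u + 512 * ∑ i, c i ^ 2) := by
        rw [W382.ME.cov _ _ hr, mul_comm r 4]
        rfl
    _ ≤ 2 * r ^ 2 * ((r ^ 3)⁻¹ * A2 a (4 * r) u + 512 * (C * ((r ^ 3)⁻¹ * A2 a (4 * r) u))) := by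
        gcongr
    _ = _ := by
        field_simp
        ring

end Pool.Agent.TH305.DR
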