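import Pool.Agent.TH305.DR.Fix0

/-!
Derivative bounds (helper305): bounds along a path and the limit at the final time.
-/

set_option autoImplicit false

open MeasureTheory Set Metric Filter Topology
open scoped ContDiff ENNReal

namespace Pool.Agent.TH305.DR

open H459R3.NS W221.NS
open Pool.Agent.W583.MD (sm_pd)

/-- Bounds just before the final time. -/
lemma pbd {T : ℝ} {u : ℝ → V → V}
    (hu : ContDiffOn ℝ ∞ (fun z : ℝ × V => u z.1 z.2) (Ioo 0 T ×ˢ univ)) {r s t : ℝ} (hr : 0 < r)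
    {Y : ℝ → V} {x : V} {C1 C2 CA : ℝ} (hC2 : 0 ≤ C2) (hCA : 0 ≤ CA)
    (hA2 : ∀ (u : V → V), ContDiff ℝ ∞ u → ∀ (r : ℝ), 0 < r → ∀ (a c : V),
      (∀ i, c i = ∫ y, th y * u (a + r • y) i) →
      A2 0 4 (fun z i => r * (u (a + r • z) i - c i)) ≤ CA * (r⁻¹ * A2 a (4 * r) u))
    (hτ : s + r ^ 2 * t ∈ Ioo 0 T)
    (hd : HasDerivAt Y (mol r u (s + r ^ 2 * t) (Y (s + r ^ 2 * t))) (s + r ^ 2 * t)) (n : ℕ)
    (z : V) (a1 : ST n (frv r s Y u t) z ≤ C1)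
    (a2 : SV (n + 1) (frv r s Y u t) z ≤ C2 * (1 + A2 0 4 (frv r s Y u t)))
    (hdis : ‖x - Y (s + r ^ 2 * t)‖ ≤ r) :
    r ^ (2 * n + 4) * ST n (u (s + r ^ 2 * t)) (Y (s + r ^ 2 * t) + r • z) ≤ C1 ∧
    r ^ (2 * n + 4) * SV (n + 1) (u (s + r ^ 2 * t)) (Y (s + r ^ 2 * t) + r • z)
      ≤ C2 * (1 + CA * (r⁻¹ * A2 x (5 * r) (u (s + r ^ 2 * t)))) := by
  have hv : ContDiff ℝ ∞ (u (s + r ^ 2 * t)) := W382.ME.cd_slice hu hτ
  rw [ST_frv n hv] at a1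
  rw [SV_frv n hv] at a2
  refine ⟨a1, a2.trans ?_⟩
  apply mul_le_mul_of_nonneg_left _ hC2
  have h1 : A2 0 4 (frv r s Y u t)
      ≤ CA * (r⁻¹ * A2 (Y (s + r ^ 2 * t)) (4 * r) (u (s + r ^ 2 * t))) := by
    exact hA2 (u (s + r ^ 2 * t)) hv r hr (Y (s + r ^ 2 * t))
      (fun i => deriv (fun τ => Y τ i) (s + r ^ 2 * t)) (by
        intro i
        have hd' : HasDerivAt (fun τ => Y τ i) (mol r u (s + r ^ 2 * t) (Y (s + r ^ 2 * t)) i)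
          (s + r ^ 2 * t) := (hasDerivAt_pi.1 hd) i
        rw [hd'.deriv]
        rfl)
  have hsub : ball (Y (s + r ^ 2 * t)) (4 * r) ⊆ ball x (5 * r) := by
    intro y hy
    rw [mem_ball, dist_eq_norm] at hy ⊢
    have h4 : ‖y - x‖ ≤ ‖y - Y (s + r ^ 2 * t)‖ + ‖x - Y (s + r ^ 2 * t)‖ := by
      have : y - x = (y - Y (s + r ^ 2 * t)) - (x - Y (s + r ^ 2 * t)) := by abel
      rw [this]
      exact norm_sub_le _ _
    linarith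
  have h2 : A2 (Y (s + r ^ 2 * t)) (4 * r) (u (s + r ^ 2 * t))
      ≤ A2 x (5 * r) (u (s + r ^ 2 * t)) := by
    unfold A2
    apply setIntegral_mono_set (W382.ME.int_ball (W382.ME.nsq_cont hv) _ _)
    · exact Eventually.of_forall fun x => W382.ME.nsq_nonneg _ x
    · exact hsub.eventuallyLE
  have h3 : r⁻¹ * A2 (Y (s + r ^ 2 * t)) (4 * r) (u (s + r ^ 2 * t))
      ≤ r⁻¹ * A2 x (5 * r) (u (s + r ^ 2 * t)) :=
    mul_le_mul_of_nonneg_left h2 (by positivity)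
  have h4 := mul_le_mul_of_nonneg_left h3 hCA
  linarith

/-- The limit along a path. -/
lemma lim_path {T s a : ℝ} {G : ℝ × V → ℝ} (hG : ContinuousOn G (Ioo 0 T ×ˢ univ)) (ha : a < s)
    (hs : 0 < s) (hsT : s < T) {Y : ℝ → V} (hY : ContinuousOn Y (Icc a s)) {x : V}
    (hx : Y s = x) : Tendsto (fun τ => G (τ, Y τ)) (𝓝[<] s) (𝓝 (G (s, x))) := by
  have c1 : ContinuousWithinAt Y (Icc a s) s := hY s ⟨ha.le, le_rfl⟩
  have c2 : ContinuousWithinAt Y (Iio s) s := by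
    apply c1.mono_of_mem_nhdsWithin
    apply mem_of_superset (Ioo_mem_nhdsLT ha)
    exact Ioo_subset_Icc_self
  have c3 : Tendsto Y (𝓝[<] s) (𝓝 x) := by
    have h1 : Tendsto Y (𝓝[<] s) (𝓝 (Y s)) := c2
    rwa [hx] at h1
  have c4 : Tendsto (fun τ : ℝ => τ) (𝓝[<] s) (𝓝 s) :=
    tendsto_id.mono_left nhdsWithin_le_nhds
  have hYc : Tendsto (fun τ => (τ, Y τ)) (𝓝[<] s) (𝓝[Ioo 0 T ×ˢ univ] (s, x)) := by
    rw [tendsto_nhdsWithin_iff]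
    refine ⟨c4.prodMk_nhds c3, ?_⟩
    filter_upwards [Ioo_mem_nhdsLT hs] with τ hτ
    exact ⟨⟨hτ.1, hτ.2.trans hsT⟩, mem_univ _⟩
  have hc : ContinuousWithinAt G (Ioo 0 T ×ˢ univ) (s, x) := hG (s, x) ⟨⟨hs, hsT⟩, mem_univ _⟩
  exact hc.tendsto.comp hYc

lemma lim_A2 {T : ℝ} {u : ℝ → V → V}
    (hu : ContDiffOn ℝ ∞ (fun z : ℝ × V => u z.1 z.2) (Ioo 0 T ×ˢ univ)) {s : ℝ} (hs : 0 < s)
    (hsT : s < T) (x : V) (ρ : ℝ) :
    Tendsto (fun τ => A2 x ρ (u τ)) (𝓝[<] s) (𝓝 (A2 x ρ (u s))) := by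
  have c1 := ((W221.NS.B.p_ct 0 T u hu).1 x ρ).1
  have c2 : ContinuousAt (fun t => A2 x ρ (u t)) s :=
    c1.continuousAt (Ioo_mem_nhds hs hsT)
  exact c2.tendsto.mono_left nhdsWithin_le_nhds

/-- Bounds at the final time from bounds before it. -/
lemma lim_bd {T : ℝ} {u : ℝ → V → V}
    (hu : ContDiffOn ℝ ∞ (fun z : ℝ × V => u z.1 z.2) (Ioo 0 T ×ˢ univ)) {a s : ℝ} (hs : 0 < s)
    (hsT : s < T) (ha : a < s) {Y : ℝ → V} (hY : ContinuousOn Y (Icc a s)) {x : V}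
    {c C1 C2 c3 ρ : ℝ} (n : ℕ)
    (h : ∀ᶠ τ in 𝓝[<] s, c * ST n (u τ) (Y τ) ≤ C1 ∧
      c * SV (n + 1) (u τ) (Y τ) ≤ C2 * (1 + c3 * A2 x ρ (u τ))) :
    c * ST n (u s) (Y s) ≤ C1 ∧ c * SV (n + 1) (u s) (Y s) ≤ C2 * (1 + c3 * A2 x ρ (u s)) := by
  have l1 := (lim_path (st_jsT n hu) ha hs hsT hY rfl).const_mul c
  have l2 := (lim_path (sv_jsT (n + 1) hu) ha hs hsT hY rfl).const_mul c
  have l3 := (((lim_A2 hu hs hsT x ρ).const_mul c3).const_add 1).const_mul C2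
  refine ⟨?_, ?_⟩
  · exact le_of_tendsto l1 (h.mono fun τ hτ => hτ.1)
  · exact le_of_tendsto_of_tendsto l2 l3 (h.mono fun τ hτ => hτ.2)

end Pool.Agent.TH305.DR
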