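import Pool.Agent.TH305.DR.Nl

/-!
Derivative bounds (helper305): the induction over the order of the derivatives.
-/

set_option autoImplicit false

open MeasureTheory Set Metric Filter Topology
open scoped ContDiff

namespace Pool.Agent.TH305.DR

open H459R3.NS W221.NS
open Pool.Agent.W583.MD (sm_pd cs_pd pd_mul' Z Z.add Z.sub Z.smul Z.sum int_cs Z_pd hd_int hcs)
open Pool.Agent.W639.MH (int_ball)
open Pool.Agent.W505.ME.TSM (JS JS.slice JS.pd JS.dt JS.comm JS.sub JS.sum)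

/-- `W` in the norms of order at most `n`. -/
lemma Wk (K B : ℝ) (hB : 0 ≤ B) (k n : ℕ) (hk : k ≤ n) {ρ' ρ : ℝ} (h0 : 0 < ρ') (h : ρ' < ρ)
    (hρ : ρ ≤ 1 / 4) : ∃ D : ℝ, 0 < D ∧ ∀ (v W : ℝ → V → V) (G : ℝ → ℝ), Dat K v W G →
    ∀ t ∈ Ioo (-1 / 16 : ℝ) 0, (∀ i < n, NT i ρ (v t) ≤ B) → NV k ρ' (W t) ≤ D := by
  obtain ⟨C, hC, H⟩ := Wb K k h0 h hρ
  refine ⟨C * (1 + k * B), by positivity, fun v W G hD t ht hS => ?_⟩
  refine (H v W G hD t ht).trans ?_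
  apply mul_le_mul_of_nonneg_left _ hC.le
  have h1 : ∑ i ∈ Finset.range k, NT i ρ (v t) ≤ ∑ _i ∈ Finset.range k, B :=
    Finset.sum_le_sum fun i hi => hS i ((Finset.mem_range.1 hi).trans_le hk)
  simp only [Finset.sum_const, Finset.card_range, nsmul_eq_mul] at h1
  linarith

/-- `W` in the norm of order `n + 1`. -/
lemma Wn (K B : ℝ) (hB : 0 ≤ B) (n : ℕ) {ρ' ρ : ℝ} (h0 : 0 < ρ') (h : ρ' < ρ)
    (hρ : ρ ≤ 1 / 4) : ∃ D : ℝ, 0 < D ∧ ∀ (v W : ℝ → V → V) (G : ℝ → ℝ), Dat K v W G →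
    ∀ t ∈ Ioo (-1 / 16 : ℝ) 0, (∀ i < n, NT i ρ (v t) ≤ B) →
      NV (n + 1) ρ' (W t) ≤ D * (1 + NT n ρ (v t)) := by
  obtain ⟨C, hC, H⟩ := Wb K (n + 1) h0 h hρ
  refine ⟨C * (1 + n * B), by positivity, fun v W G hD t ht hS => ?_⟩
  refine (H v W G hD t ht).trans ?_
  rw [mul_assoc]
  apply mul_le_mul_of_nonneg_left _ hC.le
  rw [Finset.sum_range_succ]
  have h1 : ∑ i ∈ Finset.range n, NT i ρ (v t) ≤ ∑ _i ∈ Finset.range n, B :=
    Finset.sum_le_sum fun i hi => hS i (Finset.mem_range.1 hi)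
  simp only [Finset.sum_const, Finset.card_range, nsmul_eq_mul] at h1
  have h2 := NT_nonneg n ρ (v t)
  have h3 : 0 ≤ (n : ℝ) * B := by positivity
  nlinarith [mul_nonneg h3 h2]

/-- One product. -/
lemma prod_a (K B : ℝ) (hB : 0 ≤ B) (n a : ℕ) (ha : a ≤ n) {ρ' ρ ρ2 M : ℝ} {φ : V → ℝ}
    (hφ : Cut ρ' ρ M φ) (h0 : 0 < ρ) (h : ρ < ρ2) (hρ : ρ2 ≤ 1 / 4) : ∃ C : ℝ, 0 < C ∧
    ∀ (v W : ℝ → V → V) (G : ℝ → ℝ), Dat K v W G → ∀ t ∈ Ioo (-1 / 16 : ℝ) 0,
      (∀ i < n, NT i ρ2 (v t) ≤ B) →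
      ∫ x, SV a (v t) x * ST (n - a) (v t) x * φ x ^ 2
        ≤ C * (1 + G t) * (∑ p : Fin 3 × Fin 3, ∫ x, SS n (Om p.1 p.2 (v t)) x * φ x ^ 2)
          + C * (1 + G t + NT n ρ2 (v t)) := by
  have hρ1 : ρ < 1 / 4 := h.trans_le hρ
  have b1 : ρ < (ρ + ρ2) / 2 := by linarith
  have b2 : (ρ + ρ2) / 2 < ρ2 := by linarith
  have b0 : 0 < (ρ + ρ2) / 2 := h0.trans b1
  rcases Nat.eq_zero_or_pos a with ha0 | ha0
  · subst ha0
    refine ⟨6 * (K ^ 2 + 1), by positivity, fun v W G hD t ht hS => ?_⟩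
    have hG := hD.Gn t (tIoo ht)
    have h1 := p0 n hφ hρ1.le hD ht
    rw [Nat.sub_zero]
    have h2 : 0 ≤ ∑ p : Fin 3 × Fin 3, ∫ x, SS n (Om p.1 p.2 (v t)) x * φ x ^ 2 :=
      Finset.sum_nonneg fun p _ => integral_nonneg fun x =>
        mul_nonneg (SS_nonneg _ _ _) (sq_nonneg _)
    have h3 : 6 * (K ^ 2 + G t) ≤ 6 * (K ^ 2 + 1) * (1 + G t) := by
      have := mul_nonneg (sq_nonneg K) hG
      nlinarith
    have h4 := mul_le_mul_of_nonneg_right h3 h2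
    have h5 := NT_nonneg n ρ2 (v t)
    have h6 : 0 ≤ 6 * (K ^ 2 + 1) * (1 + G t + NT n ρ2 (v t)) := by positivity
    linarith
  · obtain ⟨C1, hC1, H1⟩ := pa K a (n - a) hφ h0 hρ1
    have hlt : n - a < n := by omega
    rcases Nat.lt_or_ge n 2 with hn | hn
    · have hn1 : n = 1 := by omega
      have ha1 : a = 1 := by omega
      subst hn1
      subst ha1
      obtain ⟨C2, hC2, H2⟩ := pGN K h0 b1 (b2.le.trans hρ)
      obtain ⟨D1, hD1, HD1⟩ := Wk K B hB 1 1 le_rfl b0 b2 hρ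
      obtain ⟨D2, hD2, HD2⟩ := Wn K B hB 1 b0 b2 hρ
      refine ⟨2 * C2 * (D1 + D2) + C1 * B + 1, by positivity, fun v W G hD t ht hS => ?_⟩
      have hG := hD.Gn t (tIoo ht)
      have h1 := H1 v W G hD t ht
      have h2 := H2 v W G hD t ht
      have h3 := HD1 v W G hD t ht hS
      have h4 := HD2 v W G hD t ht hS
      have h5 := hS 0 one_pos
      have h6 : NT 0 ρ (v t) ≤ NT 0 ρ2 (v t) := NT_mono 0 h.le (hD.cv ht)
      have h7 := NT_nonneg 1 ρ2 (v t)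
      have h8 := NV_nonneg 1 ((ρ + ρ2) / 2) (W t)
      have h9 := NT_nonneg 0 ρ (v t)
      have hY : 0 ≤ ∑ p : Fin 3 × Fin 3, ∫ x, SS 1 (Om p.1 p.2 (v t)) x * φ x ^ 2 :=
        Finset.sum_nonneg fun p _ => integral_nonneg fun x =>
          mul_nonneg (SS_nonneg _ _ _) (sq_nonneg _)
      have e1 : C1 * G t * NT 0 ρ (v t) ≤ C1 * G t * B :=
        mul_le_mul_of_nonneg_left (h6.trans h5) (by positivity)
      have e2 : C2 * (NV 1 ((ρ + ρ2) / 2) (W t) + NV 2 ((ρ + ρ2) / 2) (W t))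
          ≤ C2 * (D1 + D2 * (1 + NT 1 ρ2 (v t))) :=
        mul_le_mul_of_nonneg_left (add_le_add h3 h4) hC2.le
      have e3 : C2 * G t * NV 1 ((ρ + ρ2) / 2) (W t) ≤ C2 * G t * D1 :=
        mul_le_mul_of_nonneg_left h3 (by positivity)
      have e4 : 0 ≤ (2 * C2 * (D1 + D2) + C1 * B + 1) * (1 + G t)
          * ∑ p : Fin 3 × Fin 3, ∫ x, SS 1 (Om p.1 p.2 (v t)) x * φ x ^ 2 := by positivity
      have e5 : 0 ≤ C2 * D1 * NT 1 ρ2 (v t) := by positivity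
      have e6 : 0 ≤ C1 * B := by positivity
      have e7 : 0 ≤ C2 * D2 * G t := by positivity
      have e8 : 0 ≤ C1 * B * NT 1 ρ2 (v t) := by positivity
      have e9 : 0 ≤ G t + NT 1 ρ2 (v t) := by positivity
      show ∫ x, SV 1 (v t) x * ST 0 (v t) x * φ x ^ 2 ≤ _
      have h1' : ∫ x, SV 1 (v t) x * ST 0 (v t) x * φ x ^ 2
          ≤ 2 * (∫ x in ball (0 : V) ρ, SV 1 (W t) x * ST 0 (v t) x)
            + C1 * G t * NT 0 ρ (v t) := h1
      nlinarith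
    · obtain ⟨C2, hC2, H2⟩ := pW a (n - a) h0 b1 (by linarith)
      obtain ⟨D0, hD0, HD0⟩ := Wk K B hB a n ha b0 b2 hρ
      rcases Nat.lt_or_ge a 2 with ha2 | ha2
      · -- `a = 1`
        have ha1 : a = 1 := by omega
        obtain ⟨D1, hD1, HD1⟩ := Wk K B hB (a + 1) n (by omega) b0 b2 hρ
        refine ⟨2 * C2 * (D0 + D1) * (1 + B) + C1 * B + 1, by positivity,
          fun v W G hD t ht hS => ?_⟩
        have hG := hD.Gn t (tIoo ht)
        have h1 := H1 v W G hD t ht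
        have h2 := H2 (W t) (v t) (hD.cW ht) (hD.cv ht)
        have h3 := HD0 v W G hD t ht hS
        have h4 := HD1 v W G hD t ht hS
        have h5 := hS (n - a) hlt
        have h6 : NT (n - a) ρ (v t) ≤ NT (n - a) ρ2 (v t) := NT_mono _ h.le (hD.cv ht)
        have h6' : NT (n - a) ((ρ + ρ2) / 2) (v t) ≤ NT (n - a) ρ2 (v t) :=
          NT_mono _ b2.le (hD.cv ht)
        have e0 : n - a + 1 = n := by omega
        have h6'' : NT (n - a + 1) ((ρ + ρ2) / 2) (v t) ≤ NT n ρ2 (v t) := by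
          rw [e0]
          exact NT_mono _ b2.le (hD.cv ht)
        have h7 := NT_nonneg n ρ2 (v t)
        have h9 := NT_nonneg (n - a) ρ (v t)
        have hY : 0 ≤ ∑ p : Fin 3 × Fin 3, ∫ x, SS n (Om p.1 p.2 (v t)) x * φ x ^ 2 :=
          Finset.sum_nonneg fun p _ => integral_nonneg fun x =>
            mul_nonneg (SS_nonneg _ _ _) (sq_nonneg _)
        have e1 : C1 * G t * NT (n - a) ρ (v t) ≤ C1 * G t * B :=
          mul_le_mul_of_nonneg_left (h6.trans h5) (by positivity)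
        have e2 : (NV a ((ρ + ρ2) / 2) (W t) + NV (a + 1) ((ρ + ρ2) / 2) (W t))
            * (NT (n - a) ((ρ + ρ2) / 2) (v t) + NT (n - a + 1) ((ρ + ρ2) / 2) (v t))
            ≤ (D0 + D1) * (B + NT n ρ2 (v t)) :=
          mul_le_mul (add_le_add h3 h4) (add_le_add (h6'.trans h5) h6'')
            (add_nonneg (NT_nonneg _ _ _) (NT_nonneg _ _ _)) (by positivity)
        have e3 := mul_le_mul_of_nonneg_left e2 hC2.le
        have e4 : 0 ≤ (2 * C2 * (D0 + D1) * (1 + B) + C1 * B + 1) * (1 + G t)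
            * ∑ p : Fin 3 × Fin 3, ∫ x, SS n (Om p.1 p.2 (v t)) x * φ x ^ 2 := by positivity
        have e5 : 0 ≤ C2 * (D0 + D1) * (B * NT n ρ2 (v t)) := by positivity
        have e6 : 0 ≤ C1 * B := by positivity
        have e7 : 0 ≤ C2 * (D0 + D1) * (1 + B) * G t := by positivity
        have e8 : 0 ≤ C1 * B * NT n ρ2 (v t) := by positivity
        have e9 : 0 ≤ G t + NT n ρ2 (v t) := by positivity
        have e10 : 0 ≤ C2 * (D0 + D1) := by positivity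
        nlinarith
      · -- `2 ≤ a`
        obtain ⟨D1, hD1, HD1⟩ : ∃ D : ℝ, 0 < D ∧ ∀ (v W : ℝ → V → V) (G : ℝ → ℝ), Dat K v W G →
            ∀ t ∈ Ioo (-1 / 16 : ℝ) 0, (∀ i < n, NT i ρ2 (v t) ≤ B) →
              NV (a + 1) ((ρ + ρ2) / 2) (W t) ≤ D * (1 + NT n ρ2 (v t)) := by
          rcases Nat.lt_or_ge a n with han | han
          · obtain ⟨D, hD, H⟩ := Wk K B hB (a + 1) n (by omega) b0 b2 hρ
            refine ⟨D, hD, fun v W G hDat t ht hS => ?_⟩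
            have := H v W G hDat t ht hS
            have h2 := mul_nonneg hD.le (NT_nonneg n ρ2 (v t))
            linarith
          · have : a = n := le_antisymm ha han
            subst this
            exact Wn K B hB a b0 b2 hρ
        refine ⟨4 * C2 * (D0 + D1) * (1 + B) + C1 * B + 1, by positivity,
          fun v W G hD t ht hS => ?_⟩
        have hG := hD.Gn t (tIoo ht)
        have h1 := H1 v W G hD t ht
        have h2 := H2 (W t) (v t) (hD.cW ht) (hD.cv ht)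
        have h3 := HD0 v W G hD t ht hS
        have h4 := HD1 v W G hD t ht hS
        have h5 := hS (n - a) hlt
        have h5' := hS (n - a + 1) (by omega)
        have h6 : NT (n - a) ρ (v t) ≤ NT (n - a) ρ2 (v t) := NT_mono _ h.le (hD.cv ht)
        have h6' : NT (n - a) ((ρ + ρ2) / 2) (v t) ≤ NT (n - a) ρ2 (v t) :=
          NT_mono _ b2.le (hD.cv ht)
        have h6'' : NT (n - a + 1) ((ρ + ρ2) / 2) (v t) ≤ NT (n - a + 1) ρ2 (v t) :=
          NT_mono _ b2.le (hD.cv ht)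
        have h7 := NT_nonneg n ρ2 (v t)
        have h9 := NT_nonneg (n - a) ρ (v t)
        have hY : 0 ≤ ∑ p : Fin 3 × Fin 3, ∫ x, SS n (Om p.1 p.2 (v t)) x * φ x ^ 2 :=
          Finset.sum_nonneg fun p _ => integral_nonneg fun x =>
            mul_nonneg (SS_nonneg _ _ _) (sq_nonneg _)
        have e1 : C1 * G t * NT (n - a) ρ (v t) ≤ C1 * G t * B :=
          mul_le_mul_of_nonneg_left (h6.trans h5) (by positivity)
        have e2 : (NV a ((ρ + ρ2) / 2) (W t) + NV (a + 1) ((ρ + ρ2) / 2) (W t))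
            * (NT (n - a) ((ρ + ρ2) / 2) (v t) + NT (n - a + 1) ((ρ + ρ2) / 2) (v t))
            ≤ (D0 + D1 * (1 + NT n ρ2 (v t))) * (B + B) :=
          mul_le_mul (add_le_add h3 h4) (add_le_add (h6'.trans h5) (h6''.trans h5'))
            (add_nonneg (NT_nonneg _ _ _) (NT_nonneg _ _ _)) (by positivity)
        have e3 := mul_le_mul_of_nonneg_left e2 hC2.le
        have e4 : 0 ≤ (4 * C2 * (D0 + D1) * (1 + B) + C1 * B + 1) * (1 + G t)
            * ∑ p : Fin 3 × Fin 3, ∫ x, SS n (Om p.1 p.2 (v t)) x * φ x ^ 2 := by positivity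
        have e5 : 0 ≤ C2 * (D0 + D1) * NT n ρ2 (v t) := by positivity
        have e5' : 0 ≤ C2 * D0 * (B * NT n ρ2 (v t)) := by positivity
        have e6 : 0 ≤ C1 * B := by positivity
        have e7 : 0 ≤ C2 * (D0 + D1) * (1 + B) * G t := by positivity
        have e8 : 0 ≤ C1 * B * NT n ρ2 (v t) := by positivity
        have e9 : 0 ≤ G t + NT n ρ2 (v t) := by positivity
        have e10 : 0 ≤ C2 * (D0 + D1) := by positivity
        nlinarith

/-- All products. -/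
lemma prod_all (K B : ℝ) (hB : 0 ≤ B) (n : ℕ) {ρ' ρ ρ2 M : ℝ} {φ : V → ℝ}
    (hφ : Cut ρ' ρ M φ) (h0 : 0 < ρ) (h : ρ < ρ2) (hρ : ρ2 ≤ 1 / 4) : ∃ C : ℝ, 0 ≤ C ∧
    ∀ (v W : ℝ → V → V) (G : ℝ → ℝ), Dat K v W G → ∀ t ∈ Ioo (-1 / 16 : ℝ) 0,
      (∀ i < n, NT i ρ2 (v t) ≤ B) →
      ∑ a ∈ Finset.range (n + 1), ∫ x, SV a (v t) x * ST (n - a) (v t) x * φ x ^ 2
        ≤ C * (1 + G t) * (∑ p : Fin 3 × Fin 3, ∫ x, SS n (Om p.1 p.2 (v t)) x * φ x ^ 2)
          + C * (1 + G t + NT n ρ2 (v t)) := by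
  have h1 : ∀ a : ℕ, ∃ C : ℝ, 0 ≤ C ∧ (a ≤ n → ∀ (v W : ℝ → V → V) (G : ℝ → ℝ), Dat K v W G →
      ∀ t ∈ Ioo (-1 / 16 : ℝ) 0, (∀ i < n, NT i ρ2 (v t) ≤ B) →
      ∫ x, SV a (v t) x * ST (n - a) (v t) x * φ x ^ 2
        ≤ C * (1 + G t) * (∑ p : Fin 3 × Fin 3, ∫ x, SS n (Om p.1 p.2 (v t)) x * φ x ^ 2)
          + C * (1 + G t + NT n ρ2 (v t))) := by
    intro a
    by_cases ha : a ≤ n
    · obtain ⟨C, hC, H⟩ := prod_a K B hB n a ha hφ h0 h hρ
      exact ⟨C, hC.le, fun _ => H⟩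
    · exact ⟨0, le_rfl, fun h => absurd h ha⟩
  choose C hC H using h1
  refine ⟨∑ a ∈ Finset.range (n + 1), C a, Finset.sum_nonneg fun a _ => hC a,
    fun v W G hD t ht hS => ?_⟩
  rw [Finset.sum_mul, Finset.sum_mul, Finset.sum_mul, ← Finset.sum_add_distrib]
  exact Finset.sum_le_sum fun a ha => H a (Nat.lt_succ_iff.1 (Finset.mem_range.1 ha)) v W G hD t ht hS

/-- Level `n`. -/
def Lev (K : ℝ) (n : ℕ) : Prop := ∀ ρ a : ℝ, 0 < ρ → ρ < 1 / 4 → -1 / 16 < a → a < 0 →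
  ∃ C : ℝ, 0 ≤ C ∧ ∀ (v W : ℝ → V → V) (G : ℝ → ℝ), Dat K v W G →
    (∀ i < n, ∀ t ∈ Ioo a 0, NT i ρ (v t) ≤ C) ∧ ∀ b ∈ Ioo a 0, ∫ t in a..b, NT n ρ (v t) ≤ C

lemma lev0 (K : ℝ) (hK : 0 ≤ K) : Lev K 0 := by
  intro ρ a h0 hρ ha ha0
  refine ⟨K * K, by positivity, fun v W G hD => ⟨fun i hi => absurd hi (Nat.not_lt_zero i), ?_⟩⟩
  intro b hb
  have ha1 : a ∈ Ioo (-1 : ℝ) 0 := ⟨by linarith, ha0⟩
  have hb1 : b ∈ Ioo (-1 : ℝ) 0 := ⟨by linarith [hb.1], hb.2⟩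
  have hs1 : (-1 / 16 : ℝ) ∈ Ioo (-1 : ℝ) 0 := ⟨by norm_num, by norm_num⟩
  have h1 : ∫ t in a..b, NT 0 ρ (v t) ≤ ∫ t in a..b, K * G t := by
    apply intervalIntegral.integral_mono_on_of_le_Ioo hb.1.le
      (ii_of (ct_NT 0 ρ hD.sv) ha1 hb1) ((ii_of hD.Gc ha1 hb1).const_mul K)
    intro t ht
    have ht' : t ∈ Ioo (-1 / 16 : ℝ) 0 := ⟨ha.trans ht.1, ht.2.trans hb.2⟩
    exact (NT_mono 0 hρ.le (hD.cv ht')).trans (hD.N0 t ht')
  refine h1.trans ?_
  rw [intervalIntegral.integral_const_mul]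
  apply mul_le_mul_of_nonneg_left _ hK
  have h2 := hD.Gi b ⟨ha.trans hb.1, hb.2⟩
  have h3 : ∫ t in (-1 / 16 : ℝ)..b, G t
      = (∫ t in (-1 / 16 : ℝ)..a, G t) + ∫ t in a..b, G t :=
    (intervalIntegral.integral_add_adjacent_intervals (ii_of hD.Gc hs1 ha1)
      (ii_of hD.Gc ha1 hb1)).symm
  have h4 : 0 ≤ ∫ t in (-1 / 16 : ℝ)..a, G t := by
    apply intervalIntegral.integral_nonneg ha.le
    intro t ht
    exact hD.Gn t ⟨by linarith [ht.1], ht.2.trans_lt ha0⟩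
  linarith

lemma lev_succ (K : ℝ) (hK : 0 ≤ K) (n : ℕ) (ih : Lev K n) : Lev K (n + 1) := by
  intro ρ a h0 hρ ha ha0
  -- the radii and times
  obtain ⟨ρ2, hρ2⟩ : ∃ x, x = (ρ + 1 / 4) / 2 := ⟨_, rfl⟩
  obtain ⟨ρ1, hρ1⟩ : ∃ x, x = (ρ + ρ2) / 2 := ⟨_, rfl⟩
  obtain ⟨a1, ha1⟩ : ∃ x, x = (a + -1 / 16) / 2 := ⟨_, rfl⟩
  have r1 : ρ < ρ1 := by linarith
  have r2 : ρ1 < ρ2 := by linarith
  have r3 : ρ2 < 1 / 4 := by linarith
  have t1 : a1 < a := by linarith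
  have t2 : -1 / 16 < a1 := by linarith
  obtain ⟨B, hB, HB⟩ := ih ρ2 a1 (by linarith) r3 t2 (by linarith)
  obtain ⟨M, φ, hM, hφ⟩ := exists_cut h0 r1
  obtain ⟨C, hC, HC⟩ := prod_all K B hB n hφ (h0.trans r1) r2 r3.le
  obtain ⟨Q, hQ⟩ : ∃ x : ℝ, x = 144 * 4 ^ (n + 1) * C := ⟨_, rfl⟩
  have hQ0 : 0 ≤ Q := by rw [hQ]; positivity
  obtain ⟨KA, hKA⟩ : ∃ x : ℝ, x = Q * (1 + K) := ⟨_, rfl⟩
  obtain ⟨K1, hK1⟩ : ∃ x : ℝ, x = B + Q * (1 + K + B) + 10 * M * B := ⟨_, rfl⟩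
  have hKA0 : 0 ≤ KA := by rw [hKA]; positivity
  have hK10 : 0 ≤ K1 := by rw [hK1]; positivity
  have haa : 0 < a - a1 := by linarith
  refine ⟨B + Real.exp KA * K1 / (a - a1) + (K1 + KA * (Real.exp KA * K1)) / (a - a1), by
    positivity, fun v W G hD => ?_⟩
  obtain ⟨hS, hI⟩ := HB v W G hD
  have ea : 0 ≤ Real.exp KA * K1 / (a - a1) := by positivity
  have eb : 0 ≤ (K1 + KA * (Real.exp KA * K1)) / (a - a1) := by positivity
  have hjs : ∀ p : Fin 3 × Fin 3, JS (fun t => Om p.1 p.2 (v t)) := fun p => js_om hD.sv p.1 p.2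
  -- continuity of the weighted quantities
  have ctw : ∀ k, ContinuousOn (fun t => ∑ p : Fin 3 × Fin 3,
      ∫ x, SS k (Om p.1 p.2 (v t)) x * φ x ^ 2) (Ioo (-1) 0) := by
    intro k
    refine continuousOn_finsetSum _ fun p _ => ?_
    have hF : JS (fun s x => SS k (Om p.1 p.2 (v s)) x * φ x ^ 2) := by
      have h1 : ContDiffOn ℝ ∞ (fun z : ℝ × V => SS k (Om p.1 p.2 (v z.1)) z.2)
          (Ioo (-1) 0 ×ˢ univ) := js_ss k (hjs p)
      have h2 : ContDiffOn ℝ ∞ (fun z : ℝ × V => φ z.2) (Ioo (-1) 0 ×ˢ univ) :=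
        (hφ.sm.comp contDiff_snd).contDiffOn
      exact h1.mul (h2.pow 2)
    intro t ht
    have hd := hd_int (α := -1) (β := 0) (F := fun s x => SS k (Om p.1 p.2 (v s)) x * φ x ^ 2) hF
      (fun s _ x hx => by
        show SS k (Om p.1 p.2 (v s)) x * φ x ^ 2 = 0
        rw [hφ.out x fun h' => hx (ball_subset_ball (by linarith) h')]
        ring) ht
    exact hd.continuousAt.continuousWithinAt
  have nnw : ∀ k t, 0 ≤ ∑ p : Fin 3 × Fin 3, ∫ x, SS k (Om p.1 p.2 (v t)) x * φ x ^ 2 :=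
    fun k t => Finset.sum_nonneg fun p _ => integral_nonneg fun x =>
      mul_nonneg (SS_nonneg _ _ _) (sq_nonneg _)
  have cX : ContinuousOn (fun t => NT n ρ2 (v t)) (Ioo (-1) 0) := ct_NT n ρ2 hD.sv
  have hgr := gronw (a := a1) (a' := a) (KA := KA) (K1 := K1)
    (Y := fun t => ∑ p : Fin 3 × Fin 3, ∫ x, SS n (Om p.1 p.2 (v t)) x * φ x ^ 2)
    (Z := fun t => ∑ p : Fin 3 × Fin 3, ∫ x, SS (n + 1) (Om p.1 p.2 (v t)) x * φ x ^ 2)
    (A := fun t => Q * (1 + G t))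
    (R := fun t => Q * (1 + G t + NT n ρ2 (v t)) + 10 * M * NT n ρ2 (v t))
    (by linarith) t1 ha0 (ctw n) (ctw (n + 1)) (continuousOn_const.mul (continuousOn_const.add hD.Gc))
    ((continuousOn_const.mul ((continuousOn_const.add hD.Gc).add cX)).add
      (continuousOn_const.mul cX)) (fun t _ => nnw n t) (fun t _ => nnw (n + 1) t)
    (fun t ht => by
      have := hD.Gn t ht
      positivity)
    (fun t ht => by
      have := hD.Gn t ht
      have := NT_nonneg n ρ2 (v t)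
      positivity)
    (by
      intro t ht
      have ht' : t ∈ Ioo (-1 / 16 : ℝ) 0 := ⟨t2.trans ht.1, ht.2⟩
      obtain ⟨E', hE1, hE2⟩ := en_T n hφ (r2.trans r3).le hD ht'
      refine ⟨E', hE1, hE2.trans ?_⟩
      have h1 := HC v W G hD t ht' (fun i hi => hS i hi t ht)
      have h2 := mul_le_mul_of_nonneg_left h1 (by positivity : (0 : ℝ) ≤ 144 * 4 ^ (n + 1))
      have h3 : NT n ρ1 (v t) ≤ NT n ρ2 (v t) := NT_mono n r2.le (hD.cv ht')
      have h4 := mul_le_mul_of_nonneg_left h3 (by positivity : (0 : ℝ) ≤ 10 * M)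
      have h5 : 144 * 4 ^ (n + 1) * (C * (1 + G t) * (∑ p : Fin 3 × Fin 3,
          ∫ x, SS n (Om p.1 p.2 (v t)) x * φ x ^ 2) + C * (1 + G t + NT n ρ2 (v t)))
          = Q * (1 + G t) * (∑ p : Fin 3 × Fin 3, ∫ x, SS n (Om p.1 p.2 (v t)) x * φ x ^ 2)
            + Q * (1 + G t + NT n ρ2 (v t)) := by
        rw [hQ]
        ring
      rw [h5] at h2
      linarith)
    (by
      intro b hb
      have ha11 : a1 ∈ Ioo (-1 : ℝ) 0 := ⟨by linarith, by linarith⟩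
      have hb1 : b ∈ Ioo (-1 : ℝ) 0 := ⟨by linarith [hb.1], hb.2⟩
      have hs1 : (-1 / 16 : ℝ) ∈ Ioo (-1 : ℝ) 0 := ⟨by norm_num, by norm_num⟩
      have h1 : ∫ t in a1..b, Q * (1 + G t) = Q * ((b - a1) + ∫ t in a1..b, G t) := by
        rw [intervalIntegral.integral_const_mul, intervalIntegral.integral_add
          intervalIntegrable_const (ii_of hD.Gc ha11 hb1), intervalIntegral.integral_const]
        simp
      rw [h1, hKA]
      apply mul_le_mul_of_nonneg_left _ hQ0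
      have h2 := hD.Gi b ⟨t2.trans hb.1, hb.2⟩
      have h3 : ∫ t in (-1 / 16 : ℝ)..b, G t
          = (∫ t in (-1 / 16 : ℝ)..a1, G t) + ∫ t in a1..b, G t :=
        (intervalIntegral.integral_add_adjacent_intervals (ii_of hD.Gc hs1 ha11)
          (ii_of hD.Gc ha11 hb1)).symm
      have h4 : 0 ≤ ∫ t in (-1 / 16 : ℝ)..a1, G t := by
        apply intervalIntegral.integral_nonneg t2.le
        intro t ht
        exact hD.Gn t ⟨by linarith [ht.1], by linarith [ht.2]⟩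
      have h5 : b - a1 ≤ 1 := by linarith [hb.2]
      linarith)
    (by
      intro b hb
      have ha11 : a1 ∈ Ioo (-1 : ℝ) 0 := ⟨by linarith, by linarith⟩
      have hb1 : b ∈ Ioo (-1 : ℝ) 0 := ⟨by linarith [hb.1], hb.2⟩
      have hs1 : (-1 / 16 : ℝ) ∈ Ioo (-1 : ℝ) 0 := ⟨by norm_num, by norm_num⟩
      have hG1 : ∫ t in a1..b, G t ≤ K := by
        have h2 := hD.Gi b ⟨t2.trans hb.1, hb.2⟩
        have h3 : ∫ t in (-1 / 16 : ℝ)..b, G t
            = (∫ t in (-1 / 16 : ℝ)..a1, G t) + ∫ t in a1..b, G t :=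
          (intervalIntegral.integral_add_adjacent_intervals (ii_of hD.Gc hs1 ha11)
            (ii_of hD.Gc ha11 hb1)).symm
        have h4 : 0 ≤ ∫ t in (-1 / 16 : ℝ)..a1, G t := by
          apply intervalIntegral.integral_nonneg t2.le
          intro t ht
          exact hD.Gn t ⟨by linarith [ht.1], by linarith [ht.2]⟩
        linarith
      have hX1 : ∫ t in a1..b, NT n ρ2 (v t) ≤ B := hI b hb
      have h1 : ∫ t in a1..b, ((∑ p : Fin 3 × Fin 3, ∫ x, SS n (Om p.1 p.2 (v t)) x * φ x ^ 2)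
          + (Q * (1 + G t + NT n ρ2 (v t)) + 10 * M * NT n ρ2 (v t)))
          ≤ ∫ t in a1..b, (Q + Q * G t + (1 + Q + 10 * M) * NT n ρ2 (v t)) := by
        apply intervalIntegral.integral_mono_on_of_le_Ioo hb.1.le
        · exact ii_of ((ctw n).add ((continuousOn_const.mul ((continuousOn_const.add hD.Gc).add
            cX)).add (continuousOn_const.mul cX))) ha11 hb1
        · exact ii_of ((continuousOn_const.add (continuousOn_const.mul hD.Gc)).add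
            (continuousOn_const.mul cX)) ha11 hb1
        · intro t ht
          have ht' : t ∈ Ioo (-1 / 16 : ℝ) 0 := ⟨t2.trans ht.1, ht.2.trans hb.2⟩
          have g1 : ∑ p : Fin 3 × Fin 3, ∫ x, SS n (Om p.1 p.2 (v t)) x * φ x ^ 2
              ≤ NT n ρ1 (v t) :=
            Finset.sum_le_sum fun p _ => cut_le_N n hφ (om_sm (hD.cv ht') p.1 p.2)
          have g2 : NT n ρ1 (v t) ≤ NT n ρ2 (v t) := NT_mono n r2.le (hD.cv ht')
          linarith
      refine h1.trans ?_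
      have h2 : ∫ t in a1..b, (Q + Q * G t + (1 + Q + 10 * M) * NT n ρ2 (v t))
          = Q * (b - a1) + Q * (∫ t in a1..b, G t)
            + (1 + Q + 10 * M) * ∫ t in a1..b, NT n ρ2 (v t) := by
        rw [intervalIntegral.integral_add, intervalIntegral.integral_add,
          intervalIntegral.integral_const_mul, intervalIntegral.integral_const_mul,
          intervalIntegral.integral_const]
        · simp only [smul_eq_mul]
          ring
        · exact intervalIntegrable_const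
        · exact (ii_of hD.Gc ha11 hb1).const_mul Q
        · exact ii_of (continuousOn_const.add (continuousOn_const.mul hD.Gc)) ha11 hb1
        · exact (ii_of cX ha11 hb1).const_mul _
      rw [h2, hK1]
      have h5 : b - a1 ≤ 1 := by linarith [hb.2]
      have g1 := mul_le_mul_of_nonneg_left h5 hQ0
      have g2 := mul_le_mul_of_nonneg_left hG1 hQ0
      have g3 := mul_le_mul_of_nonneg_left hX1 (by positivity : (0 : ℝ) ≤ 1 + Q + 10 * M)
      linarith)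
    hK10 hKA0
  obtain ⟨g1, g2⟩ := hgr
  refine ⟨?_, ?_⟩
  · intro i hi t ht
    have ht' : t ∈ Ioo (-1 / 16 : ℝ) 0 := ⟨ha.trans ht.1, ht.2⟩
    rcases Nat.lt_succ_iff_lt_or_eq.1 hi with h | h
    · have h1 := hS i h t ⟨t1.trans ht.1, ht.2⟩
      have h2 : NT i ρ (v t) ≤ NT i ρ2 (v t) := NT_mono i (r1.trans r2).le (hD.cv ht')
      linarith
    · subst h
      have h1 := g1 t ht
      have h2 : NT i ρ (v t) ≤ ∑ p : Fin 3 × Fin 3, ∫ x, SS i (Om p.1 p.2 (v t)) x * φ x ^ 2 :=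
        Finset.sum_le_sum fun p _ => N_le_cut i hφ (om_sm (hD.cv ht') p.1 p.2)
      linarith
  · intro b hb
    have ha11 : a ∈ Ioo (-1 : ℝ) 0 := ⟨by linarith, ha0⟩
    have hb1 : b ∈ Ioo (-1 : ℝ) 0 := ⟨by linarith [hb.1], hb.2⟩
    have h1 := g2 b hb
    have h2 : ∫ t in a..b, NT (n + 1) ρ (v t)
        ≤ ∫ t in a..b, ∑ p : Fin 3 × Fin 3, ∫ x, SS (n + 1) (Om p.1 p.2 (v t)) x * φ x ^ 2 := by
      apply intervalIntegral.integral_mono_on_of_le_Ioo hb.1.le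
        (ii_of (ct_NT (n + 1) ρ hD.sv) ha11 hb1) (ii_of (ctw (n + 1)) ha11 hb1)
      intro t ht
      have ht' : t ∈ Ioo (-1 / 16 : ℝ) 0 := ⟨ha.trans ht.1, ht.2.trans hb.2⟩
      exact Finset.sum_le_sum fun p _ => N_le_cut (n + 1) hφ (om_sm (hD.cv ht') p.1 p.2)
    linarith

theorem lev (K : ℝ) (hK : 0 ≤ K) (n : ℕ) : Lev K n := by
  induction n with
  | zero => exact lev0 K hK
  | succ n ih => exact lev_succ K hK n ih

/-- Pointwise bounds for all derivatives of the vorticity. -/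
theorem lev_pt (K : ℝ) (hK : 0 ≤ K) (n : ℕ) : ∃ C : ℝ, 0 < C ∧
    ∀ (v W : ℝ → V → V) (G : ℝ → ℝ), Dat K v W G → ∀ t ∈ Ioo (-1 / 32 : ℝ) 0,
      ∀ x ∈ ball (0 : V) (1 / 16), ST n (v t) x ≤ C := by
  obtain ⟨B, hB, H⟩ := lev K hK (n + 4) (1 / 8) (-1 / 32) (by norm_num) (by norm_num)
    (by norm_num) (by norm_num)
  obtain ⟨C, hC, HC⟩ := pointN (ρ' := 1 / 16) (ρ := 1 / 8) (by norm_num) (by norm_num)
    (by norm_num)
  refine ⟨C * (4 * B) + 1, by positivity, fun v W G hD t ht x hx => ?_⟩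
  have ht' : t ∈ Ioo (-1 / 16 : ℝ) 0 := ⟨by linarith [ht.1], ht.2⟩
  obtain ⟨hS, -⟩ := H v W G hD
  have h1 : ST n (v t) x ≤ C * (NT n (1 / 8) (v t) + NT (n + 1) (1 / 8) (v t)
      + NT (n + 2) (1 / 8) (v t) + NT (n + 3) (1 / 8) (v t)) := by
    have h2 : ST n (v t) x ≤ ∑ p : Fin 3 × Fin 3, C * (N n (1 / 8) (Om p.1 p.2 (v t))
        + N (n + 1) (1 / 8) (Om p.1 p.2 (v t)) + N (n + 2) (1 / 8) (Om p.1 p.2 (v t))
        + N (n + 3) (1 / 8) (Om p.1 p.2 (v t))) :=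
      Finset.sum_le_sum fun p _ => HC n _ (om_sm (hD.cv ht') p.1 p.2) x hx
    refine h2.trans (le_of_eq ?_)
    rw [← Finset.mul_sum, Finset.sum_add_distrib, Finset.sum_add_distrib, Finset.sum_add_distrib]
    rfl
  have a0 := hS n (by omega) t ht
  have a1 := hS (n + 1) (by omega) t ht
  have a2 := hS (n + 2) (by omega) t ht
  have a3 := hS (n + 3) (by omega) t ht
  have h3 := mul_le_mul_of_nonneg_left (add_le_add (add_le_add (add_le_add a0 a1) a2) a3) hC.le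
  linarith

end Pool.Agent.TH305.DR
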