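import Pool.Agent.TH305.DR.Lev

/-!
Derivative bounds (helper305): small dissipation at one scale bounds all derivatives of the
vorticity.
-/

set_option autoImplicit false

open MeasureTheory Set Metric Filter Topology
open scoped ContDiff

namespace Pool.Agent.TH305.DR

open H459R3.NS W221.NS
open Pool.Agent.W583.MD (sm_pd cs_pd pd_mul' Z Z.add Z.sub Z.smul Z.sum int_cs Z_pd hd_int hcs)
open Pool.Agent.W639.MH (int_ball)
open Pool.Agent.W22.ME.TD (pd_comm lap_smooth)
open Pool.Agent.W505.ME.TSM (JS JS.slice JS.pd JS.dt JS.comm JS.sub JS.sum JS.hd_t)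

/-- The advection term and the vorticity. -/
lemma adv_eq {v : V → V} (hv : ∀ i, ContDiff ℝ ∞ (fun y => v y i)) (j : Fin 3) :
    (adv v (fun y => v y j)) = fun x => bb v j x + pd j (fun y => ∑ m, v y m * v y m / 2) x := by
  funext x
  have h1 : pd j (fun y => ∑ m, v y m * v y m / 2) x = ∑ m, v x m * pd j (fun y => v y m) x := by
    rw [pd_sum' _ (fun m => ((hv m).mul (hv m)).div_const 2)]
    refine Finset.sum_congr rfl fun m _ => ?_
    have e : (fun y => v y m * v y m / 2) = fun y => (1 / 2 * v y m) * v y m := by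
      funext y
      ring
    rw [e, pd_mul' (contDiff_const.mul (hv m)) (hv m)]
    have e2 : pd j (fun y => 1 / 2 * v y m) x = 1 / 2 * pd j (fun y => v y m) x := by
      rw [pd_mul' contDiff_const (hv m), pd_const']
      ring
    rw [e2]
    ring
  rw [h1]
  unfold adv bb Om
  rw [← Finset.sum_add_distrib]
  exact Finset.sum_congr rfl fun m _ => by ring

/-- The vorticity equation. -/
lemma vort_eq {v : ℝ → V → V} {q : ℝ → V → ℝ} (hL : Loc2 v q) {t : ℝ}
    (ht : t ∈ Ioo (-1 : ℝ) 0) {x : V} (hx : x ∈ ball (0 : V) 8) (i j : Fin 3) :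
    deriv (fun s => Om i j (v s) x) t
      = lap (Om i j (v t)) x - pd i (bb (v t) j) x + pd j (bb (v t) i) x := by
  have hsv : ∀ i, JS (fun t y => v t y i) := fun i => contDiffOn_pi.1 hL.smooth_v i
  have hv : ∀ i, ContDiff ℝ ∞ (fun y => v t y i) := fun i => (hsv i).slice ht
  have hq : JS q := hL.smooth_q
  have hqt : ContDiff ℝ ∞ (q t) := hq.slice ht
  set e : V → ℝ := fun y => ∑ m, v t y m * v t y m / 2 with he
  have hes : ContDiff ℝ ∞ e := ContDiff.sum fun m _ => ((hv m).mul (hv m)).div_const 2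
  have hmom : ∀ j, ∀ y ∈ ball (0 : V) 8, deriv (fun s => v s y j) t
      = lap (fun w => v t w j) y - (bb (v t) j y + pd j e y) - pd j (q t) y := by
    intro j y hy
    have h2 := hL.momentum t ht y hy j
    rw [adv_eq hv j] at h2
    linarith
  have hD : ∀ i j, pd i (fun y => deriv (fun s => v s y j) t) x
      = lap (pd i (fun w => v t w j)) x - (pd i (bb (v t) j) x + pd i (pd j e) x)
        - pd i (pd j (q t)) x := by
    intro i j
    have h1 : pd i (fun y => deriv (fun s => v s y j) t) x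
        = pd i (fun y => lap (fun w => v t w j) y - (bb (v t) j y + pd j e y) - pd j (q t) y) x :=
      pd_congr_open isOpen_ball (hmom j) i hx
    rw [h1, pd_sub' ((lap_smooth (hv j)).sub ((bb_sm hv j).add (sm_pd hes j))) (sm_pd hqt j),
      pd_sub' (lap_smooth (hv j)) ((bb_sm hv j).add (sm_pd hes j)),
      pd_add' (bb_sm hv j) (sm_pd hes j), lap_pd_comm (hv j)]
  have hlap : lap (Om i j (v t)) x
      = lap (pd i (fun w => v t w j)) x - lap (pd j (fun w => v t w i)) x := by
    unfold lap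
    rw [← Finset.sum_sub_distrib]
    refine Finset.sum_congr rfl fun k _ => ?_
    have e1 : Om i j (v t) = fun y => pd i (fun w => v t w j) y - pd j (fun w => v t w i) y := rfl
    rw [e1, pd_sub' (sm_pd (hv j) i) (sm_pd (hv i) j),
      pd_sub' (sm_pd (sm_pd (hv j) i) k) (sm_pd (sm_pd (hv i) j) k)]
  have h3 : deriv (fun s => Om i j (v s) x) t
      = pd i (fun y => deriv (fun s => v s y j) t) x
        - pd j (fun y => deriv (fun s => v s y i) t) x := by
    have a1 : HasDerivAt (fun s => pd i (fun y => v s y j) x)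
        (deriv (fun s => pd i (fun y => v s y j) x) t) t :=
      (((hsv j).pd i).hd_t ht x).differentiableAt.hasDerivAt
    have a2 : HasDerivAt (fun s => pd j (fun y => v s y i) x)
        (deriv (fun s => pd j (fun y => v s y i) x) t) t :=
      (((hsv i).pd j).hd_t ht x).differentiableAt.hasDerivAt
    have a3 := (a1.sub a2).deriv
    have b1 := (hsv j).comm ht x i
    have b2 := (hsv i).comm ht x j
    rw [b1, b2] at a3
    exact a3
  rw [h3, hD, hD, hlap, pd_comm hes i j, pd_comm hqt i j]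
  ring

lemma lap_div {v : V → V} (hv : ∀ i, ContDiff ℝ ∞ (fun y => v y i))
    (hd : ∀ x ∈ ball (0 : V) 8, dv v x = 0) {x : V} (hx : x ∈ ball (0 : V) 8) (i : Fin 3) :
    lap (fun y => v y i) x = ∑ m, pd m (Om m i v) x := by
  have h1 : ∀ m, pd m (Om m i v) x
      = pd m (pd m (fun w => v w i)) x - pd m (pd i (fun w => v w m)) x := by
    intro m
    have e1 : Om m i v = fun y => pd m (fun w => v w i) y - pd i (fun w => v w m) y := rfl
    rw [e1, pd_sub' (sm_pd (hv i) m) (sm_pd (hv m) i)]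
  have h2 : ∑ m, pd m (pd i (fun w => v w m)) x = 0 := by
    have a1 : ∑ m, pd m (pd i (fun w => v w m)) x = pd i (dv v) x := by
      have : dv v = fun y => ∑ m, pd m (fun w => v w m) y := rfl
      rw [this, pd_sum' _ (fun m => sm_pd (hv m) m)]
      exact Finset.sum_congr rfl fun m _ => by rw [pd_comm (hv m) m i]
    have a2 : pd i (dv v) x = pd i (fun _ => 0) x := pd_congr_open isOpen_ball hd i hx
    rw [a1, a2, pd_const']
  simp only [h1, Finset.sum_sub_distrib, h2, sub_zero]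
  rfl

lemma NT0_le {v : V → V} (hv : ∀ i, ContDiff ℝ ∞ (fun y => v y i)) :
    NT 0 (1 / 4) v ≤ 4 * B2 0 8 v := by
  rw [NT_eq 0 _ hv]
  have e : gsq v = SV 1 v := rfl
  unfold B2
  rw [e, ← integral_const_mul]
  have h1 : ∫ x in ball (0 : V) (1 / 4), ST 0 v x ≤ ∫ x in ball (0 : V) (1 / 4), 4 * SV 1 v x := by
    apply integral_mono (int_ball (ST_cont 0 hv) 0 _)
      (int_ball ((SV_cont 1 hv).const_mul 4) 0 _)
    intro x
    exact ST0_le x
  refine h1.trans ?_
  have i8 : IntegrableOn (fun x => 4 * SV 1 v x) (ball (0 : V) 8) :=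
    int_ball ((SV_cont 1 hv).const_mul 4) 0 8
  apply setIntegral_mono_set i8
  · refine Eventually.of_forall fun x => ?_
    show (0 : ℝ) ≤ 4 * SV 1 v x
    have := SV_nonneg 1 v x
    positivity
  · exact (ball_subset_ball (by norm_num)).eventuallyLE

/-- Pointwise bounds for all derivatives of `W`. -/
theorem lev_W (K : ℝ) (hK : 0 ≤ K) (n : ℕ) : ∃ C : ℝ, 0 < C ∧
    ∀ (v W : ℝ → V → V) (G : ℝ → ℝ), Dat K v W G → ∀ t ∈ Ioo (-1 / 32 : ℝ) 0,
      ∀ x ∈ ball (0 : V) (1 / 16), SV n (W t) x ≤ C := by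
  obtain ⟨B, hB, H⟩ := lev K hK (n + 4) (1 / 8) (-1 / 32) (by norm_num) (by norm_num)
    (by norm_num) (by norm_num)
  obtain ⟨C, hC, HC⟩ := pointN (ρ' := 1 / 16) (ρ := 3 / 32) (by norm_num) (by norm_num)
    (by norm_num)
  have hW : ∀ k, ∃ D : ℝ, 0 < D ∧ (k ≤ n + 4 → ∀ (v W : ℝ → V → V) (G : ℝ → ℝ), Dat K v W G →
      ∀ t ∈ Ioo (-1 / 16 : ℝ) 0, (∀ i < n + 4, NT i (1 / 8) (v t) ≤ B) →
        NV k (3 / 32) (W t) ≤ D) := by
    intro k
    by_cases hk : k ≤ n + 4
    · obtain ⟨D, hD, h⟩ := Wk K B hB k (n + 4) hk (ρ' := 3 / 32) (ρ := 1 / 8) (by norm_num)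
        (by norm_num) (by norm_num)
      exact ⟨D, hD, fun _ => h⟩
    · exact ⟨1, one_pos, fun h => absurd h hk⟩
  choose D hD HD using hW
  refine ⟨C * (D n + D (n + 1) + D (n + 2) + D (n + 3)), by
    have := hD n
    have := hD (n + 1)
    have := hD (n + 2)
    have := hD (n + 3)
    positivity, fun v W G hDat t ht x hx => ?_⟩
  have ht' : t ∈ Ioo (-1 / 16 : ℝ) 0 := ⟨by linarith [ht.1], ht.2⟩
  obtain ⟨hS, -⟩ := H v W G hDat
  have hS' : ∀ i < n + 4, NT i (1 / 8) (v t) ≤ B := fun i hi => hS i hi t ht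
  have h1 : SV n (W t) x ≤ C * (NV n (3 / 32) (W t) + NV (n + 1) (3 / 32) (W t)
      + NV (n + 2) (3 / 32) (W t) + NV (n + 3) (3 / 32) (W t)) := by
    have h2 : SV n (W t) x ≤ ∑ i, C * (N n (3 / 32) (fun y => W t y i)
        + N (n + 1) (3 / 32) (fun y => W t y i) + N (n + 2) (3 / 32) (fun y => W t y i)
        + N (n + 3) (3 / 32) (fun y => W t y i)) :=
      Finset.sum_le_sum fun i _ => HC n _ (hDat.cW ht' i) x hx
    refine h2.trans (le_of_eq ?_)
    rw [← Finset.mul_sum, Finset.sum_add_distrib, Finset.sum_add_distrib, Finset.sum_add_distrib]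
    rfl
  have a0 := HD n (by omega) v W G hDat t ht' hS'
  have a1 := HD (n + 1) (by omega) v W G hDat t ht' hS'
  have a2 := HD (n + 2) (by omega) v W G hDat t ht' hS'
  have a3 := HD (n + 3) (by omega) v W G hDat t ht' hS'
  exact h1.trans (mul_le_mul_of_nonneg_left (add_le_add (add_le_add (add_le_add a0 a1) a2) a3)
    hC.le)

/-- Small dissipation at unit scale bounds all derivatives of the vorticity, and all derivatives
of the velocity in terms of its `L²` norm at the same time. -/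
theorem loc_all : ∃ ε : ℝ, 0 < ε ∧ ∃ C : ℕ → ℝ, (∀ n, 0 < C n) ∧
    ∀ (v : ℝ → V → V) (q : ℝ → V → ℝ), Loc2 v q →
      IntegrableOn (fun t => B2 0 8 (v t)) (Ioo (-1) 0) →
      ∫ t in Ioo (-1) 0, B2 0 8 (v t) ≤ ε →
      ∀ n, ∀ t ∈ Ioo (-1 / 32 : ℝ) 0, ∀ x ∈ ball (0 : V) (1 / 16),
        ST n (v t) x ≤ C n ∧ SV n (v t) x ≤ C n * (1 + A2 0 4 (v t)) := by
  obtain ⟨g, C0, hC0, hg⟩ := W221.NS.B.p_green
  obtain ⟨C', hC', H⟩ := W221.NS.B.p_hyp g C0 hg
  obtain ⟨CD, hCD, Dec⟩ := W221.NS.B.p_dec g C0 hg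
  obtain ⟨ε, CL, hε, hCL, L⟩ := W221.NS.B.p_loc2
  obtain ⟨K, hK⟩ : ∃ x : ℝ, x = CL + ε + 4 / C' := ⟨_, rfl⟩
  have h4C : 0 < 4 / C' := by positivity
  have hK0 : 0 ≤ K := by rw [hK]; positivity
  have hpt := fun n => lev_pt K hK0 n
  choose C hC HC using hpt
  have hptW := fun n => lev_W K hK0 n
  choose CW hCW HCW using hptW
  have hha : ∀ n, ∃ C : ℝ, 0 < C ∧ ∀ f : V → ℝ, ContDiff ℝ ∞ f →
      (∀ x ∈ ball (0 : V) (1 / 4), lap f x = 0) →
      ∀ x ∈ ball (0 : V) (1 / 16), SS n f x ≤ C * N 0 (1 / 4) f := fun n =>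
    harm_pt n (by norm_num) (by norm_num) (by norm_num)
  choose CH hCH HCH using hha
  refine ⟨ε / C', by positivity, fun n => C n + 2 * CW n + 48 * CH n * CD ^ 2, fun n => by
    have := hC n
    have := hCW n
    have := hCH n
    positivity, fun v q hL hint hsmall n t ht x hx => ?_⟩
  have hle : C' * ∫ t in Ioo (-1) 0, B2 0 8 (v t) ≤ ε := by
    calc C' * ∫ t in Ioo (-1) 0, B2 0 8 (v t) ≤ C' * (ε / C') := by gcongr
      _ = ε := by field_simp
  have hH := H v q hL ε hint hle
  have hW := L v _ _ hH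
  obtain ⟨-, hWs, hSl, hGi, hGe⟩ := hH
  have hsv : ∀ i, JS (fun t y => v t y i) := fun i => contDiffOn_pi.1 hL.smooth_v i
  have hB0 : ∀ t, 0 ≤ B2 0 8 (v t) := fun t => integral_nonneg fun x =>
    Finset.sum_nonneg fun i _ => Finset.sum_nonneg fun j _ => sq_nonneg _
  have hBc : ContinuousOn (fun t => B2 0 8 (v t)) (Ioo (-1) 0) :=
    ((W221.NS.B.p_ct (-1) 0 v hL.smooth_v).1 0 8).2
  have hGc : ContinuousOn (fun t => C' * B2 0 8 (v t)) (Ioo (-1) 0) :=
    continuousOn_const.mul hBc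
  have hlapH : ∀ t ∈ Ioo (-1 / 16 : ℝ) 0, ∀ x ∈ ball (0 : V) (1 / 4), ∀ i,
      lap (fun y => v t y i - TT g (v t) y i) x = 0 := by
    intro t ht x hx i
    obtain ⟨P, hP⟩ := hSl t (tIoo ht)
    have h1 := hP.lapD x (ball_subset_ball (by norm_num) hx) i
    have hvi : ContDiff ℝ ∞ (fun y => v t y i) := (hsv i).slice (tIoo ht)
    have hWi : ContDiff ℝ ∞ (fun y => TT g (v t) y i) := contDiff_pi.1 hP.sW i
    have b3 : lap (fun y => v t y i - TT g (v t) y i) x
        = lap (fun y => v t y i) x - lap (fun y => TT g (v t) y i) x := by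
      unfold lap
      rw [← Finset.sum_sub_distrib]
      refine Finset.sum_congr rfl fun j _ => ?_
      rw [pd_sub' hvi hWi, pd_sub' (sm_pd hvi j) (sm_pd hWi j)]
    rw [b3, h1, sub_self]
  have hDat : Dat K v (fun t => TT g (v t)) (fun t => C' * B2 0 8 (v t)) := by
    refine ⟨hsv, fun i => contDiffOn_pi.1 hWs i, ?_, ?_, hlapH, ?_, ?_, hGc, ?_, ?_, ?_⟩
    · intro t ht x hx i j
      exact vort_eq hL (tIoo ht) (ball_subset_ball (by norm_num) hx) i j
    · intro t ht x hx i
      exact lap_div (fun i => (hsv i).slice (tIoo ht)) (hL.divfree t (tIoo ht))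
        (ball_subset_ball (by norm_num) hx) i
    · intro t ht x hx i
      have := hW t ht x hx i
      rw [hK]
      linarith
    · intro t ht x hx i
      obtain ⟨P, hP⟩ := hSl t (tIoo ht)
      exact hP.dD x (ball_subset_ball (by norm_num) hx) i
    · intro t _
      have := hB0 t
      positivity
    · intro b hb
      rw [intervalIntegral.integral_of_le hb.1.le, integral_Ioc_eq_integral_Ioo]
      have h1 : ∫ t in Ioo (-1 / 16 : ℝ) b, C' * B2 0 8 (v t)
          ≤ ∫ t in Ioo (-1 : ℝ) 0, C' * B2 0 8 (v t) := by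
        apply setIntegral_mono_set hGi
        · refine Eventually.of_forall fun t => ?_
          show (0 : ℝ) ≤ C' * B2 0 8 (v t)
          have := hB0 t
          positivity
        · exact (Ioo_subset_Ioo (by norm_num) hb.2.le).eventuallyLE
      rw [hK]
      linarith
    · intro t ht
      have h1 := NT0_le (v := v t) (fun i => (hsv i).slice (tIoo ht))
      have h2 : 4 * B2 0 8 (v t) ≤ K * (C' * B2 0 8 (v t)) := by
        have h3 : 4 / C' ≤ K := by rw [hK]; linarith
        have h4 : 4 / C' * (C' * B2 0 8 (v t)) ≤ K * (C' * B2 0 8 (v t)) :=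
          mul_le_mul_of_nonneg_right h3 (by
            have := hB0 t
            positivity)
        have h5 : 4 / C' * (C' * B2 0 8 (v t)) = 4 * B2 0 8 (v t) := by
          field_simp
        linarith
      exact h1.trans h2
  have ht16 : t ∈ Ioo (-1 / 16 : ℝ) 0 := ⟨by linarith [ht.1], ht.2⟩
  have hA0 : 0 ≤ A2 0 4 (v t) := integral_nonneg fun x => Finset.sum_nonneg fun i _ => sq_nonneg _
  have p1 := hC n
  have p2 := hCW n
  have p3 := hCH n
  refine ⟨?_, ?_⟩
  · have h1 := HC n v _ _ hDat t ht x hx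
    have h2 : 0 ≤ 48 * CH n * CD ^ 2 := by positivity
    linarith
  · have h1 := SV_split n hDat ht16 x
    have h2 := HCW n v _ _ hDat t ht x hx
    have h3 : SV n (fun y i => v t y i - TT g (v t) y i) x ≤ 24 * CH n * CD ^ 2 * A2 0 4 (v t) := by
      have h4 : ∀ i, SS n (fun y => v t y i - TT g (v t) y i) x
          ≤ CH n * (8 * (CD ^ 2 * A2 0 4 (v t))) := by
        intro i
        have hs : ContDiff ℝ ∞ (fun y => v t y i - TT g (v t) y i) :=
          (hDat.cv ht16 i).sub (hDat.cW ht16 i)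
        refine (HCH n _ hs (fun x hx => hlapH t ht16 x hx i) x hx).trans ?_
        apply mul_le_mul_of_nonneg_left _ p3.le
        apply N0_le (by norm_num) (by positivity) hs
        intro y hy
        have h5 := ((Dec (v t) (contDiff_pi.2 (hDat.cv ht16)) (hL.divfree t (tIoo ht16))).2.2.2 y
          (ball_subset_ball (by norm_num) hy) i).1
        have h6 : CD ^ 2 * A2 0 4 (v t) = (CD * √(A2 0 4 (v t))) ^ 2 := by
          rw [mul_pow, Real.sq_sqrt hA0]
        rw [h6]
        exact sq_le_sq' (by linarith [(abs_le.1 h5).1]) (abs_le.1 h5).2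
      have h5 : SV n (fun y i => v t y i - TT g (v t) y i) x
          ≤ ∑ _i : Fin 3, CH n * (8 * (CD ^ 2 * A2 0 4 (v t))) :=
        Finset.sum_le_sum fun i _ => h4 i
      simp only [Finset.sum_const, Finset.card_univ, Fintype.card_fin] at h5
      refine h5.trans (le_of_eq ?_)
      norm_num
      ring
    have h4 : 0 ≤ C n * (1 + A2 0 4 (v t)) := by positivity
    have h5 : 0 ≤ 2 * CW n * A2 0 4 (v t) := by positivity
    have h6 : 0 ≤ 48 * CH n * CD ^ 2 := by positivity
    have h7 : SV n (v t) x ≤ 2 * CW n + 2 * (24 * CH n * CD ^ 2 * A2 0 4 (v t)) := by linarith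
    refine h7.trans ?_
    nlinarith

end Pool.Agent.TH305.DR
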