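import Pool.Agent.TH305.DR.Loc

/-!
Derivative bounds (helper305): the dissipation along the flow, as a function of the label.
-/

set_option autoImplicit false

open MeasureTheory Set Metric
open scoped ContDiff ENNReal

namespace Pool.Agent.TH305.DR

open H459R3.NS W221.NS W335.MD W919.MH.MARK3

/-- The dissipation along the flow is a measurable function of the label, and its integral. -/
theorem mark5 {T : ℝ} {O : Set V} {u : ℝ → V → V} (hO : IsOpen O)
    (hu : ContDiffOn ℝ ∞ (fun z : ℝ × V => u z.1 z.2) (Ioo 0 T ×ˢ univ)) {r a b : ℝ}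
    (hr : 0 < r) (ha : 0 < a) (hab : a ≤ b) (hb : b < T)
    {X : ℝ → V → V} {c : ℝ≥0∞}
    (hX : ContinuousOn (fun z : ℝ × V => X z.1 z.2) (Icc a b ×ˢ univ))
    (hmap : ∀ t ∈ Icc a b, Measure.map (X t) volume ≤ c • volume) :
    Measurable (fun x => ∫⁻ τ in Ioo a b, ∫⁻ y in ball (X τ x) (8 * r) ∩ O,
      ENNReal.ofReal (gsq (u τ) y)) ∧
    ∫⁻ x, ∫⁻ τ in Ioo a b, ∫⁻ y in ball (X τ x) (8 * r) ∩ O, ENNReal.ofReal (gsq (u τ) y)
      ≤ c * ENNReal.ofReal (4096 * r ^ 3) *
        ∫⁻ τ in Ioo a b, ∫⁻ y in O, ENNReal.ofReal (gsq (u τ) y) := by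
  have hgs : ContinuousOn (fun z : ℝ × V => gsq (u z.1) z.2) (Ioo 0 T ×ˢ univ) :=
    gsq_cont hu
  set S : Set (ℝ × V) := Ioo a b ×ˢ O with hS
  have hSm : MeasurableSet S := measurableSet_Ioo.prod hO.measurableSet
  have hSsub : S ⊆ Ioo 0 T ×ˢ univ := by
    rintro ⟨τ, y⟩ ⟨h1, _⟩
    simp only [mem_Ioo] at h1
    exact ⟨⟨by linarith [h1.1], by linarith [h1.2]⟩, mem_univ _⟩
  set G : ℝ × V → ℝ≥0∞ := S.indicator fun z => ENNReal.ofReal (gsq (u z.1) z.2) with hG
  have hGm : Measurable G := measurable_indicator hSm (hgs.mono hSsub)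
  -- the clamped flow
  set cl : ℝ → ℝ := fun t => max a (min b t) with hcl
  have hclc : Continuous cl := by rw [hcl]; fun_prop
  have hclm : ∀ t, cl t ∈ Icc a b := by
    intro t
    rw [hcl]
    exact ⟨le_max_left _ _, max_le hab (min_le_left _ _)⟩
  have hcleq : ∀ t ∈ Ioo a b, cl t = t := by
    intro t ht
    rw [hcl]
    simp only
    rw [min_eq_right ht.2.le, max_eq_right ht.1.le]
  have hXc : Continuous (fun z : ℝ × V => X (cl z.1) z.2) := by
    have h1 : Continuous (fun z : ℝ × V => (cl z.1, z.2)) :=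
      (hclc.comp continuous_fst).prodMk continuous_snd
    have h2 := hX.comp_continuous h1 (fun z => ⟨hclm z.1, mem_univ _⟩)
    exact h2
  have hXt : ∀ t, Continuous (X (cl t)) := fun t =>
    hXc.comp (continuous_const.prodMk continuous_id : Continuous fun x : V => (t, x))
  -- the integrand
  set B : V → V → ℝ≥0∞ := fun z y => (ball z (8 * r)).indicator (fun _ => 1) y with hB
  have hBm : Measurable (fun w : V × V => B w.1 w.2) := by
    have h1 : MeasurableSet {w : V × V | dist w.2 w.1 < 8 * r} :=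
      (isOpen_lt (by fun_prop) continuous_const).measurableSet
    have h2 : (fun w : V × V => B w.1 w.2)
        = {w : V × V | dist w.2 w.1 < 8 * r}.indicator fun _ => 1 := by
      funext w
      rw [hB]
      simp only [Set.indicator, mem_ball]
      rfl
    rw [h2]
    exact measurable_const.indicator h1
  have hBsymm : ∀ z y, B z y = B y z := by
    intro z y
    rw [hB]
    simp only [Set.indicator, mem_ball]
    rw [dist_comm]
  -- inner integral
  have hinner : ∀ t ∈ Ioo a b, ∀ x, ∫⁻ y in ball (X t x) (8 * r) ∩ O,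
      ENNReal.ofReal (gsq (u t) y)
      = ∫⁻ y, B (X (cl t) x) y * G (t, y) := by
    intro t ht x
    rw [← lintegral_indicator (isOpen_ball.measurableSet.inter hO.measurableSet)]
    congr 1
    funext y
    rw [hcleq t ht]
    rw [hB, hG]
    simp only [Set.indicator, mem_inter_iff]
    by_cases h1 : y ∈ ball (X t x) (8 * r)
    · by_cases h2 : y ∈ O
      · have h3 : (t, y) ∈ S := ⟨ht, h2⟩
        rw [if_pos ⟨h1, h2⟩, if_pos h1, if_pos h3, one_mul]
      · have h3 : (t, y) ∉ S := fun h => h2 h.2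
        rw [if_neg (fun h => h2 h.2), if_neg h3, mul_zero]
    · rw [if_neg (fun h => h1 h.1), if_neg h1, zero_mul]
  -- the ball
  have hvol : ∀ y : V, ∫⁻ z, B z y = ENNReal.ofReal (4096 * r ^ 3) := by
    intro y
    have h1 : (fun z => B z y) = (ball y (8 * r)).indicator (fun _ => 1) := by
      funext z
      exact hBsymm z y
    rw [h1]
    exact vol y r hr
  have hlast : ∀ τ ∈ Ioo a b, ∫⁻ y, G (τ, y)
      = ∫⁻ y in O, ENNReal.ofReal (gsq (u τ) y) := by
    intro τ hτ
    rw [← lintegral_indicator hO.measurableSet]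
    congr 1
    funext y
    rw [hG]
    simp only [Set.indicator]
    by_cases h2 : y ∈ O
    · have h3 : (τ, y) ∈ S := ⟨hτ, h2⟩
      rw [if_pos h3, if_pos h2]
    · have h3 : (τ, y) ∉ S := fun h => h2 h.2
      rw [if_neg h3, if_neg h2]
  clear_value B G cl
  -- measurability
  have hF : Measurable (fun w : ℝ × V => ∫⁻ y, B w.2 y * G (w.1, y)) := by
    apply Measurable.lintegral_prod_right'
      (f := fun w : (ℝ × V) × V => B w.1.2 w.2 * G (w.1.1, w.2))
    have g1 : Measurable (fun w : (ℝ × V) × V => ((w.1.2, w.2) : V × V)) := by fun_prop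
    have g2 : Measurable (fun w : (ℝ × V) × V => ((w.1.1, w.2) : ℝ × V)) := by fun_prop
    exact (hBm.comp g1).mul (hGm.comp g2)
  -- the integral at one time
  have htime : ∀ t, ∫⁻ x, ∫⁻ y, B (X (cl t) x) y * G (t, y)
      ≤ c * ENNReal.ofReal (4096 * r ^ 3) * ∫⁻ y, G (t, y) := by
    intro t
    have hFt : Measurable (fun z : V => ∫⁻ y, B z y * G (t, y)) :=
      hF.comp (measurable_const.prodMk measurable_id : Measurable fun z : V => (t, z))
    have hGt : Measurable (fun y : V => G (t, y)) :=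
      hGm.comp (measurable_const.prodMk measurable_id)
    calc ∫⁻ x, ∫⁻ y, B (X (cl t) x) y * G (t, y)
        = ∫⁻ z, (∫⁻ y, B z y * G (t, y)) ∂(Measure.map (X (cl t)) volume) :=
          (lintegral_map hFt (hXt t).measurable).symm
      _ ≤ ∫⁻ z, (∫⁻ y, B z y * G (t, y)) ∂(c • volume) :=
          lintegral_mono' (hmap _ (hclm t)) le_rfl
      _ = c * ∫⁻ z, (∫⁻ y, B z y * G (t, y)) := by
          rw [lintegral_smul_measure, smul_eq_mul]
      _ = c * ∫⁻ y, ∫⁻ z, B z y * G (t, y) := by
          rw [lintegral_lintegral_swap]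
          apply Measurable.aemeasurable
          exact hBm.mul (hGt.comp measurable_snd)
      _ = c * ∫⁻ y, ENNReal.ofReal (4096 * r ^ 3) * G (t, y) := by
          congr 2
          funext y
          have g3 : Measurable (fun z : V => ((z, y) : V × V)) := by fun_prop
          have hBy : Measurable (fun z : V => B z y) := hBm.comp g3
          rw [lintegral_mul_const _ hBy, hvol]
      _ = c * ENNReal.ofReal (4096 * r ^ 3) * ∫⁻ y, G (t, y) := by
          rw [lintegral_const_mul _ hGt, mul_assoc]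
  have hPhi : Measurable (fun τ : ℝ => ∫⁻ y, G (τ, y)) :=
    Measurable.lintegral_prod_right' hGm
  have hXm : Measurable (fun w : V × ℝ => (w.2, X (cl w.2) w.1)) :=
    measurable_snd.prodMk (hXc.measurable.comp (measurable_snd.prodMk measurable_fst))
  have hfun : (fun x => ∫⁻ τ in Ioo a b, ∫⁻ y in ball (X τ x) (8 * r) ∩ O,
      ENNReal.ofReal (gsq (u τ) y)) = fun x => ∫⁻ t in Ioo a b, ∫⁻ y, B (X (cl t) x) y * G (t, y) := by
    funext x
    exact setLIntegral_congr_fun measurableSet_Ioo fun t ht => by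
      simp only [hinner t ht x]
  refine ⟨?_, ?_⟩
  · rw [hfun]
    have h1 : Measurable (fun w : V × ℝ => ∫⁻ y, B (X (cl w.2) w.1) y * G (w.2, y)) :=
      hF.comp hXm
    exact Measurable.lintegral_prod_right' (f := fun w : V × ℝ =>
      ∫⁻ y, B (X (cl w.2) w.1) y * G (w.2, y)) h1
  -- the whole
  · rw [hfun]
    calc ∫⁻ x, ∫⁻ t in Ioo a b, ∫⁻ y, B (X (cl t) x) y * G (t, y)
        = ∫⁻ t in Ioo a b, ∫⁻ x, ∫⁻ y, B (X (cl t) x) y * G (t, y) := by
          rw [lintegral_lintegral_swap]
          apply Measurable.aemeasurable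
          exact hF.comp hXm
      _ ≤ ∫⁻ t in Ioo a b, (c * ENNReal.ofReal (4096 * r ^ 3) * ∫⁻ y, G (t, y)) :=
          lintegral_mono fun t => htime t
      _ = c * ENNReal.ofReal (4096 * r ^ 3) * ∫⁻ t in Ioo a b, ∫⁻ y, G (t, y) :=
          lintegral_const_mul _ hPhi
      _ = _ := by
          congr 1
          exact setLIntegral_congr_fun measurableSet_Ioo fun τ hτ => by
            simp only [hlast τ hτ]

end Pool.Agent.TH305.DR
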