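import Pool.Agent.TH305.DR.Dat

/-!
Derivative bounds (helper305): the nonlinear term.
-/

set_option autoImplicit false

open MeasureTheory Set Metric Filter Topology
open scoped ContDiff

namespace Pool.Agent.TH305.DR

open H459R3.NS W221.NS
open Pool.Agent.W583.MD (sm_pd cs_pd pd_mul' Z Z.add Z.sub Z.smul Z.sum int_cs Z_pd hd_int hcs)
open Pool.Agent.W639.MH (int_ball)
open Pool.Agent.W505.ME.TSM (JS JS.slice JS.pd JS.dt JS.comm JS.sub JS.sum)

lemma SS_zero_fun (n : ℕ) : SS n (fun _ : V => (0 : ℝ)) = fun _ => 0 := by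
  induction n with
  | zero => funext x; simp [SS_zero]
  | succ n ih => funext x; rw [SS_succ]; simp [pd_const', ih]

lemma ST_cont (n : ℕ) {v : V → V} (hv : ∀ i, ContDiff ℝ ∞ (fun y => v y i)) :
    Continuous (ST n v) := continuous_finsetSum _ fun p _ => SS_cont n (om_sm hv p.1 p.2)

lemma SV_cont (n : ℕ) {v : V → V} (hv : ∀ i, ContDiff ℝ ∞ (fun y => v y i)) :
    Continuous (SV n v) := continuous_finsetSum _ fun i _ => SS_cont n (hv i)

lemma NT_eq (n : ℕ) (ρ : ℝ) {v : V → V} (hv : ∀ i, ContDiff ℝ ∞ (fun y => v y i)) :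
    NT n ρ v = ∫ x in ball (0 : V) ρ, ST n v x :=
  (integral_finsetSum _ fun p _ => N_int n ρ (om_sm hv p.1 p.2)).symm

lemma NV_eq (n : ℕ) (ρ : ℝ) {v : V → V} (hv : ∀ i, ContDiff ℝ ∞ (fun y => v y i)) :
    NV n ρ v = ∫ x in ball (0 : V) ρ, SV n v x :=
  (integral_finsetSum _ fun i _ => N_int n ρ (hv i)).symm

/-- The function under the divergence in the vorticity equation. -/
noncomputable def gg (v : V → V) (i j m : Fin 3) (x : V) : ℝ :=
  (if m = j then bb v i x else 0) - (if m = i then bb v j x else 0)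

lemma gg_eq (v : V → V) (i j m : Fin 3) :
    gg v i j m = fun x => (if m = j then bb v i else fun _ => 0) x
      - (if m = i then bb v j else fun _ => 0) x := by
  funext x
  unfold gg
  split_ifs <;> rfl

lemma gg_sm {v : V → V} (hv : ∀ i, ContDiff ℝ ∞ (fun y => v y i)) (i j m : Fin 3) :
    ContDiff ℝ ∞ (gg v i j m) := by
  rw [gg_eq]
  apply ContDiff.sub
  · split_ifs
    · exact bb_sm hv i
    · exact contDiff_const
  · split_ifs
    · exact bb_sm hv j
    · exact contDiff_const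

lemma gg_div {v : V → V} (hv : ∀ i, ContDiff ℝ ∞ (fun y => v y i)) (i j : Fin 3) (x : V) :
    ∑ m, pd m (gg v i j m) x = pd j (bb v i) x - pd i (bb v j) x := by
  have h : ∀ m, pd m (gg v i j m) x = (if m = j then pd m (bb v i) x else 0)
      - (if m = i then pd m (bb v j) x else 0) := by
    intro m
    rw [gg_eq]
    have h1 : ContDiff ℝ ∞ (if m = j then bb v i else fun _ => 0) := by
      split_ifs
      · exact bb_sm hv i
      · exact contDiff_const
    have h2 : ContDiff ℝ ∞ (if m = i then bb v j else fun _ => 0) := by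
      split_ifs
      · exact bb_sm hv j
      · exact contDiff_const
    rw [pd_sub' h1 h2]
    have k1 : pd m (if m = j then bb v i else fun _ => 0) x
        = if m = j then pd m (bb v i) x else 0 := by
      split_ifs
      · rfl
      · rw [pd_const']
    have k2 : pd m (if m = i then bb v j else fun _ => 0) x
        = if m = i then pd m (bb v j) x else 0 := by
      split_ifs
      · rfl
      · rw [pd_const']
    show pd m (if m = j then bb v i else fun _ => 0) x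
      - pd m (if m = i then bb v j else fun _ => 0) x = _
    rw [k1, k2]
  simp only [h, Finset.sum_sub_distrib, Finset.sum_ite_eq', Finset.mem_univ, if_true]

lemma gg_ss (n : ℕ) {v : V → V} (hv : ∀ i, ContDiff ℝ ∞ (fun y => v y i)) (i j m : Fin 3)
    (x : V) : SS n (gg v i j m) x ≤ 2 * SS n (bb v i) x + 2 * SS n (bb v j) x := by
  rw [gg_eq]
  have h1 : ContDiff ℝ ∞ (if m = j then bb v i else fun _ => 0) := by
    split_ifs
    · exact bb_sm hv i
    · exact contDiff_const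
  have h2 : ContDiff ℝ ∞ (if m = i then bb v j else fun _ => 0) := by
    split_ifs
    · exact bb_sm hv j
    · exact contDiff_const
  refine (SS_sub n h1 h2 x).trans ?_
  have e1 : SS n (if m = j then bb v i else fun _ => 0) x ≤ SS n (bb v i) x := by
    split_ifs
    · exact le_rfl
    · rw [SS_zero_fun]
      exact SS_nonneg _ _ _
  have e2 : SS n (if m = i then bb v j else fun _ => 0) x ≤ SS n (bb v j) x := by
    split_ifs
    · exact le_rfl
    · rw [SS_zero_fun]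
      exact SS_nonneg _ _ _
  linarith

lemma bb_ss (n : ℕ) {v : V → V} (hv : ∀ i, ContDiff ℝ ∞ (fun y => v y i)) (x : V) :
    ∑ j, SS n (bb v j) x
      ≤ 4 ^ (n + 1) * ∑ a ∈ Finset.range (n + 1), SV a v x * ST (n - a) v x := by
  have h1 : ∀ j, SS n (bb v j) x ≤ 4 * ∑ m, 4 ^ n * ∑ a ∈ Finset.range (n + 1),
      SS a (fun y => v y m) x * SS (n - a) (Om m j v) x := by
    intro j
    refine (SS_sum3 n (fun m => (hv m).mul (om_sm hv m j)) x).trans ?_
    apply mul_le_mul_of_nonneg_left _ (by norm_num)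
    exact Finset.sum_le_sum fun m _ => SS_mul n (hv m) (om_sm hv m j) x
  have h2 : ∑ j, SS n (bb v j) x ≤ ∑ j, 4 * ∑ m, 4 ^ n * ∑ a ∈ Finset.range (n + 1),
      SS a (fun y => v y m) x * SS (n - a) (Om m j v) x := Finset.sum_le_sum fun j _ => h1 j
  have h3 : ∑ j, 4 * ∑ m, 4 ^ n * ∑ a ∈ Finset.range (n + 1),
      SS a (fun y => v y m) x * SS (n - a) (Om m j v) x
      = 4 ^ (n + 1) * ∑ a ∈ Finset.range (n + 1), ∑ m, SS a (fun y => v y m) x
        * ∑ j, SS (n - a) (Om m j v) x := by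
    simp only [← Finset.mul_sum]
    rw [pow_succ, mul_comm (4 ^ n : ℝ) 4, mul_assoc]
    congr 2
    rw [Finset.sum_comm]
    have : ∀ m, ∑ j, ∑ a ∈ Finset.range (n + 1),
        SS a (fun y => v y m) x * SS (n - a) (Om m j v) x
        = ∑ a ∈ Finset.range (n + 1), SS a (fun y => v y m) x * ∑ j, SS (n - a) (Om m j v) x := by
      intro m
      rw [Finset.sum_comm]
      exact Finset.sum_congr rfl fun a _ => by rw [Finset.mul_sum]
    simp only [this]
    rw [Finset.sum_comm]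
  refine (h2.trans (le_of_eq h3)).trans ?_
  apply mul_le_mul_of_nonneg_left _ (by positivity)
  refine Finset.sum_le_sum fun a _ => ?_
  unfold SV
  rw [Finset.sum_mul]
  refine Finset.sum_le_sum fun m _ => ?_
  apply mul_le_mul_of_nonneg_left _ (SS_nonneg _ _ _)
  unfold ST
  rw [Fintype.sum_prod_type]
  exact Finset.single_le_sum (f := fun m => ∑ j, SS (n - a) (Om m j v) x)
    (fun m _ => Finset.sum_nonneg fun j _ => SS_nonneg _ _ _) (Finset.mem_univ m)

/-- The right side, summed over all components. -/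
lemma gg_sum (n : ℕ) {v : V → V} (hv : ∀ i, ContDiff ℝ ∞ (fun y => v y i)) (x : V) :
    ∑ p : Fin 3 × Fin 3, ∑ m, SS n (gg v p.1 p.2 m) x
      ≤ 36 * 4 ^ (n + 1) * ∑ a ∈ Finset.range (n + 1), SV a v x * ST (n - a) v x := by
  have h1 : ∑ p : Fin 3 × Fin 3, ∑ m, SS n (gg v p.1 p.2 m) x
      ≤ ∑ p : Fin 3 × Fin 3, ∑ _m : Fin 3, (2 * SS n (bb v p.1) x + 2 * SS n (bb v p.2) x) :=
    Finset.sum_le_sum fun p _ => Finset.sum_le_sum fun m _ => gg_ss n hv p.1 p.2 m x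
  have h2 : ∑ p : Fin 3 × Fin 3, ∑ _m : Fin 3, (2 * SS n (bb v p.1) x + 2 * SS n (bb v p.2) x)
      = 36 * ∑ j, SS n (bb v j) x := by
    rw [Fintype.sum_prod_type]
    simp only [Fin.sum_univ_three]
    ring
  have h3 := bb_ss n hv x
  rw [h2] at h1
  linarith

section
variable {K : ℝ} {v W : ℝ → V → V} {G : ℝ → ℝ}

/-- The energy inequality for the vorticity. -/
lemma en_T (n : ℕ) {ρ' ρ M : ℝ} {φ : V → ℝ} (hφ : Cut ρ' ρ M φ) (hρ : ρ ≤ 1 / 4)
    (hD : Dat K v W G) {t : ℝ} (ht : t ∈ Ioo (-1 / 16 : ℝ) 0) :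
    ∃ E' : ℝ, HasDerivAt (fun s => ∑ p : Fin 3 × Fin 3, ∫ x, SS n (Om p.1 p.2 (v s)) x * φ x ^ 2)
      E' t ∧
      E' ≤ -(∑ p : Fin 3 × Fin 3, ∫ x, SS (n + 1) (Om p.1 p.2 (v t)) x * φ x ^ 2)
        + 10 * M * NT n ρ (v t)
        + 144 * 4 ^ (n + 1) * ∑ a ∈ Finset.range (n + 1),
          ∫ x, SV a (v t) x * ST (n - a) (v t) x * φ x ^ 2 := by
  have hv := hD.cv ht
  have hstep : ∀ p : Fin 3 × Fin 3, ∃ E' : ℝ,
      HasDerivAt (fun s => ∫ x, SS n (Om p.1 p.2 (v s)) x * φ x ^ 2) E' t ∧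
      E' ≤ -(∫ x, SS (n + 1) (Om p.1 p.2 (v t)) x * φ x ^ 2)
        + 10 * (∫ x, SS n (Om p.1 p.2 (v t)) x * SS 1 φ x)
        + 4 * ∑ m, ∫ x, SS n (gg (v t) p.1 p.2 m) x * φ x ^ 2 := by
    intro p
    apply enN n (js_om hD.sv p.1 p.2) hφ.sm (fun m => gg_sm hv p.1 p.2 m) (by linarith)
      (tIoo ht) _ hφ.out
    intro x hx
    rw [gg_div hv, hD.eq t ht x (ball_subset_ball hρ hx) p.1 p.2]
    ring
  choose E' hE1 hE2 using hstep
  refine ⟨∑ p, E' p, ?_, ?_⟩
  · have := HasDerivAt.fun_sum (u := Finset.univ) fun p _ => hE1 p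
    exact this
  · have h1 : ∑ p, E' p ≤ ∑ p : Fin 3 × Fin 3, (-(∫ x, SS (n + 1) (Om p.1 p.2 (v t)) x * φ x ^ 2)
        + 10 * (∫ x, SS n (Om p.1 p.2 (v t)) x * SS 1 φ x)
        + 4 * ∑ m, ∫ x, SS n (gg (v t) p.1 p.2 m) x * φ x ^ 2) :=
      Finset.sum_le_sum fun p _ => hE2 p
    refine h1.trans ?_
    rw [Finset.sum_add_distrib, Finset.sum_add_distrib, Finset.sum_neg_distrib,
      ← Finset.mul_sum, ← Finset.mul_sum]
    have h2 : ∑ p : Fin 3 × Fin 3, ∫ x, SS n (Om p.1 p.2 (v t)) x * SS 1 φ x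
        ≤ M * NT n ρ (v t) := by
      unfold NT
      rw [Finset.mul_sum]
      exact Finset.sum_le_sum fun p _ => cut1_le_N n hφ (om_sm hv p.1 p.2)
    have j1 : ∀ (p : Fin 3 × Fin 3) (m : Fin 3),
        Integrable (fun x => SS n (gg (v t) p.1 p.2 m) x * φ x ^ 2) := fun p m =>
      int_ss n (gg_sm hv p.1 p.2 m) hφ.sm hφ.cs
    have hφ2 : HasCompactSupport (fun x => φ x ^ 2) := by
      have := hφ.cs.comp_left (g := fun y : ℝ => y ^ 2) (by simp)
      exact this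
    have j2 : ∀ a, Integrable (fun x => SV a (v t) x * ST (n - a) (v t) x * φ x ^ 2) := by
      intro a
      apply int_cs (((SV_cont a hv).mul (ST_cont (n - a) hv)).mul (hφ.sm.continuous.pow 2))
      exact hφ2.mul_left
    have h3 : ∑ p : Fin 3 × Fin 3, ∑ m, ∫ x, SS n (gg (v t) p.1 p.2 m) x * φ x ^ 2
        ≤ 36 * 4 ^ (n + 1) * ∑ a ∈ Finset.range (n + 1),
          ∫ x, SV a (v t) x * ST (n - a) (v t) x * φ x ^ 2 := by
      have e1 : ∑ p : Fin 3 × Fin 3, ∑ m, ∫ x, SS n (gg (v t) p.1 p.2 m) x * φ x ^ 2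
          = ∫ x, ∑ p : Fin 3 × Fin 3, ∑ m, SS n (gg (v t) p.1 p.2 m) x * φ x ^ 2 := by
        rw [integral_finsetSum _ fun p _ => integrable_finsetSum _ fun m _ => j1 p m]
        refine Finset.sum_congr rfl fun p _ => ?_
        rw [integral_finsetSum _ fun m _ => j1 p m]
      rw [e1, ← integral_finsetSum _ fun a _ => j2 a, ← integral_const_mul]
      apply integral_mono
      · exact integrable_finsetSum _ fun p _ => integrable_finsetSum _ fun m _ => j1 p m
      · exact (integrable_finsetSum _ fun a _ => j2 a).const_mul _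
      · intro x
        show ∑ p : Fin 3 × Fin 3, ∑ m, SS n (gg (v t) p.1 p.2 m) x * φ x ^ 2
          ≤ 36 * 4 ^ (n + 1) * ∑ a ∈ Finset.range (n + 1),
            SV a (v t) x * ST (n - a) (v t) x * φ x ^ 2
        simp only [← Finset.sum_mul]
        rw [← mul_assoc]
        exact mul_le_mul_of_nonneg_right (gg_sum n hv x) (sq_nonneg _)
    have h4 : (4 : ℝ) * (36 * 4 ^ (n + 1)) = 144 * 4 ^ (n + 1) := by ring
    nlinarith [h2, h3]

lemma int_sv (a b : ℕ) {u w : V → V} (hu : ∀ i, ContDiff ℝ ∞ (fun y => u y i))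
    (hw : ∀ i, ContDiff ℝ ∞ (fun y => w y i)) {φ : V → ℝ} {ρ' ρ M : ℝ} (hφ : Cut ρ' ρ M φ) :
    Integrable (fun x => SV a u x * ST b w x * φ x ^ 2) := by
  have hφ2 : HasCompactSupport (fun x => φ x ^ 2) := by
    have := hφ.cs.comp_left (g := fun y : ℝ => y ^ 2) (by simp)
    exact this
  apply int_cs (((SV_cont a hu).mul (ST_cont b hw)).mul (hφ.sm.continuous.pow 2))
  exact hφ2.mul_left

/-- The term of order zero in the velocity. -/
lemma p0 (n : ℕ) {ρ' ρ M : ℝ} {φ : V → ℝ} (hφ : Cut ρ' ρ M φ) (hρ : ρ ≤ 1 / 4)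
    (hD : Dat K v W G) {t : ℝ} (ht : t ∈ Ioo (-1 / 16 : ℝ) 0) :
    ∫ x, SV 0 (v t) x * ST n (v t) x * φ x ^ 2
      ≤ 6 * (K ^ 2 + G t) * ∑ p : Fin 3 × Fin 3, ∫ x, SS n (Om p.1 p.2 (v t)) x * φ x ^ 2 := by
  have hv := hD.cv ht
  have hG := hD.Gn t (tIoo ht)
  have j1 : ∀ p : Fin 3 × Fin 3, Integrable (fun x => SS n (Om p.1 p.2 (v t)) x * φ x ^ 2) :=
    fun p => int_ss n (om_sm hv p.1 p.2) hφ.sm hφ.cs
  rw [← integral_finsetSum _ fun p _ => j1 p, ← integral_const_mul]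
  apply integral_mono (int_sv 0 n hv hv hφ)
  · exact (integrable_finsetSum _ fun p _ => j1 p).const_mul _
  · intro x
    show SV 0 (v t) x * ST n (v t) x * φ x ^ 2
      ≤ 6 * (K ^ 2 + G t) * ∑ p : Fin 3 × Fin 3, SS n (Om p.1 p.2 (v t)) x * φ x ^ 2
    rw [← Finset.sum_mul]
    by_cases hx : x ∈ ball (0 : V) ρ
    · have hx' : x ∈ ball (0 : V) (1 / 4) := ball_subset_ball hρ hx
      have h1 : ∀ i, v t x i ^ 2 ≤ 2 * (K ^ 2 + G t) := by
        intro i
        have a1 := hD.bW t ht x hx' i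
        have a2 := hD.bH t ht x hx' i
        have a3 : W t x i ^ 2 ≤ K ^ 2 := sq_le_sq' (by linarith [(abs_le.1 a1).1]) (abs_le.1 a1).2
        have a4 : (v t x i - W t x i) ^ 2 ≤ G t := by
          rw [← Real.sq_sqrt hG]
          exact sq_le_sq' (by linarith [(abs_le.1 a2).1]) (abs_le.1 a2).2
        nlinarith [sq_nonneg (W t x i - (v t x i - W t x i))]
      have h2 : SV 0 (v t) x ≤ 6 * (K ^ 2 + G t) := by
        unfold SV
        simp only [SS_zero, Fin.sum_univ_three]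
        linarith [h1 0, h1 1, h1 2]
      have h3 := mul_le_mul_of_nonneg_right h2 (mul_nonneg (ST_nonneg n (v t) x) (sq_nonneg (φ x)))
      have h4 : SV 0 (v t) x * ST n (v t) x * φ x ^ 2
          = SV 0 (v t) x * (ST n (v t) x * φ x ^ 2) := by ring
      rw [h4]
      exact h3
    · rw [hφ.out x hx]
      simp

lemma SV_split (a : ℕ) (hD : Dat K v W G) {t : ℝ} (ht : t ∈ Ioo (-1 / 16 : ℝ) 0) (x : V) :
    SV a (v t) x ≤ 2 * SV a (W t) x + 2 * SV a (fun y i => v t y i - W t y i) x := by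
  unfold SV
  rw [Finset.mul_sum, Finset.mul_sum, ← Finset.sum_add_distrib]
  refine Finset.sum_le_sum fun i _ => ?_
  have h1 := SS_add a (hD.cW ht i) ((hD.cv ht i).sub (hD.cW ht i)) x
  have e : (fun y => v t y i) = fun y => W t y i + (v t y i - W t y i) := by
    funext y
    ring
  rw [e]
  exact h1

/-- The other terms. -/
lemma pa (K : ℝ) (a b : ℕ) {ρ' ρ M : ℝ} {φ : V → ℝ} (hφ : Cut ρ' ρ M φ) (h0 : 0 < ρ)
    (hρ : ρ < 1 / 4) : ∃ C : ℝ, 0 < C ∧ ∀ (v W : ℝ → V → V) (G : ℝ → ℝ), Dat K v W G →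
    ∀ t ∈ Ioo (-1 / 16 : ℝ) 0, ∫ x, SV a (v t) x * ST b (v t) x * φ x ^ 2
      ≤ 2 * (∫ x in ball (0 : V) ρ, SV a (W t) x * ST b (v t) x) + C * G t * NT b ρ (v t) := by
  obtain ⟨C, hC, H⟩ := Hb K a h0 hρ
  refine ⟨2 * C, by positivity, fun v W G hD t ht => ?_⟩
  have hv := hD.cv ht
  have hW := hD.cW ht
  have hc : Continuous fun x => 2 * (SV a (W t) x * ST b (v t) x)
      + 2 * C * G t * ST b (v t) x :=
    (((SV_cont a hW).mul (ST_cont b hv)).const_mul 2).add ((ST_cont b hv).const_mul _)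
  have hG := hD.Gn t (tIoo ht)
  have h1 : ∫ x, SV a (v t) x * ST b (v t) x * φ x ^ 2
      ≤ ∫ x, (2 * (SV a (W t) x * ST b (v t) x) + 2 * C * G t * ST b (v t) x) * φ x ^ 2 := by
    apply integral_mono (int_sv a b hv hv hφ)
    · have hφ2 : HasCompactSupport (fun x => φ x ^ 2) := by
        have := hφ.cs.comp_left (g := fun y : ℝ => y ^ 2) (by simp)
        exact this
      exact int_cs (hc.mul (hφ.sm.continuous.pow 2)) hφ2.mul_left
    · intro x
      show SV a (v t) x * ST b (v t) x * φ x ^ 2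
        ≤ (2 * (SV a (W t) x * ST b (v t) x) + 2 * C * G t * ST b (v t) x) * φ x ^ 2
      by_cases hx : x ∈ ball (0 : V) ρ
      · apply mul_le_mul_of_nonneg_right _ (sq_nonneg _)
        have a1 := SV_split a hD ht x
        have a2 := H v W G hD t ht x hx
        have a3 : SV a (v t) x ≤ 2 * SV a (W t) x + 2 * (C * G t) := by linarith
        have a4 := mul_le_mul_of_nonneg_right a3 (ST_nonneg b (v t) x)
        linarith
      · rw [hφ.out x hx]
        simp
  refine h1.trans ?_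
  have h2 := cut_le_N' hφ hc (fun x => by
    have := SV_nonneg a (W t) x
    have := ST_nonneg b (v t) x
    positivity)
  refine h2.trans (le_of_eq ?_)
  have k1 : IntegrableOn (fun x => 2 * (SV a (W t) x * ST b (v t) x)) (ball (0 : V) ρ) :=
    int_ball (((SV_cont a hW).mul (ST_cont b hv)).const_mul 2) 0 ρ
  have k2 : IntegrableOn (fun x => 2 * C * G t * ST b (v t) x) (ball (0 : V) ρ) :=
    int_ball ((ST_cont b hv).const_mul _) 0 ρ
  rw [integral_add k1 k2, integral_const_mul, integral_const_mul, NT_eq b ρ hv]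

/-- Products by fourth powers. -/
lemma pW (a b : ℕ) {ρ' ρ : ℝ} (h0 : 0 < ρ') (h : ρ' < ρ) (hρ : ρ ≤ 1) : ∃ C : ℝ, 0 < C ∧
    ∀ u w : V → V, (∀ i, ContDiff ℝ ∞ (fun y => u y i)) → (∀ i, ContDiff ℝ ∞ (fun y => w y i)) →
      ∫ x in ball (0 : V) ρ', SV a u x * ST b w x
        ≤ C * ((NV a ρ u + NV (a + 1) ρ u) * (NT b ρ w + NT (b + 1) ρ w)) := by
  obtain ⟨C, hC, H⟩ := prodN a b h0 h hρ
  refine ⟨C, hC, fun u w hu hw => ?_⟩
  have e1 : ∫ x in ball (0 : V) ρ', SV a u x * ST b w x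
      = ∑ i, ∑ p : Fin 3 × Fin 3, ∫ x in ball (0 : V) ρ',
        SS a (fun y => u y i) x * SS b (Om p.1 p.2 w) x := by
    have j : ∀ (i : Fin 3) (p : Fin 3 × Fin 3), IntegrableOn
        (fun x => SS a (fun y => u y i) x * SS b (Om p.1 p.2 w) x) (ball (0 : V) ρ') :=
      fun i p => int_ball ((SS_cont a (hu i)).mul (SS_cont b (om_sm hw p.1 p.2))) 0 ρ'
    have j' : ∀ i : Fin 3, ∫ x in ball (0 : V) ρ', ∑ p : Fin 3 × Fin 3,
        SS a (fun y => u y i) x * SS b (Om p.1 p.2 w) x = ∑ p : Fin 3 × Fin 3,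
        ∫ x in ball (0 : V) ρ', SS a (fun y => u y i) x * SS b (Om p.1 p.2 w) x := fun i =>
      integral_finsetSum _ fun p _ => j i p
    simp only [← j']
    rw [← integral_finsetSum _ fun i _ => integrable_finsetSum _ fun p _ => j i p]
    congr 1
    funext x
    unfold SV ST
    rw [Finset.sum_mul_sum]
  rw [e1]
  have e2 : (NV a ρ u + NV (a + 1) ρ u) * (NT b ρ w + NT (b + 1) ρ w)
      = ∑ i, ∑ p : Fin 3 × Fin 3, (N a ρ (fun y => u y i) + N (a + 1) ρ (fun y => u y i))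
        * (N b ρ (Om p.1 p.2 w) + N (b + 1) ρ (Om p.1 p.2 w)) := by
    unfold NV NT
    rw [← Finset.sum_add_distrib, ← Finset.sum_add_distrib, Finset.sum_mul_sum]
  rw [e2, Finset.mul_sum]
  refine Finset.sum_le_sum fun i _ => ?_
  rw [Finset.mul_sum]
  exact Finset.sum_le_sum fun p _ => H _ _ (hu i) (om_sm hw p.1 p.2)

lemma ST0_le {w : V → V} (x : V) : ST 0 w x ≤ 4 * SV 1 w x := by
  unfold ST SV
  rw [Fintype.sum_prod_type]
  simp only [SS_zero, SS_one, Om, Fin.sum_univ_three]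
  nlinarith [sq_nonneg (pd 0 (fun y => w y 1) x + pd 1 (fun y => w y 0) x),
    sq_nonneg (pd 0 (fun y => w y 2) x + pd 2 (fun y => w y 0) x),
    sq_nonneg (pd 1 (fun y => w y 2) x + pd 2 (fun y => w y 1) x),
    sq_nonneg (pd 0 (fun y => w y 0) x), sq_nonneg (pd 1 (fun y => w y 1) x),
    sq_nonneg (pd 2 (fun y => w y 2) x)]

/-- The term which needs the Gagliardo-Nirenberg inequality. -/
lemma pGN (K : ℝ) {ρ' ρ : ℝ} (h0 : 0 < ρ') (h : ρ' < ρ) (hρ : ρ ≤ 1 / 4) : ∃ C : ℝ, 0 < C ∧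
    ∀ (v W : ℝ → V → V) (G : ℝ → ℝ), Dat K v W G → ∀ t ∈ Ioo (-1 / 16 : ℝ) 0,
      ∫ x in ball (0 : V) ρ', SV 1 (W t) x * ST 0 (v t) x
        ≤ C * (NV 1 ρ (W t) + NV 2 ρ (W t)) + C * G t * NV 1 ρ (W t) := by
  obtain ⟨C1, hC1, H1⟩ := Hb K 1 h0 (h.trans_le hρ)
  obtain ⟨C2, hC2, H2⟩ := gn h0 h
  refine ⟨24 * C2 * K ^ 2 + 8 * C1, by positivity, fun v W G hD t ht => ?_⟩
  have hv := hD.cv ht
  have hW := hD.cW ht
  have hG := hD.Gn t (tIoo ht)
  have h3 : ∀ x ∈ ball (0 : V) ρ', SV 1 (W t) x * ST 0 (v t) x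
      ≤ 24 * (∑ i, SS 1 (fun y => W t y i) x ^ 2) + 8 * C1 * G t * SV 1 (W t) x := by
    intro x hx
    have a1 := ST0_le (w := v t) x
    have a2 := SV_split 1 hD ht x
    have a3 := H1 v W G hD t ht x hx
    have a4 : ST 0 (v t) x ≤ 8 * SV 1 (W t) x + 8 * (C1 * G t) := by linarith
    have a5 := mul_le_mul_of_nonneg_left a4 (SV_nonneg 1 (W t) x)
    have a6 : SV 1 (W t) x * SV 1 (W t) x ≤ 3 * ∑ i, SS 1 (fun y => W t y i) x ^ 2 := by
      unfold SV
      simp only [Fin.sum_univ_three]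
      nlinarith [sq_nonneg (SS 1 (fun y => W t y 0) x - SS 1 (fun y => W t y 1) x),
        sq_nonneg (SS 1 (fun y => W t y 0) x - SS 1 (fun y => W t y 2) x),
        sq_nonneg (SS 1 (fun y => W t y 1) x - SS 1 (fun y => W t y 2) x)]
    nlinarith
  have k1 : ∀ i : Fin 3, IntegrableOn (fun x => SS 1 (fun y => W t y i) x ^ 2)
      (ball (0 : V) ρ') := fun i => int_ball ((SS_cont 1 (hW i)).pow 2) 0 ρ'
  have k2 : IntegrableOn (SV 1 (W t)) (ball (0 : V) ρ') := int_ball (SV_cont 1 hW) 0 ρ'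
  have k3 : IntegrableOn (fun x => 24 * ∑ i, SS 1 (fun y => W t y i) x ^ 2)
      (ball (0 : V) ρ') := (integrable_finsetSum _ fun i _ => k1 i).const_mul 24
  have k4 : IntegrableOn (fun x => 8 * C1 * G t * SV 1 (W t) x) (ball (0 : V) ρ') :=
    k2.const_mul _
  have h4 : ∫ x in ball (0 : V) ρ', SV 1 (W t) x * ST 0 (v t) x
      ≤ ∫ x in ball (0 : V) ρ', (24 * (∑ i, SS 1 (fun y => W t y i) x ^ 2)
        + 8 * C1 * G t * SV 1 (W t) x) :=
    setIntegral_mono_on (int_ball ((SV_cont 1 hW).mul (ST_cont 0 hv)) 0 ρ') (k3.add k4)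
      measurableSet_ball h3
  refine h4.trans ?_
  rw [integral_add k3 k4, integral_const_mul, integral_const_mul,
    integral_finsetSum _ fun i _ => k1 i, ← NV_eq 1 ρ' hW]
  have h5 : ∀ i, ∫ x in ball (0 : V) ρ', SS 1 (fun y => W t y i) x ^ 2
      ≤ C2 * K ^ 2 * (N 1 ρ (fun y => W t y i) + N 2 ρ (fun y => W t y i)) := fun i =>
    H2 _ K (hW i) fun x hx => hD.bW t ht x (ball_subset_ball hρ hx) i
  have h6 : ∑ i, ∫ x in ball (0 : V) ρ', SS 1 (fun y => W t y i) x ^ 2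
      ≤ C2 * K ^ 2 * (NV 1 ρ (W t) + NV 2 ρ (W t)) := by
    refine (Finset.sum_le_sum fun i _ => h5 i).trans (le_of_eq ?_)
    rw [← Finset.mul_sum, Finset.sum_add_distrib]
    rfl
  have h7 := NV_mono 1 h.le hW
  have h8 := NV_nonneg 1 ρ (W t)
  have h9 := NV_nonneg 2 ρ (W t)
  have e1 : 8 * C1 * G t * NV 1 ρ' (W t) ≤ 8 * C1 * G t * NV 1 ρ (W t) :=
    mul_le_mul_of_nonneg_left h7 (by positivity)
  have e2 : 0 ≤ 8 * C1 * (NV 1 ρ (W t) + NV 2 ρ (W t)) := by positivity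
  have e3 : 0 ≤ 24 * C2 * K ^ 2 * G t * NV 1 ρ (W t) := by positivity
  nlinarith

end

end Pool.Agent.TH305.DR
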