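import Pool.Agent.TH305.DR.Cut

/-!
Derivative bounds (helper305): fourth powers and products.
-/

set_option autoImplicit false

open MeasureTheory Set Metric Filter Topology
open scoped ContDiff

namespace Pool.Agent.TH305.DR

open H459R3.NS W221.NS
open Pool.Agent.W583.MD (sm_pd cs_pd pd_mul' Z Z.add Z.sub Z.smul Z.sum int_cs Z_pd hd_int hcs)
open Pool.Agent.W639.MH (int_ball)

lemma le_of_sq_le_sq' {a b : ℝ} (hb : 0 ≤ b) (h : a ^ 2 ≤ b ^ 2) : a ≤ b :=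
  le_trans (le_abs_self a) (abs_le_of_sq_le_sq h hb)

lemma quart0 {ρ' ρ : ℝ} (h0 : 0 < ρ') (h : ρ' < ρ) (hρ : ρ ≤ 1) : ∃ C : ℝ, 0 < C ∧ ∀ f : V → ℝ,
    ContDiff ℝ ∞ f → ∫ x in ball (0 : V) ρ', SS 0 f x ^ 2 ≤ C * (N 0 ρ f + N 1 ρ f) ^ 2 := by
  obtain ⟨M, φ, hM, hφ⟩ := exists_cut h0 h
  obtain ⟨K, hK, hS⟩ := Pool.Agent.W440.MD.scalar
  refine ⟨√K * (5 + 4 * M) ^ 2 + 1, by positivity, fun f hf => ?_⟩
  set g : V → ℝ := fun y => φ y * f y with hg
  have hgs : ContDiff ℝ ∞ g := hφ.sm.mul hf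
  have hgc : HasCompactSupport g := hφ.cs.mul_right
  have h6 := hS g hgs 0 1 one_pos
  set X : ℝ := (5 + 4 * M) * (N 0 ρ f + N 1 ρ f) with hX
  have hN0 := N_nonneg 0 ρ f
  have hN1 := N_nonneg 1 ρ f
  have hX0 : 0 ≤ X := by positivity
  have i1 : Integrable (SS 1 g) := int_cs (SS_cont 1 hgs) (ss_cs 1 hgc)
  have i0 : Integrable (SS 0 g) := int_cs (SS_cont 0 hgs) (ss_cs 0 hgc)
  have k0 := int_ss 0 hf hφ.sm hφ.cs
  have k1 := int_ss 1 hf hφ.sm hφ.cs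
  have k2 := int_ss1 0 hf hφ.sm hφ.cs
  have hXb : ∫ x in ball (0 : V) (2 * 1), ((∑ j, pd j g x ^ 2) + ((1 : ℝ) ^ 2)⁻¹ * g x ^ 2)
      ≤ X := by
    have e1 : (fun x => (∑ j, pd j g x ^ 2) + ((1 : ℝ) ^ 2)⁻¹ * g x ^ 2)
        = fun x => SS 1 g x + SS 0 g x := by
      funext x
      rw [SS_one, SS_zero]
      simp
    rw [e1]
    have e2 : ∫ x in ball (0 : V) (2 * 1), (SS 1 g x + SS 0 g x)
        ≤ ∫ x, (SS 1 g x + SS 0 g x) :=
      setIntegral_le_integral (i1.add i0)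
        (Eventually.of_forall fun x => add_nonneg (SS_nonneg 1 g x) (SS_nonneg 0 g x))
    refine e2.trans ?_
    have e3 : ∫ x, (SS 1 g x + SS 0 g x)
        ≤ ∫ x, (4 * (SS 1 f x * φ x ^ 2) + 4 * (SS 0 f x * SS 1 φ x) + SS 0 f x * φ x ^ 2) := by
      apply integral_mono (i1.add i0)
      · exact ((k1.const_mul 4).add (k2.const_mul 4)).add k0
      · intro x
        have a1 := SS_mul 1 hφ.sm hf x
        simp only [Finset.sum_range_succ, Finset.sum_range_zero, zero_add] at a1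
        norm_num at a1
        have a2 : SS 0 g x = SS 0 f x * φ x ^ 2 := by
          simp only [SS_zero, hg]
          ring
        have a3 : SS 0 φ x = φ x ^ 2 := rfl
        rw [a3] at a1
        show SS 1 g x + SS 0 g x ≤ _
        rw [a2]
        have a4 : SS 1 g x ≤ 4 * (φ x ^ 2 * SS 1 f x + SS 1 φ x * SS 0 f x) := a1
        linarith
    refine e3.trans ?_
    have k3 : Integrable (fun x => 4 * (SS 1 f x * φ x ^ 2)) := k1.const_mul 4
    have k4 : Integrable (fun x => 4 * (SS 0 f x * SS 1 φ x)) := k2.const_mul 4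
    have k5 : Integrable (fun x => 4 * (SS 1 f x * φ x ^ 2) + 4 * (SS 0 f x * SS 1 φ x)) :=
      k3.add k4
    rw [integral_add k5 k0, integral_add k3 k4, integral_const_mul, integral_const_mul]
    have b1 := cut_le_N 1 hφ hf
    have b2 := cut1_le_N 0 hφ hf
    have b3 := cut_le_N 0 hφ hf
    have b4 := mul_nonneg hM hN1
    rw [hX]
    nlinarith
  have hX6 : ∫ x in ball (0 : V) 1, g x ^ 6 ≤ K * X ^ 3 := by
    refine h6.trans ?_
    apply mul_le_mul_of_nonneg_left _ hK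
    apply pow_le_pow_left₀ _ hXb
    exact integral_nonneg fun x => by positivity
  have hX2 : ∫ x in ball (0 : V) 1, g x ^ 2 ≤ X := by
    have c1 : ∫ x in ball (0 : V) 1, g x ^ 2 ≤ ∫ x, SS 0 g x :=
      setIntegral_le_integral i0 (Eventually.of_forall fun x => SS_nonneg 0 g x)
    have c2 : ∫ x, SS 0 g x = ∫ x, SS 0 f x * φ x ^ 2 := by
      congr 1
      funext x
      simp only [SS_zero, hg]
      ring
    rw [c2] at c1
    have c3 := cut_le_N 0 hφ hf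
    have c4 := mul_nonneg hM hN1
    have c5 := mul_nonneg hM hN0
    rw [hX]
    nlinarith
  have l1 : IntegrableOn (fun x => g x ^ 2) (ball (0 : V) 1) :=
    int_ball (hgs.continuous.pow 2) 0 1
  have l2 : IntegrableOn (fun x => (g x ^ 3) ^ 2) (ball (0 : V) 1) :=
    int_ball ((hgs.continuous.pow 3).pow 2) 0 1
  have l3 : IntegrableOn (fun x => g x * g x ^ 3) (ball (0 : V) 1) :=
    int_ball (hgs.continuous.mul (hgs.continuous.pow 3)) 0 1
  have hcs := CS (μ := volume.restrict (ball (0 : V) 1)) (F := g) (G := fun x => g x ^ 3)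
    l1 l2 l3
  have e4 : ∫ x in ball (0 : V) 1, g x * g x ^ 3 = ∫ x in ball (0 : V) 1, g x ^ 4 := by
    congr 1
    funext x
    ring
  have e5 : ∫ x in ball (0 : V) 1, (g x ^ 3) ^ 2 = ∫ x in ball (0 : V) 1, g x ^ 6 := by
    congr 1
    funext x
    ring
  rw [e4, e5] at hcs
  have h8 : ∫ x in ball (0 : V) 1, g x ^ 4 ≤ √K * X ^ 2 := by
    apply le_of_sq_le_sq' (by positivity)
    refine hcs.trans ?_
    have d1 : 0 ≤ ∫ x in ball (0 : V) 1, g x ^ 2 := integral_nonneg fun x => sq_nonneg _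
    have d2 : 0 ≤ K * X ^ 3 := by positivity
    calc (∫ x in ball (0 : V) 1, g x ^ 2) * ∫ x in ball (0 : V) 1, g x ^ 6
        ≤ X * (K * X ^ 3) := mul_le_mul hX2 hX6 (integral_nonneg fun x => by positivity) hX0
      _ = K * X ^ 4 := by ring
      _ = √K ^ 2 * X ^ 4 := by rw [Real.sq_sqrt hK]
      _ = (√K * X ^ 2) ^ 2 := by ring
  have h9 : ∫ x in ball (0 : V) ρ', SS 0 f x ^ 2 ≤ ∫ x in ball (0 : V) 1, g x ^ 4 := by
    have f1 : ∫ x in ball (0 : V) ρ', SS 0 f x ^ 2 = ∫ x in ball (0 : V) ρ', g x ^ 4 := by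
      apply setIntegral_congr_fun measurableSet_ball
      intro x hx
      show SS 0 f x ^ 2 = (φ x * f x) ^ 4
      rw [hφ.one x hx, SS_zero]
      ring
    rw [f1]
    have l4 : IntegrableOn (fun x => g x ^ 4) (ball (0 : V) 1) :=
      int_ball (hgs.continuous.pow 4) 0 1
    apply setIntegral_mono_set l4
    · refine Eventually.of_forall fun x => ?_
      show (0 : ℝ) ≤ g x ^ 4
      positivity
    · exact (ball_subset_ball (by linarith)).eventuallyLE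
  refine h9.trans (h8.trans ?_)
  rw [hX, mul_pow]
  have : 0 ≤ (N 0 ρ f + N 1 ρ f) ^ 2 := by positivity
  nlinarith

lemma quartN (n : ℕ) {ρ' ρ : ℝ} (h0 : 0 < ρ') (h : ρ' < ρ) (hρ : ρ ≤ 1) : ∃ C : ℝ, 0 < C ∧
    ∀ f : V → ℝ, ContDiff ℝ ∞ f →
      ∫ x in ball (0 : V) ρ', SS n f x ^ 2 ≤ C * (N n ρ f + N (n + 1) ρ f) ^ 2 := by
  induction n with
  | zero => exact quart0 h0 h hρ
  | succ n ih =>
    obtain ⟨C, hC, H⟩ := ih
    refine ⟨3 * C, by positivity, fun f hf => ?_⟩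
    have h1 : ∫ x in ball (0 : V) ρ', SS (n + 1) f x ^ 2
        ≤ 3 * ∑ i, ∫ x in ball (0 : V) ρ', SS n (pd i f) x ^ 2 := by
      have j : ∀ i, IntegrableOn (fun x => SS n (pd i f) x ^ 2) (ball (0 : V) ρ') := fun i =>
        int_ball ((SS_cont n (sm_pd hf i)).pow 2) 0 ρ'
      rw [← integral_finsetSum _ fun i _ => j i, ← integral_const_mul]
      apply integral_mono
      · exact int_ball ((SS_cont (n + 1) hf).pow 2) 0 ρ'
      · exact (integrable_finsetSum _ fun i _ => j i).const_mul 3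
      · intro x
        show SS (n + 1) f x ^ 2 ≤ 3 * ∑ i, SS n (pd i f) x ^ 2
        rw [SS_succ, Fin.sum_univ_three, Fin.sum_univ_three]
        nlinarith [sq_nonneg (SS n (pd 0 f) x - SS n (pd 1 f) x),
          sq_nonneg (SS n (pd 0 f) x - SS n (pd 2 f) x),
          sq_nonneg (SS n (pd 1 f) x - SS n (pd 2 f) x)]
    have h2 : ∑ i, ∫ x in ball (0 : V) ρ', SS n (pd i f) x ^ 2
        ≤ C * ∑ i, (N n ρ (pd i f) + N (n + 1) ρ (pd i f)) ^ 2 := by
      rw [Finset.mul_sum]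
      exact Finset.sum_le_sum fun i _ => H (pd i f) (sm_pd hf i)
    have h3 : ∑ i, (N n ρ (pd i f) + N (n + 1) ρ (pd i f)) ^ 2
        ≤ (N (n + 1) ρ f + N (n + 1 + 1) ρ f) ^ 2 := by
      rw [N_succ n ρ hf, N_succ (n + 1) ρ hf, ← Finset.sum_add_distrib]
      simp only [Fin.sum_univ_three]
      have p : ∀ i, 0 ≤ N n ρ (pd i f) + N (n + 1) ρ (pd i f) := fun i =>
        add_nonneg (N_nonneg _ _ _) (N_nonneg _ _ _)
      nlinarith [mul_nonneg (p 0) (p 1), mul_nonneg (p 0) (p 2), mul_nonneg (p 1) (p 2)]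
    calc _ ≤ 3 * ∑ i, ∫ x in ball (0 : V) ρ', SS n (pd i f) x ^ 2 := h1
      _ ≤ 3 * (C * (N (n + 1) ρ f + N (n + 1 + 1) ρ f) ^ 2) := by
        apply mul_le_mul_of_nonneg_left _ (by norm_num)
        exact h2.trans (mul_le_mul_of_nonneg_left h3 hC.le)
      _ = _ := by ring

/-- Products. -/
lemma prodN (a b : ℕ) {ρ' ρ : ℝ} (h0 : 0 < ρ') (h : ρ' < ρ) (hρ : ρ ≤ 1) : ∃ C : ℝ, 0 < C ∧
    ∀ f g : V → ℝ, ContDiff ℝ ∞ f → ContDiff ℝ ∞ g →
      ∫ x in ball (0 : V) ρ', SS a f x * SS b g x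
        ≤ C * ((N a ρ f + N (a + 1) ρ f) * (N b ρ g + N (b + 1) ρ g)) := by
  obtain ⟨C1, hC1, H1⟩ := quartN a h0 h hρ
  obtain ⟨C2, hC2, H2⟩ := quartN b h0 h hρ
  refine ⟨√(C1 * C2), by positivity, fun f g hf hg => ?_⟩
  have p1 : 0 ≤ N a ρ f + N (a + 1) ρ f := add_nonneg (N_nonneg _ _ _) (N_nonneg _ _ _)
  have p2 : 0 ≤ N b ρ g + N (b + 1) ρ g := add_nonneg (N_nonneg _ _ _) (N_nonneg _ _ _)
  apply le_of_sq_le_sq' (by positivity)
  have hcs := CS (μ := volume.restrict (ball (0 : V) ρ')) (F := SS a f) (G := SS b g)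
    (int_ball ((SS_cont a hf).pow 2) 0 ρ') (int_ball ((SS_cont b hg).pow 2) 0 ρ')
    (int_ball ((SS_cont a hf).mul (SS_cont b hg)) 0 ρ')
  refine hcs.trans ?_
  calc _ ≤ (C1 * (N a ρ f + N (a + 1) ρ f) ^ 2) * (C2 * (N b ρ g + N (b + 1) ρ g) ^ 2) :=
        mul_le_mul (H1 f hf) (H2 g hg) (integral_nonneg fun x => sq_nonneg _) (by positivity)
    _ = (√(C1 * C2) * ((N a ρ f + N (a + 1) ρ f) * (N b ρ g + N (b + 1) ρ g))) ^ 2 := by
        rw [mul_pow, Real.sq_sqrt (by positivity)]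
        ring

/-- The pointwise inequality behind the Gagliardo-Nirenberg inequality. -/
lemma pt_gn (f K φ : ℝ) (p e q : Fin 3 → ℝ) (hh : Fin 3 → Fin 3 → ℝ) (hf : |f| ≤ K)
    (hq : ∀ m, q m = 2 * ∑ k, p k * hh m k) :
    (∑ m, p m ^ 2) ^ 2 * φ ^ 4 - 2 * ∑ m, (p m * p m * (∑ m, p m ^ 2) * φ ^ 4
        + f * hh m m * (∑ m, p m ^ 2) * φ ^ 4 + f * p m * q m * φ ^ 4
        + f * p m * (∑ m, p m ^ 2) * (4 * φ ^ 3 * e m))
      ≤ 28 * K ^ 2 * ((∑ m, ∑ k, hh m k ^ 2) * φ ^ 4)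
        + 32 * K ^ 2 * ((∑ m, p m ^ 2) * (∑ m, e m ^ 2) * φ ^ 2) := by
  have hK : 0 ≤ K := (abs_nonneg f).trans hf
  have hf2 : f ^ 2 ≤ K ^ 2 := sq_le_sq' (by linarith [(abs_le.1 hf).1]) (abs_le.1 hf).2
  set D : ℝ := ∑ m, p m ^ 2 with hD
  set S : ℝ := ∑ m, ∑ k, hh m k ^ 2 with hS
  set E : ℝ := ∑ m, e m ^ 2 with hE
  have hD0 : 0 ≤ D := Finset.sum_nonneg fun m _ => sq_nonneg _
  have hS0 : 0 ≤ S := Finset.sum_nonneg fun m _ => Finset.sum_nonneg fun k _ => sq_nonneg _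
  have hE0 : 0 ≤ E := Finset.sum_nonneg fun m _ => sq_nonneg _
  set L : ℝ := ∑ m, hh m m with hL
  set P : ℝ := ∑ m, ∑ k, p m * p k * hh m k with hP
  set R : ℝ := ∑ m, p m * e m with hR
  have hL2 : L ^ 2 ≤ 3 * S := by
    rw [hL, hS]
    simp only [Fin.sum_univ_three]
    nlinarith [sq_nonneg (hh 0 0 - hh 1 1), sq_nonneg (hh 0 0 - hh 2 2),
      sq_nonneg (hh 1 1 - hh 2 2), sq_nonneg (hh 0 1), sq_nonneg (hh 0 2), sq_nonneg (hh 1 0),
      sq_nonneg (hh 1 2), sq_nonneg (hh 2 0), sq_nonneg (hh 2 1)]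
  have hR2 : R ^ 2 ≤ D * E := Finset.sum_mul_sq_le_sq_mul_sq _ _ _
  have hP2 : P ^ 2 ≤ D ^ 2 * S := by
    have h1 : P = ∑ m, p m * ∑ k, p k * hh m k := by
      rw [hP]
      refine Finset.sum_congr rfl fun m _ => ?_
      rw [Finset.mul_sum]
      exact Finset.sum_congr rfl fun k _ => by ring
    rw [h1]
    refine (Finset.sum_mul_sq_le_sq_mul_sq _ _ _).trans ?_
    rw [← hD, pow_two D, mul_assoc]
    apply mul_le_mul_of_nonneg_left _ hD0
    rw [hS, Finset.mul_sum]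
    refine Finset.sum_le_sum fun m _ => ?_
    exact Finset.sum_mul_sq_le_sq_mul_sq _ _ _
  have hsum : ∑ m, (p m * p m * D * φ ^ 4 + f * hh m m * D * φ ^ 4 + f * p m * q m * φ ^ 4
        + f * p m * D * (4 * φ ^ 3 * e m))
      = D ^ 2 * φ ^ 4 + f * L * D * φ ^ 4 + 2 * f * P * φ ^ 4 + 4 * f * R * D * φ ^ 3 := by
    have e1 : ∑ m, f * p m * q m * φ ^ 4 = 2 * f * P * φ ^ 4 := by
      rw [hP, Finset.mul_sum, Finset.sum_mul]
      refine Finset.sum_congr rfl fun m _ => ?_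
      rw [hq m]
      simp only [Fin.sum_univ_three]
      ring
    have e2 : ∑ m, p m * p m * D * φ ^ 4 = D ^ 2 * φ ^ 4 := by
      have e5 : ∑ m, p m * p m = D := Finset.sum_congr rfl fun m _ => by ring
      rw [← Finset.sum_mul, ← Finset.sum_mul, e5]
      ring
    have e3 : ∑ m, f * hh m m * D * φ ^ 4 = f * L * D * φ ^ 4 := by
      rw [← Finset.sum_mul, ← Finset.sum_mul, ← Finset.mul_sum]
    have e4 : ∑ m, f * p m * D * (4 * φ ^ 3 * e m) = 4 * f * R * D * φ ^ 3 := by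
      calc ∑ m, f * p m * D * (4 * φ ^ 3 * e m) = ∑ m, (4 * f * D * φ ^ 3) * (p m * e m) :=
            Finset.sum_congr rfl fun m _ => by ring
        _ = (4 * f * D * φ ^ 3) * R := by rw [← Finset.mul_sum]
        _ = _ := by ring
    rw [Finset.sum_add_distrib, Finset.sum_add_distrib, Finset.sum_add_distrib, e1, e2, e3, e4]
  rw [hsum]
  -- the three error terms
  have t1 : -(f * L * D) ≤ 1 / 8 * D ^ 2 + 6 * (K ^ 2 * S) := by
    have a1 : (f * L) ^ 2 ≤ K ^ 2 * (3 * S) := by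
      rw [mul_pow]
      exact mul_le_mul hf2 hL2 (sq_nonneg _) (sq_nonneg _)
    nlinarith [sq_nonneg (D + 4 * (f * L)), a1]
  have t2 : -(2 * f * P) ≤ 1 / 8 * D ^ 2 + 8 * (K ^ 2 * S) := by
    have a1 : (2 * f * P) ^ 2 ≤ (1 / 8 * D ^ 2 + 8 * (K ^ 2 * S)) ^ 2 := by
      have a2 : (2 * f * P) ^ 2 ≤ 4 * (K ^ 2 * (D ^ 2 * S)) := by
        have := mul_le_mul hf2 hP2 (sq_nonneg _) (sq_nonneg K)
        nlinarith
      have a3 : (1 / 8 * D ^ 2 + 8 * (K ^ 2 * S)) ^ 2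
          = (1 / 8 * D ^ 2 - 8 * (K ^ 2 * S)) ^ 2 + 4 * (K ^ 2 * (D ^ 2 * S)) := by ring
      rw [a3]
      linarith [sq_nonneg (1 / 8 * D ^ 2 - 8 * (K ^ 2 * S))]
    have a4 := abs_le_of_sq_le_sq a1 (by positivity)
    linarith [neg_abs_le (2 * f * P)]
  have t3 : -(4 * f * R * D * φ ^ 3) ≤ 1 / 4 * (D ^ 2 * φ ^ 4) + 16 * (K ^ 2 * (D * E * φ ^ 2)) := by
    have a1 : (f * R) ^ 2 ≤ K ^ 2 * (D * E) := by
      rw [mul_pow]
      exact mul_le_mul hf2 hR2 (sq_nonneg _) (sq_nonneg _)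
    have a2 : 0 ≤ (1 / 2 * (D * φ ^ 2) + 4 * (f * R * φ)) ^ 2 := sq_nonneg _
    have a3 : (f * R) ^ 2 * φ ^ 2 ≤ K ^ 2 * (D * E) * φ ^ 2 :=
      mul_le_mul_of_nonneg_right a1 (sq_nonneg _)
    nlinarith
  have hφ4 : 0 ≤ φ ^ 4 := by positivity
  have t1' := mul_le_mul_of_nonneg_right t1 hφ4
  have t2' := mul_le_mul_of_nonneg_right t2 hφ4
  nlinarith

/-- A Gagliardo-Nirenberg inequality. -/
lemma gn {ρ' ρ : ℝ} (h0 : 0 < ρ') (h : ρ' < ρ) : ∃ C : ℝ, 0 < C ∧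
    ∀ (f : V → ℝ) (K : ℝ), ContDiff ℝ ∞ f → (∀ x ∈ ball (0 : V) ρ, |f x| ≤ K) →
      ∫ x in ball (0 : V) ρ', SS 1 f x ^ 2 ≤ C * K ^ 2 * (N 1 ρ f + N 2 ρ f) := by
  obtain ⟨M, φ, hM, hφ⟩ := exists_cut h0 h
  refine ⟨28 + 32 * M, by positivity, fun f K hf hK => ?_⟩
  have hDs : ContDiff ℝ ∞ (SS 1 f) := by
    have : SS 1 f = fun x => ∑ i, pd i f x ^ 2 := rfl
    rw [this]
    exact ContDiff.sum fun i _ => (sm_pd hf i).pow 2
  have hφ2 : ContDiff ℝ ∞ (fun x => φ x * φ x) := hφ.sm.mul hφ.sm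
  have hφ4 : ContDiff ℝ ∞ (fun x => (φ x * φ x) * (φ x * φ x)) := hφ2.mul hφ2
  have hs4 : HasCompactSupport (fun x => (φ x * φ x) * (φ x * φ x)) :=
    (hφ.cs.mul_left (f := φ)).mul_left (f := fun x => φ x * φ x)
  have z1 : Z (fun x => ∑ m, pd m (fun y => ((f y * pd m f y) * SS 1 f y)
      * ((φ y * φ y) * (φ y * φ y))) x) :=
    Z.sum fun m => Z_pd (((hf.mul (sm_pd hf m)).mul hDs).mul hφ4) hs4.mul_left m
  have e0 : ∀ m x, pd m (SS 1 f) x = 2 * ∑ k, pd k f x * pd m (pd k f) x := by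
    intro m x
    have a1 : SS 1 f = fun x => ∑ i, pd i f x * pd i f x := by
      funext x
      rw [SS_one]
      exact Finset.sum_congr rfl fun i _ => by ring
    rw [a1, pd_sum' _ (fun i => (sm_pd hf i).mul (sm_pd hf i))]
    show ∑ i, pd m (fun y => pd i f y * pd i f y) x = _
    rw [Finset.mul_sum]
    refine Finset.sum_congr rfl fun i _ => ?_
    rw [pd_mul' (sm_pd hf i) (sm_pd hf i)]
    ring
  have e1 : ∀ x, ∑ m, pd m (fun y => ((f y * pd m f y) * SS 1 f y)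
      * ((φ y * φ y) * (φ y * φ y))) x
      = ∑ m, (pd m f x * pd m f x * SS 1 f x * φ x ^ 4
        + f x * pd m (pd m f) x * SS 1 f x * φ x ^ 4 + f x * pd m f x * pd m (SS 1 f) x * φ x ^ 4
        + f x * pd m f x * SS 1 f x * (4 * φ x ^ 3 * pd m φ x)) := by
    intro x
    refine Finset.sum_congr rfl fun m _ => ?_
    rw [pd_mul' ((hf.mul (sm_pd hf m)).mul hDs) hφ4, pd_mul' (hf.mul (sm_pd hf m)) hDs,
      pd_mul' hf (sm_pd hf m), pd_mul' hφ2 hφ2, pd_mul' hφ.sm hφ.sm]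
    ring
  have i1 : Integrable (fun x => SS 1 f x ^ 2 * φ x ^ 4) := by
    apply int_cs (((SS_cont 1 hf).pow 2).mul (hφ.sm.continuous.pow 4))
    have := hφ.cs.comp_left (g := fun y : ℝ => y ^ 4) (by simp)
    exact HasCompactSupport.mul_left this
  have i2 : Integrable (fun x => SS 2 f x * φ x ^ 4) := by
    apply int_cs ((SS_cont 2 hf).mul (hφ.sm.continuous.pow 4))
    have := hφ.cs.comp_left (g := fun y : ℝ => y ^ 4) (by simp)
    exact HasCompactSupport.mul_left this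
  have i3 : Integrable (fun x => SS 1 f x * SS 1 φ x * φ x ^ 2) := by
    apply int_cs (((SS_cont 1 hf).mul (SS_cont 1 hφ.sm)).mul (hφ.sm.continuous.pow 2))
    have := hφ.cs.comp_left (g := fun y : ℝ => y ^ 2) (by simp)
    exact HasCompactSupport.mul_left this
  have z2 := z1.smul 2
  have hI : ∫ x, SS 1 f x ^ 2 * φ x ^ 4 = ∫ x, (SS 1 f x ^ 2 * φ x ^ 4
      - 2 * ∑ m, pd m (fun y => ((f y * pd m f y) * SS 1 f y)
      * ((φ y * φ y) * (φ y * φ y))) x) := by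
    rw [integral_sub i1 z2.1, z2.2, sub_zero]
  have h1 : ∫ x, SS 1 f x ^ 2 * φ x ^ 4
      ≤ ∫ x, (28 * K ^ 2 * (SS 2 f x * φ x ^ 4) + 32 * K ^ 2 * (SS 1 f x * SS 1 φ x * φ x ^ 2)) := by
    rw [hI]
    apply integral_mono (i1.sub z2.1) ((i2.const_mul _).add (i3.const_mul _))
    intro x
    show SS 1 f x ^ 2 * φ x ^ 4 - 2 * ∑ m, pd m (fun y => ((f y * pd m f y) * SS 1 f y)
      * ((φ y * φ y) * (φ y * φ y))) x
      ≤ 28 * K ^ 2 * (SS 2 f x * φ x ^ 4) + 32 * K ^ 2 * (SS 1 f x * SS 1 φ x * φ x ^ 2)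
    rw [e1 x]
    by_cases hx : x ∈ ball (0 : V) ρ
    · have := pt_gn (f x) K (φ x) (fun m => pd m f x) (fun m => pd m φ x)
        (fun m => pd m (SS 1 f) x) (fun m k => pd m (pd k f) x) (hK x hx) (fun m => e0 m x)
      have e5 : SS 2 f x = ∑ m, ∑ k, pd m (pd k f) x ^ 2 := by
        show ∑ i, ∑ j, pd j (pd i f) x ^ 2 = _
        rw [Finset.sum_comm]
      rw [e5]
      simp only [SS_one]
      exact this
    · have a1 := hφ.out x hx
      rw [a1]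
      simp
  have h2 : ∫ x, (28 * K ^ 2 * (SS 2 f x * φ x ^ 4) + 32 * K ^ 2 * (SS 1 f x * SS 1 φ x * φ x ^ 2))
      ≤ 28 * K ^ 2 * N 2 ρ f + 32 * K ^ 2 * (M * N 1 ρ f) := by
    rw [integral_add (i2.const_mul _) (i3.const_mul _), integral_const_mul, integral_const_mul]
    have b1 : ∫ x, SS 2 f x * φ x ^ 4 ≤ N 2 ρ f := by
      refine le_trans ?_ (cut_le_N 2 hφ hf)
      apply integral_mono i2 (int_ss 2 hf hφ.sm hφ.cs)
      intro x
      apply mul_le_mul_of_nonneg_left _ (SS_nonneg 2 f x)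
      have := hφ.sq_le x
      have h3 : φ x ^ 4 = φ x ^ 2 * φ x ^ 2 := by ring
      rw [h3]
      nlinarith [sq_nonneg (φ x)]
    have b2 : ∫ x, SS 1 f x * SS 1 φ x * φ x ^ 2 ≤ M * N 1 ρ f := by
      refine le_trans ?_ (cut1_le_N 1 hφ hf)
      apply integral_mono i3 (int_ss1 1 hf hφ.sm hφ.cs)
      intro x
      have h3 := mul_le_mul_of_nonneg_left (hφ.sq_le x)
        (mul_nonneg (SS_nonneg 1 f x) (SS_nonneg 1 φ x))
      simpa using h3
    have c1 := mul_le_mul_of_nonneg_left b1 (by positivity : (0 : ℝ) ≤ 28 * K ^ 2)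
    have c2 := mul_le_mul_of_nonneg_left b2 (by positivity : (0 : ℝ) ≤ 32 * K ^ 2)
    linarith
  have h3 : ∫ x in ball (0 : V) ρ', SS 1 f x ^ 2 ≤ ∫ x, SS 1 f x ^ 2 * φ x ^ 4 := by
    rw [← integral_indicator measurableSet_ball]
    apply integral_mono_of_nonneg
    · exact Eventually.of_forall fun x => indicator_nonneg (fun y _ => sq_nonneg (SS 1 f y)) x
    · exact i1
    · refine Eventually.of_forall fun x => ?_
      show (ball (0 : V) ρ').indicator (fun x => SS 1 f x ^ 2) x ≤ SS 1 f x ^ 2 * φ x ^ 4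
      by_cases hx : x ∈ ball (0 : V) ρ'
      · rw [indicator_of_mem hx, hφ.one x hx]
        simp
      · rw [indicator_of_notMem hx]
        positivity
  refine (h3.trans (h1.trans h2)).trans ?_
  have n1 := N_nonneg 1 ρ f
  have n2 := N_nonneg 2 ρ f
  have k2 : 0 ≤ K ^ 2 := sq_nonneg K
  have := mul_nonneg k2 n1
  have := mul_nonneg k2 n2
  have := mul_nonneg hM (mul_nonneg k2 n2)
  nlinarith

end Pool.Agent.TH305.DR
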