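import Pool.Agent.TH305.DR.Dom

/-!
Derivative bounds (helper305): all viscosities, single derivatives, the second exceptional set.
-/

set_option autoImplicit false

open MeasureTheory Set Metric Filter Topology
open scoped ContDiff ENNReal

namespace Pool.Agent.TH305.DR

open H459R3.NS W221.NS Pool.Agent.W349.MF
open Pool.Agent.W583.MD (sm_pd)

lemma pd_cmul (c : ℝ) (f : V → ℝ) (i : Fin 3) :
    pd i (fun y => c * f y) = fun y => c * pd i f y := by
  funext x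
  unfold pd
  have : (fun y => c * f y) = c • f := by
    funext y; simp
  rw [this, fderiv_const_smul_field]
  simp

lemma SS_cmul (n : ℕ) : ∀ (c : ℝ) (f : V → ℝ) (x : V),
    SS n (fun y => c * f y) x = c ^ 2 * SS n f x := by
  induction n with
  | zero =>
    intro c f x
    simp only [SS_zero]
    ring
  | succ n ih =>
    intro c f x
    rw [SS_succ, SS_succ, Finset.mul_sum]
    refine Finset.sum_congr rfl fun i _ => ?_
    rw [pd_cmul, ih]

lemma ST_smul (n : ℕ) (c : ℝ) (v : V → V) (x : V) :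
    ST n (fun x => c • v x) x = c ^ 2 * ST n v x := by
  unfold ST
  rw [Finset.mul_sum]
  refine Finset.sum_congr rfl fun q _ => ?_
  rw [← SS_cmul]
  congr 1
  funext y
  unfold Om
  have e : ∀ i, (fun y => (c • v y) i) = fun y => c * v y i := fun i => rfl
  rw [e, e, pd_cmul, pd_cmul]
  ring

lemma SV_smul (n : ℕ) (c : ℝ) (v : V → V) (x : V) :
    SV n (fun x => c • v x) x = c ^ 2 * SV n v x := by
  unfold SV
  rw [Finset.mul_sum]
  refine Finset.sum_congr rfl fun q _ => ?_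
  rw [← SS_cmul]
  rfl

lemma A2_smul (a : V) (ρ c : ℝ) (v : V → V) :
    A2 a ρ (fun x => c • v x) = c ^ 2 * A2 a ρ v := by
  unfold A2
  rw [← integral_const_mul]
  refine integral_congr_ae (Eventually.of_forall fun y => ?_)
  show nsq (fun x => c • v x) y = c ^ 2 * nsq v y
  unfold nsq
  rw [Finset.mul_sum]
  refine Finset.sum_congr rfl fun i _ => ?_
  show (c * v y i) ^ 2 = _
  ring

lemma Bds_scale {K : ℕ → ℝ} {ν r : ℝ} (hν : 0 < ν) {v : V → V} {x : V}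
    (h : Bds K 1 r (fun x => ν⁻¹ • v x) x) : Bds K ν r v x := by
  intro x' hx' n
  obtain ⟨h1, h2⟩ := h x' hx' n
  rw [ST_smul] at h1
  rw [SV_smul, A2_smul] at h2
  have e : ν⁻¹ ^ 2 * ν ^ 2 = 1 := by field_simp
  have hν2 : 0 ≤ ν ^ 2 := by positivity
  constructor
  · have h3 := mul_le_mul_of_nonneg_right h1 hν2
    calc r ^ (2 * n + 4) * ST n v x' = r ^ (2 * n + 4) * ((ν⁻¹ ^ 2 * ν ^ 2) * ST n v x') := by
          rw [e, one_mul]
      _ = r ^ (2 * n + 4) * (ν⁻¹ ^ 2 * ST n v x') * ν ^ 2 := by ring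
      _ ≤ K n * 1 ^ 2 * ν ^ 2 := h3
      _ = K n * ν ^ 2 := by ring
  · have h3 := mul_le_mul_of_nonneg_right h2 hν2
    calc r ^ (2 * n + 4) * SV (n + 1) v x'
        = r ^ (2 * n + 4) * ((ν⁻¹ ^ 2 * ν ^ 2) * SV (n + 1) v x') := by
          rw [e, one_mul]
      _ = r ^ (2 * n + 4) * (ν⁻¹ ^ 2 * SV (n + 1) v x') * ν ^ 2 := by ring
      _ ≤ K n * (1 ^ 2 + r⁻¹ * (ν⁻¹ ^ 2 * A2 x (5 * r) v)) * ν ^ 2 := h3
      _ = K n * (ν ^ 2 + r⁻¹ * ((ν⁻¹ ^ 2 * ν ^ 2) * A2 x (5 * r) v)) := by ring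
      _ = K n * (ν ^ 2 + r⁻¹ * A2 x (5 * r) v) := by rw [e, one_mul]

/-- Scaling of the dissipation in a window. -/
lemma win_scale {ν : ℝ} (hν : 0 < ν) (Ω : Set V) (u : ℝ → V → V) (s r : ℝ) :
    ∫⁻ τ in Ioo (ν * s - r ^ 2) (ν * s),
        ∫⁻ y in Ω, ENNReal.ofReal (gsq (fun x => ν⁻¹ • u (τ / ν) x) y)
      = ENNReal.ofReal ν⁻¹ *
        ∫⁻ τ in Ioo (s - r ^ 2 / ν) s, ∫⁻ y in Ω, ENNReal.ofReal (gsq (u τ) y) := by
  have e1 : ∀ τ, ∫⁻ y in Ω, ENNReal.ofReal (gsq (fun x => ν⁻¹ • u (τ / ν) x) y)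
      = ENNReal.ofReal (ν⁻¹ ^ 2) * ∫⁻ y in Ω, ENNReal.ofReal (gsq (u (τ / ν)) y) := by
    intro τ
    rw [← lintegral_const_mul' _ _ ENNReal.ofReal_ne_top]
    refine lintegral_congr fun y => ?_
    rw [gsq_smul, ENNReal.ofReal_mul (by positivity)]
  simp only [e1]
  rw [lintegral_const_mul' _ _ ENNReal.ofReal_ne_top]
  have ea : ν * s - r ^ 2 = ν * (s - r ^ 2 / ν) := by field_simp
  rw [ea, lint_scale hν (fun τ => ∫⁻ y in Ω, ENNReal.ofReal (gsq (u τ) y)), ← mul_assoc,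
    ← ENNReal.ofReal_mul (by positivity)]
  congr 2
  field_simp

/-- The estimates, all viscosities. -/
theorem domN : ∃ C : ℝ, 0 < C ∧ ∃ K : ℕ → ℝ, (∀ n, 0 < K n) ∧
    (∀ Ω Q : Set V, IsOpen Ω → IsCompact Q → Q ⊆ Ω → ∃ A : ℝ, 0 < A ∧
      ∀ (ν T E : ℝ) (u : ℝ → V → V) (p : ℝ → V → ℝ), 0 < ν → 0 ≤ E → OSol ν T E Ω u p →
      ∀ r s : ℝ, 0 < r → A * (1 + E / ν) ^ 2 * r ≤ 1 → r ^ 2 / ν < s → s < T →
      ∃ B : Set V, MeasurableSet B ∧
        volume B ≤ ENNReal.ofReal (C / ν * r ^ 2) *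
          ∫⁻ τ in Ioo (s - r ^ 2 / ν) s, ∫⁻ y in Ω, ENNReal.ofReal (gsq (u τ) y) ∧
        ∀ x, x ∉ B → x ∈ thickening (r / 16) Q → ball x (5 * r) ⊆ Ω ∧ Bds K ν r (u s) x) ∧
    ∀ (ν T E : ℝ) (u : ℝ → V → V) (p : ℝ → V → ℝ), 0 < ν → 0 ≤ E → OSol ν T E univ u p →
      ∀ r s : ℝ, 0 < r → r ^ 2 / ν < s → s < T →
      ∃ B : Set V, MeasurableSet B ∧
        volume B ≤ ENNReal.ofReal (C / ν * r ^ 2) *
          ∫⁻ τ in Ioo (s - r ^ 2 / ν) s, ∫⁻ y, ENNReal.ofReal (gsq (u τ) y) ∧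
        ∀ x, x ∉ B → Bds K ν r (u s) x := by
  obtain ⟨C, hC, K, hK, H1, H2⟩ := dom1
  have hvol : ∀ (ν : ℝ) (hν : 0 < ν) (r : ℝ) (I : ℝ≥0∞),
      ENNReal.ofReal (C * r ^ 2) * (ENNReal.ofReal ν⁻¹ * I) = ENNReal.ofReal (C / ν * r ^ 2) * I := by
    intro ν hν r I
    rw [← mul_assoc, ← ENNReal.ofReal_mul (by positivity)]
    congr 2
    field_simp
  have hus : ∀ (ν s : ℝ) (hν : 0 < ν) (u : ℝ → V → V),
      (fun x => ν⁻¹ • u (ν * s / ν) x) = fun x => ν⁻¹ • u s x := by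
    intro ν s hν u
    rw [mul_div_cancel_left₀ s hν.ne']
  refine ⟨C, hC, K, hK, ?_, ?_⟩
  · intro Ω Q hΩ hQ hQΩ
    obtain ⟨A, hA, H⟩ := H1 Ω Q hΩ hQ hQΩ
    refine ⟨A, hA, ?_⟩
    intro ν T E u p hν hE hS r s hr hAr hrs hsT
    have hrs' : r ^ 2 < ν * s := by
      rw [div_lt_iff₀ hν] at hrs
      linarith
    obtain ⟨B, hBm, hBv, hB⟩ := H (ν * T) (E / ν) _ _ (div_nonneg hE hν.le)
      (W221.NS.B.p_osc ν T E Ω u p hν hS) r (ν * s) hr hAr hrs' (mul_lt_mul_of_pos_left hsT hν)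
    refine ⟨B, hBm, ?_, fun x hx hxQ => ?_⟩
    · rw [win_scale hν, hvol ν hν] at hBv
      exact hBv
    · obtain ⟨q1, q2⟩ := hB x hx hxQ
      refine ⟨q1, ?_⟩
      simp only [hus ν s hν] at q2
      exact Bds_scale hν q2
  · intro ν T E u p hν hE hS r s hr hrs hsT
    have hrs' : r ^ 2 < ν * s := by
      rw [div_lt_iff₀ hν] at hrs
      linarith
    obtain ⟨B, hBm, hBv, hB⟩ := H2 (ν * T) (E / ν) _ _ (div_nonneg hE hν.le)
      (W221.NS.B.p_osc ν T E univ u p hν hS) r (ν * s) hr hrs' (mul_lt_mul_of_pos_left hsT hν)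
    refine ⟨B, hBm, ?_, fun x hx => ?_⟩
    · have := win_scale hν univ u s r
      simp only [Measure.restrict_univ] at this
      rw [this, hvol ν hν] at hBv
      exact hBv
    · have q2 := hB x hx
      simp only [hus ν s hν] at q2
      exact Bds_scale hν q2

/-- Local masses: measurability and Tonelli. -/
lemma loc_mass {g : V → ℝ≥0∞} (hg : Measurable g) {ρ : ℝ} (hρ : 0 < ρ) :
    Measurable (fun x => ∫⁻ y in ball x ρ, g y) ∧
    ∫⁻ x, ∫⁻ y in ball x ρ, g y = ENNReal.ofReal ((2 * ρ) ^ 3) * ∫⁻ y, g y := by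
  obtain ⟨k, hk⟩ : ∃ k : V × V → ℝ≥0∞, k = {z : V × V | dist z.2 z.1 < ρ}.indicator
    fun z => g z.2 := ⟨_, rfl⟩
  have hkm : Measurable k := by
    rw [hk]
    apply Measurable.indicator (hg.comp measurable_snd)
    exact (isOpen_lt (continuous_snd.dist continuous_fst) continuous_const).measurableSet
  have h1 : ∀ x, ∫⁻ y in ball x ρ, g y = ∫⁻ y, k (x, y) := by
    intro x
    rw [← lintegral_indicator measurableSet_ball]
    refine lintegral_congr fun y => ?_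
    rw [hk]
    rfl
  simp only [h1]
  refine ⟨hkm.lintegral_prod_right', ?_⟩
  have hswap : ∫⁻ x, ∫⁻ y, k (x, y) = ∫⁻ y, ∫⁻ x, k (x, y) :=
    lintegral_lintegral_swap (f := fun x y => k (x, y)) hkm.aemeasurable
  rw [hswap]
  have h2 : ∀ y, ∫⁻ x, k (x, y) = ENNReal.ofReal ((2 * ρ) ^ 3) * g y := by
    intro y
    have h3 : ∀ x, k (x, y) = (ball y ρ).indicator (fun _ => g y) x := by
      intro x
      rw [hk]
      by_cases h : dist y x < ρ
      · rw [indicator_of_mem (show (x, y) ∈ {z : V × V | dist z.2 z.1 < ρ} from h),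
          indicator_of_mem (show x ∈ ball y ρ by rw [mem_ball, dist_comm]; exact h)]
      · rw [indicator_of_notMem (show (x, y) ∉ {z : V × V | dist z.2 z.1 < ρ} from h),
          indicator_of_notMem (show x ∉ ball y ρ by rw [mem_ball, dist_comm]; exact h)]
    simp only [h3]
    rw [lintegral_indicator measurableSet_ball, setLIntegral_const, mul_comm,
      Real.volume_pi_ball _ hρ]
    simp
  simp only [h2]
  rw [lintegral_const_mul _ hg]

end Pool.Agent.TH305.DR
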